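import Mathlib
import Pool.Agent.Helper112.MultLS

/-!
# Short segments of quadratic polynomials: Plancherel on `ZMod M`
-/

set_option autoImplicit false

namespace Pool.Agent.V8H34.TR

open Finset Pool.Agent.Helper112

variable {M : ℕ} [NeZero M]

/-- the spectral weights -/
noncomputable def mu (F : ZMod M → ℂ) (k : ZMod M) : ℝ :=
  ‖∑ x, F x * ZMod.stdAddChar (-(k * x))‖ ^ 2 / M

theorem mu_nonneg (F : ZMod M → ℂ) (k : ZMod M) : 0 ≤ mu F k := by
  unfold mu
  positivity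

/-- the frequency of `k` -/
noncomputable def fr (k : ZMod M) : ℝ := (k.val : ℝ) / M

theorem char_int (k : ZMod M) (s : ℤ) :
    (ZMod.stdAddChar (k * (s : ZMod M)) : ℂ) = ee (s * fr k) := by
  have h1 : k * (s : ZMod M) = (((k.val : ℤ) * s : ℤ) : ZMod M) := by
    push_cast
    rw [ZMod.natCast_zmod_val]
  rw [h1, ZMod.stdAddChar_coe]
  unfold ee fr
  congr 1
  push_cast
  ring

/-- **Plancherel.** -/
theorem planch {ι : Type*} (I : Finset ι) (w : ι → ℂ) (s : ι → ℤ) (F : ZMod M → ℂ) :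
    ∑ x, ‖∑ i ∈ I, w i * F (x + (s i : ZMod M))‖ ^ 2 =
      ∑ k : ZMod M, mu F k * ‖∑ i ∈ I, w i * ee (s i * fr k)‖ ^ 2 := by
  have hM : (0 : ℝ) < M := by exact_mod_cast Nat.pos_of_neZero M
  have h1 := MLS.parseval M (fun x => ∑ i ∈ I, w i * F (x + (s i : ZMod M)))
  have h2 : ∀ k : ZMod M, ‖∑ x, (∑ i ∈ I, w i * F (x + (s i : ZMod M))) *
      ZMod.stdAddChar (-(k * x))‖ ^ 2 = M * (mu F k * ‖∑ i ∈ I, w i * ee (s i * fr k)‖ ^ 2) := by
    intro k
    have h3 : ∑ x, (∑ i ∈ I, w i * F (x + (s i : ZMod M))) * ZMod.stdAddChar (-(k * x)) =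
        (∑ i ∈ I, w i * ee (s i * fr k)) * ∑ x, F x * ZMod.stdAddChar (-(k * x)) := by
      simp_rw [sum_mul]
      rw [sum_comm]
      apply sum_congr rfl
      intro i _
      rw [mul_sum, ← Equiv.sum_comp (Equiv.addRight (s i : ZMod M))
        (fun x => w i * ee (s i * fr k) * (F x * ZMod.stdAddChar (-(k * x))))]
      apply sum_congr rfl
      intro x _
      rw [Equiv.coe_addRight, ← char_int]
      have h4 : (ZMod.stdAddChar (-(k * x)) : ℂ) = ZMod.stdAddChar (k * (s i : ZMod M)) *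
          ZMod.stdAddChar (-(k * (x + (s i : ZMod M)))) := by
        rw [← AddChar.map_add_eq_mul]
        congr 1
        ring
      rw [h4]
      ring
    rw [h3, norm_mul, mul_pow]
    unfold mu
    have e : ∀ A B : ℝ, A * B = M * (B / M * A) := fun A B => by field_simp
    exact e _ _
  have h3 : ∑ k : ZMod M, ‖∑ x, (∑ i ∈ I, w i * F (x + (s i : ZMod M))) *
      ZMod.stdAddChar (-(k * x))‖ ^ 2 = M * ∑ x, ‖∑ i ∈ I, w i * F (x + (s i : ZMod M))‖ ^ 2 := by
    rw [← h1, ← Equiv.sum_comp (Equiv.neg (ZMod M))]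
    apply sum_congr rfl
    intro k _
    simp
  rw [sum_congr rfl fun k _ => h2 k, ← mul_sum] at h3
  exact (mul_left_cancel₀ hM.ne' h3).symm

/-- the sum of the spectral weights -/
theorem sum_mu (F : ZMod M → ℂ) : ∑ k, mu F k = ∑ x, ‖F x‖ ^ 2 := by
  have h := planch ({0} : Finset ℕ) (fun _ => 1) (fun _ => 0) F
  simp only [sum_singleton, one_mul, Int.cast_zero, add_zero, zero_mul, ls_ee_zero, norm_one,
    one_pow, mul_one] at h
  exact h.symm

/-- the window sums with a phase, in mean square -/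
noncomputable def E (h : ZMod M → ℂ) (T : ℕ) (θ : ℝ) : ℝ :=
  ∑ x, ‖∑ t ∈ range T, ee (-(t * θ)) * h (x + ((t : ℤ) : ZMod M))‖ ^ 2

theorem E_nonneg (h : ZMod M → ℂ) (T : ℕ) (θ : ℝ) : 0 ≤ E h T θ := by
  unfold E
  positivity

theorem E_eq (h : ZMod M → ℂ) (T : ℕ) (θ : ℝ) :
    E h T θ = ∑ k, mu h k * ‖lsD T (fr k - θ)‖ ^ 2 := by
  unfold E
  rw [planch (range T) (fun t => ee (-(t * θ))) (fun t => (t : ℤ)) h]
  apply sum_congr rfl
  intro k _
  unfold lsD
  congr 3
  apply sum_congr rfl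
  intro t _
  rw [← ls_ee_add]
  congr 1
  push_cast
  ring

end Pool.Agent.V8H34.TR
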