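import Mathlib
import Pool.Agent.Helper112.LS

/-!
# Short segments of quadratic polynomials: Weyl differencing and a majorant of the Weyl sum
-/

set_option autoImplicit false

namespace Pool.Agent.V8H34.TR

open Finset Pool.Agent.Helper112

theorem sum_Icc_one {R : Type*} [AddCommMonoid R] (f : ℕ → R) (L : ℕ) :
    ∑ m ∈ Icc 1 L, f m = ∑ j ∈ range L, f (j + 1) := by
  induction L with
  | zero => simp
  | succ L ih => rw [sum_Icc_succ_top (by omega), sum_range_succ, ih]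

/-! ### differencing -/

theorem vdc_id (z : ℕ → ℂ) (y : ℕ) : ‖∑ m ∈ Icc 1 y, z m‖ ^ 2 =
    ∑ m ∈ Icc 1 y, ‖z m‖ ^ 2 +
      2 * (∑ d ∈ Ico 1 y, ∑ m ∈ Icc 1 (y - d), (starRingEnd ℂ) (z m) * z (m + d)).re := by
  induction y with
  | zero => simp
  | succ y ih =>
    have h1 : ∑ d ∈ Ico 1 (y + 1), ∑ m ∈ Icc 1 (y + 1 - d), (starRingEnd ℂ) (z m) * z (m + d) =
        ∑ d ∈ Ico 1 y, ∑ m ∈ Icc 1 (y - d), (starRingEnd ℂ) (z m) * z (m + d) +
          (starRingEnd ℂ) (∑ m ∈ Icc 1 y, z m) * z (y + 1) := by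
      have h2 : ∑ d ∈ Ico 1 (y + 1), ∑ m ∈ Icc 1 (y + 1 - d), (starRingEnd ℂ) (z m) * z (m + d) =
          ∑ d ∈ Ico 1 (y + 1), (∑ m ∈ Icc 1 (y - d), (starRingEnd ℂ) (z m) * z (m + d) +
            (starRingEnd ℂ) (z (y + 1 - d)) * z (y + 1)) := by
        apply sum_congr rfl
        intro d hd
        rw [mem_Ico] at hd
        have h3 : y + 1 - d = (y - d) + 1 := by omega
        rw [h3, sum_Icc_succ_top (by omega)]
        congr 3
        omega
      rw [h2, sum_add_distrib]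
      congr 1
      · rcases Nat.eq_zero_or_pos y with rfl | hy
        · simp
        · rw [sum_Ico_succ_top hy]
          simp
      · rw [map_sum, sum_mul]
        apply sum_bij' (fun d _ => y + 1 - d) (fun m _ => y + 1 - m)
        · intro d hd
          rw [mem_Ico] at hd
          rw [mem_Icc]
          omega
        · intro m hm
          rw [mem_Icc] at hm
          rw [mem_Ico]
          omega
        · intro d hd
          rw [mem_Ico] at hd
          omega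
        · intro m hm
          rw [mem_Icc] at hm
          omega
        · intro d _
          rfl
    rw [h1, sum_Icc_succ_top (by omega), sum_Icc_succ_top (by omega)]
    have h4 : ∀ a b : ℂ, ‖a + b‖ ^ 2 = ‖a‖ ^ 2 + ‖b‖ ^ 2 + 2 * ((starRingEnd ℂ) a * b).re := by
      intro a b
      rw [← Complex.normSq_eq_norm_sq, ← Complex.normSq_eq_norm_sq, ← Complex.normSq_eq_norm_sq,
        Complex.normSq_add]
      have : (a * (starRingEnd ℂ) b).re = ((starRingEnd ℂ) a * b).re := by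
        simp [Complex.mul_re]
      rw [this]
    rw [h4, ih, Complex.add_re]
    ring

/-- the values of the polynomial without constant term -/
def gq (a : ℕ) (b : ℤ) (m : ℕ) : ℤ := a * (m : ℤ) ^ 2 + b * m

theorem weyl_diff (a : ℕ) (b : ℤ) (y : ℕ) (α : ℝ) :
    ‖∑ m ∈ Icc 1 y, ee (gq a b m * α)‖ ^ 2 ≤
      y + 2 * ∑ d ∈ Ico 1 y, ‖∑ m ∈ Icc 1 (y - d), ee (m * (((2 * a * d : ℕ) : ℝ) * α))‖ := by
  rw [vdc_id]
  have h1 : ∑ m ∈ Icc 1 y, ‖ee (gq a b m * α)‖ ^ 2 = (y : ℝ) := by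
    rw [sum_congr rfl fun m _ => by rw [ls_norm_ee, one_pow]]
    simp
  rw [h1]
  gcongr
  refine (Complex.re_le_norm _).trans ((norm_sum_le _ _).trans (sum_le_sum fun d _ => ?_))
  have h2 : ∑ m ∈ Icc 1 (y - d), (starRingEnd ℂ) (ee (gq a b m * α)) * ee (gq a b (m + d) * α) =
      ee (gq a b d * α) * ∑ m ∈ Icc 1 (y - d), ee (m * (((2 * a * d : ℕ) : ℝ) * α)) := by
    rw [mul_sum]
    apply sum_congr rfl
    intro m _
    rw [ls_conj_ee, ← ls_ee_add, ← ls_ee_add]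
    congr 1
    unfold gq
    push_cast
    ring
  rw [h2, norm_mul, ls_norm_ee, one_mul]

/-! ### the kernel -/

theorem ee_sub_one_ge {t : ℝ} (ht : |t| ≤ 1 / 2) : 4 * |t| ≤ ‖ee t - 1‖ := by
  rw [ls_norm_ee_sub_one, abs_mul, abs_two]
  have h1 : 2 / Real.pi * |Real.pi * t| ≤ |Real.sin (Real.pi * t)| := by
    have hp := Real.pi_pos
    rcases le_total 0 t with h0 | h0
    · rw [abs_of_nonneg h0] at ht
      have h2 : 0 ≤ Real.pi * t := by positivity
      have h3 : Real.pi * t ≤ Real.pi / 2 := by nlinarith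
      have h4 := Real.mul_le_sin h2 h3
      rw [abs_of_nonneg h2]
      exact h4.trans (le_abs_self _)
    · rw [abs_of_nonpos h0] at ht
      have h2 : 0 ≤ Real.pi * -t := by
        apply mul_nonneg hp.le
        linarith
      have h3 : Real.pi * -t ≤ Real.pi / 2 := by nlinarith
      have h4 := Real.mul_le_sin h2 h3
      have h5 : |Real.pi * t| = Real.pi * -t := by
        rw [abs_mul, abs_of_pos hp, abs_of_nonpos h0]
      rw [h5]
      have h6 : |Real.sin (Real.pi * t)| = |Real.sin (Real.pi * -t)| := by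
        rw [mul_neg, Real.sin_neg, abs_neg]
      rw [h6]
      exact h4.trans (le_abs_self _)
  have h2 : 2 / Real.pi * |Real.pi * t| = 2 * |t| := by
    rw [abs_mul, abs_of_pos Real.pi_pos]
    field_simp
  linarith

theorem ee_sub_one_le (t : ℝ) : ‖ee t - 1‖ ≤ 2 * Real.pi * |t| := by
  rw [ls_norm_ee_sub_one, abs_mul, abs_two]
  have h1 : |Real.sin (Real.pi * t)| ≤ |Real.pi * t| := Real.abs_sin_le_abs
  rw [abs_mul, abs_of_pos Real.pi_pos] at h1
  linarith

theorem lsD_geom (T : ℕ) (t : ℝ) : lsD T t * (ee t - 1) = ee (T * t) - 1 := by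
  unfold lsD
  have : ∀ j ∈ range T, ee (j * t) = ee t ^ j := fun j _ => ls_ee_nat_mul j t
  rw [Finset.sum_congr rfl this, geom_sum_mul, ls_ee_nat_mul]

/-- lower bound near `0` -/
theorem lsD_ge {T : ℕ} {t : ℝ} (ht : T * |t| ≤ 1 / 2) : 2 / 5 * (T : ℝ) ^ 2 ≤ ‖lsD T t‖ ^ 2 := by
  rcases eq_or_ne t 0 with rfl | h0
  · rw [lsD_zero, Complex.norm_natCast]
    nlinarith [sq_nonneg (T : ℝ)]
  · have ht0 : 0 < |t| := abs_pos.2 h0
    have h1 : ‖lsD T t‖ * (2 * Real.pi * |t|) ≥ 4 * (T * |t|) := by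
      have h2 : ‖lsD T t‖ * ‖ee t - 1‖ = ‖ee (T * t) - 1‖ := by
        rw [← norm_mul, lsD_geom]
      have h3 : 4 * |(T : ℝ) * t| ≤ ‖ee (T * t) - 1‖ := by
        apply ee_sub_one_ge
        rw [abs_mul, Nat.abs_cast]
        exact ht
      rw [abs_mul, Nat.abs_cast] at h3
      calc 4 * (T * |t|) ≤ ‖ee (T * t) - 1‖ := h3
        _ = ‖lsD T t‖ * ‖ee t - 1‖ := h2.symm
        _ ≤ ‖lsD T t‖ * (2 * Real.pi * |t|) :=
          mul_le_mul_of_nonneg_left (ee_sub_one_le t) (norm_nonneg _)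
    have h4 : 4 * (T : ℝ) ≤ ‖lsD T t‖ * (2 * Real.pi) := by
      have : 4 * (T : ℝ) * |t| ≤ ‖lsD T t‖ * (2 * Real.pi) * |t| := by linarith
      exact le_of_mul_le_mul_right this ht0
    have h5 : 2 * Real.pi ≤ 6.2832 := by
      have := Real.pi_lt_d4
      linarith
    have h6 : 4 * (T : ℝ) ≤ ‖lsD T t‖ * 6.2832 :=
      h4.trans (mul_le_mul_of_nonneg_left h5 (norm_nonneg _))
    have h7 : (0 : ℝ) ≤ T := Nat.cast_nonneg T
    have h8 : (4 * (T : ℝ)) ^ 2 ≤ (‖lsD T t‖ * 6.2832) ^ 2 := pow_le_pow_left₀ (by positivity) h6 2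
    have h9 : (‖lsD T t‖ * 6.2832) ^ 2 = ‖lsD T t‖ ^ 2 * 39.47860224 := by ring
    rw [h9] at h8
    nlinarith [sq_nonneg ‖lsD T t‖]

/-- **the majorant of a linear sum** -/
theorem kernel {q y L S : ℕ} (hq : 1 ≤ q) (hy : 1 ≤ y) (hL : L ≤ y) (hS : q * y < 2 ^ (S + 1))
    (α : ℝ) : ‖∑ m ∈ Icc 1 L, ee (m * ((q : ℝ) * α))‖ ≤
      5 * ∑ s ∈ (range (S + 1)).filter (fun s => 2 ^ s ≤ q * y), 1 / ((q : ℝ) * 2 ^ s) *
        ∑ u ∈ range q, ‖lsD (2 ^ s) (α - (u : ℝ) / q)‖ ^ 2 := by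
  have hq0 : (0 : ℝ) < q := by exact_mod_cast hq
  have hy0 : (0 : ℝ) < y := by exact_mod_cast hy
  -- the nearest fraction
  set n : ℤ := round ((q : ℝ) * α) with hn
  set β : ℝ := α - n / q with hβ
  have hβ1 : |(q : ℝ) * β| ≤ 1 / 2 := by
    have h1 : (q : ℝ) * β = q * α - n := by
      rw [hβ]
      field_simp
    rw [h1]
    exact abs_sub_round _
  have hβ2 : (q : ℝ) * |β| ≤ 1 / 2 := by
    rw [abs_mul, Nat.abs_cast] at hβ1
    exact hβ1
  set u : ℕ := (n % q).toNat with hu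
  have hqz : (0 : ℤ) < q := by exact_mod_cast hq
  have hmod0 : 0 ≤ n % q := Int.emod_nonneg _ hqz.ne'
  have hmod1 : n % q < q := Int.emod_lt_of_pos _ hqz
  have hur : u ∈ range q := by
    rw [mem_range]
    omega
  have hshift : ∀ T : ℕ, lsD T (α - (u : ℝ) / q) = lsD T β := by
    intro T
    have h1 : α - (u : ℝ) / q = β + (n / q : ℤ) := by
      have h2 : (u : ℤ) = n - q * (n / q) := by
        have := Int.emod_add_mul_ediv n q
        omega
      have h3 : (u : ℝ) = n - q * ((n / q : ℤ) : ℝ) := by exact_mod_cast h2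
      rw [hβ, h3]
      field_simp
      ring
    rw [h1, lsD_add_int]
  -- the choice of the scale
  set P : ℕ → Prop := fun s => 2 ^ s ≤ q * y ∧ (2 : ℝ) ^ s * |β| ≤ 1 / 2 with hP
  have hP0 : P 0 := by
    refine ⟨by rw [pow_zero]; exact Nat.mul_pos hq hy, ?_⟩
    rw [pow_zero, one_mul]
    have : |β| ≤ q * |β| := le_mul_of_one_le_left (abs_nonneg _) (by exact_mod_cast hq)
    linarith
  classical
  set s : ℕ := Nat.findGreatest P S with hs
  have hPs : P s := Nat.findGreatest_spec (Nat.zero_le S) hP0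
  have hsS : s ≤ S := Nat.findGreatest_le S
  have hnext : ¬ P (s + 1) := by
    rcases Nat.lt_or_ge s S with h | h
    · exact Nat.findGreatest_is_greatest (Nat.lt_succ_self s) h
    · have : s = S := le_antisymm hsS h
      rintro ⟨h1, -⟩
      rw [this] at h1
      omega
  have hterm : 2 / 5 * ((2 : ℝ) ^ s / q) ≤ ∑ s ∈ (range (S + 1)).filter (fun s => 2 ^ s ≤ q * y),
      1 / ((q : ℝ) * 2 ^ s) * ∑ u ∈ range q, ‖lsD (2 ^ s) (α - (u : ℝ) / q)‖ ^ 2 := by
    have h1 : (2 / 5 * ((2 : ℝ) ^ s / q)) ≤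
        1 / ((q : ℝ) * 2 ^ s) * ∑ u ∈ range q, ‖lsD (2 ^ s) (α - (u : ℝ) / q)‖ ^ 2 := by
      have h2 : 2 / 5 * ((2 ^ s : ℕ) : ℝ) ^ 2 ≤ ‖lsD (2 ^ s) β‖ ^ 2 := by
        apply lsD_ge
        push_cast
        exact hPs.2
      have h3 : ‖lsD (2 ^ s) β‖ ^ 2 ≤ ∑ u ∈ range q, ‖lsD (2 ^ s) (α - (u : ℝ) / q)‖ ^ 2 := by
        rw [← hshift]
        exact single_le_sum (f := fun u : ℕ => ‖lsD (2 ^ s) (α - (u : ℝ) / q)‖ ^ 2)
          (fun _ _ => by positivity) hur
      have h4 : (2 / 5 * ((2 : ℝ) ^ s / q)) = 1 / ((q : ℝ) * 2 ^ s) * (2 / 5 * ((2 ^ s : ℕ) : ℝ) ^ 2) := by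
        push_cast
        field_simp
      rw [h4]
      exact mul_le_mul_of_nonneg_left (h2.trans h3) (by positivity)
    refine h1.trans ?_
    refine single_le_sum (f := fun s : ℕ => 1 / ((q : ℝ) * 2 ^ s) *
      ∑ u ∈ range q, ‖lsD (2 ^ s) (α - (u : ℝ) / q)‖ ^ 2) (fun _ _ => by positivity) ?_
    rw [mem_filter, mem_range]
    exact ⟨by omega, hPs.1⟩
  refine le_trans ?_ (mul_le_mul_of_nonneg_left hterm (by norm_num))
  -- the size of the sum
  by_cases hc : 2 ^ (s + 1) ≤ q * y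
  · -- then `2 ^ (s + 1) |β| > 1 / 2`
    have h1 : 1 / 2 < (2 : ℝ) ^ (s + 1) * |β| := by
      by_contra h2
      exact hnext ⟨hc, not_lt.1 h2⟩
    have hβ0 : 0 < |β| := by
      by_contra h2
      have : |β| = 0 := le_antisymm (not_lt.1 h2) (abs_nonneg _)
      rw [this, mul_zero] at h1
      norm_num at h1
    have h2 : ‖∑ m ∈ Icc 1 L, ee (m * ((q : ℝ) * α))‖ * (4 * (q * |β|)) ≤ 2 := by
      have h3 : ee ((q : ℝ) * α) = ee (q * β) := by
        have : (q : ℝ) * α = q * β + (n : ℤ) := by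
          rw [hβ]
          field_simp
          ring
        rw [this, ls_ee_add, ls_ee_int, mul_one]
      have h4 : ∑ m ∈ Icc 1 L, ee (m * ((q : ℝ) * α)) = ee (q * β) * ∑ j ∈ range L, ee (q * β) ^ j := by
        rw [mul_sum, sum_Icc_one (fun m => ee (m * ((q : ℝ) * α))) L]
        apply sum_congr rfl
        intro j _
        rw [ls_ee_nat_mul, h3]
        ring
      have h5 : ‖∑ m ∈ Icc 1 L, ee (m * ((q : ℝ) * α))‖ * ‖ee (q * β) - 1‖ ≤ 2 := by
        rw [h4, norm_mul, ls_norm_ee, one_mul, ← norm_mul, geom_sum_mul]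
        calc ‖ee (q * β) ^ L - 1‖ ≤ ‖ee (q * β) ^ L‖ + ‖(1 : ℂ)‖ := norm_sub_le _ _
          _ = 2 := by rw [norm_pow, ls_norm_ee]; norm_num
      have h6 : 4 * (q * |β|) ≤ ‖ee (q * β) - 1‖ := by
        have := ee_sub_one_ge hβ1
        rwa [abs_mul, Nat.abs_cast] at this
      exact (mul_le_mul_of_nonneg_left h6 (norm_nonneg _)).trans h5
    have h3 : 0 < 4 * (q * |β|) := by positivity
    rw [← le_div_iff₀ h3] at h2
    refine h2.trans ?_
    rw [div_le_iff₀ h3]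
    have h4 : 5 * (2 / 5 * ((2 : ℝ) ^ s / q)) * (4 * (q * |β|)) = 4 * (2 ^ (s + 1) * |β|) := by
      rw [pow_succ]
      field_simp
    rw [h4]
    linarith
  · have h1 : (q : ℝ) * y < 2 ^ (s + 1) := by
      have : q * y < 2 ^ (s + 1) := not_le.1 hc
      exact_mod_cast this
    have h2 : ‖∑ m ∈ Icc 1 L, ee (m * ((q : ℝ) * α))‖ ≤ y := by
      refine (norm_sum_le _ _).trans ?_
      rw [sum_congr rfl fun m _ => ls_norm_ee _]
      simp only [sum_const, Nat.card_Icc, Nat.add_sub_cancel, nsmul_eq_mul, mul_one]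
      exact_mod_cast hL
    refine h2.trans ?_
    have h3 : 5 * (2 / 5 * ((2 : ℝ) ^ s / q)) = 2 ^ (s + 1) / q := by
      rw [pow_succ]
      ring
    rw [h3, le_div_iff₀ hq0]
    linarith

end Pool.Agent.V8H34.TR
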