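import Mathlib
import Pool.Agent.V8H34.TR.Four
import Pool.Agent.V8H34.TR.Weyl

/-!
# Short segments of quadratic polynomials: the second moment and fractions
-/

set_option autoImplicit false

namespace Pool.Agent.V8H34.TR

open Finset Pool.Agent.Helper112

/-- sums over all fractions with denominator `q` -/
theorem frac_sum (q : ℕ) (hq : 1 ≤ q) (Φ : ℝ → ℝ) :
    ∑ u ∈ range q, Φ ((u : ℝ) / q) =
      ∑ r ∈ q.divisors, ∑ a ∈ (range r).filter (fun a => a.Coprime r), Φ ((a : ℝ) / r) := by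
  have hq0 : 0 < q := hq
  rw [← sum_fiberwise_of_maps_to (s := range q) (t := q.divisors) (g := fun u => q / u.gcd q)
    (fun u _ => by
      rw [Nat.mem_divisors]
      exact ⟨Nat.div_dvd_of_dvd (Nat.gcd_dvd_right _ _), by omega⟩)]
  apply sum_congr rfl
  intro r hr
  rw [Nat.mem_divisors] at hr
  obtain ⟨e, he⟩ := hr.1
  have hr0 : 0 < r := Nat.pos_of_dvd_of_pos hr.1 hq0
  have he0 : 0 < e := by
    rcases Nat.eq_zero_or_pos e with h | h
    · rw [h, mul_zero] at he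
      omega
    · exact h
  have hiff : ∀ u : ℕ, q / u.gcd q = r → u.gcd q = e := by
    intro u hu
    have h1 : u.gcd q ∣ q := Nat.gcd_dvd_right _ _
    have h2 : q / u.gcd q * u.gcd q = q := Nat.div_mul_cancel h1
    rw [hu] at h2
    have h3 : r * u.gcd q = r * e := by rw [h2, he]
    exact Nat.eq_of_mul_eq_mul_left hr0 h3
  apply sum_bij' (fun u _ => u / e) (fun a _ => a * e)
  · intro u hu
    rw [mem_filter, mem_range] at hu
    have h1 := hiff u hu.2
    have h2 : e ∣ u := h1 ▸ Nat.gcd_dvd_left _ _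
    rw [mem_filter, mem_range]
    constructor
    · rw [Nat.div_lt_iff_lt_mul he0]
      omega
    · have h3 := Nat.gcd_div h2 (by rw [he]; exact Dvd.intro_left _ rfl : e ∣ q)
      rw [h1, Nat.div_self he0] at h3
      have h4 : q / e = r := by rw [he]; exact Nat.mul_div_cancel _ he0
      rw [h4] at h3
      exact h3
  · intro a ha
    rw [mem_filter, mem_range] at ha
    rw [mem_filter, mem_range]
    constructor
    · rw [he]
      exact Nat.mul_lt_mul_of_pos_right ha.1 he0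
    · have h1 : (a * e).gcd q = e := by
        rw [he, Nat.gcd_mul_right, ha.2, one_mul]
      rw [h1, he]
      exact Nat.mul_div_cancel _ he0
  · intro u hu
    rw [mem_filter, mem_range] at hu
    have h1 := hiff u hu.2
    have h2 : e ∣ u := h1 ▸ Nat.gcd_dvd_left _ _
    exact Nat.div_mul_cancel h2
  · intro a _
    exact Nat.mul_div_cancel _ he0
  · intro u hu
    rw [mem_filter, mem_range] at hu
    have h1 := hiff u hu.2
    have h2 : e ∣ u := h1 ▸ Nat.gcd_dvd_left _ _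
    congr 1
    obtain ⟨c, hc⟩ := h2
    have h3 : u / e = c := by rw [hc]; exact Nat.mul_div_cancel_left _ he0
    rw [h3, hc, he]
    have he' : (e : ℝ) ≠ 0 := by positivity
    have hr' : (r : ℝ) ≠ 0 := by positivity
    push_cast
    field_simp

/-- harmonic sums over dyadic ranges -/
theorem harm (k0 l : ℕ) (hk : 1 ≤ k0) : ∑ k ∈ Ico k0 (2 ^ l * k0), (1 : ℝ) / k ≤ l := by
  induction l with
  | zero => simp
  | succ l ih =>
    have h1 : k0 ≤ 2 ^ l * k0 := Nat.le_mul_of_pos_left _ (by positivity)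
    have h2 : 2 ^ l * k0 ≤ 2 ^ (l + 1) * k0 :=
      Nat.mul_le_mul_right _ (Nat.pow_le_pow_right (by norm_num) (Nat.le_succ l))
    rw [← sum_Ico_consecutive _ h1 h2]
    have h3 : ∑ k ∈ Ico (2 ^ l * k0) (2 ^ (l + 1) * k0), (1 : ℝ) / k ≤ 1 := by
      have h4 : ∀ k ∈ Ico (2 ^ l * k0) (2 ^ (l + 1) * k0), (1 : ℝ) / k ≤ 1 / ((2 ^ l * k0 : ℕ) : ℝ) := by
        intro k hk'
        rw [mem_Ico] at hk'
        have h5 : 0 < 2 ^ l * k0 := by positivity
        apply one_div_le_one_div_of_le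
        · exact_mod_cast h5
        · exact_mod_cast hk'.1
      refine (sum_le_sum h4).trans ?_
      rw [sum_const, Nat.card_Ico, nsmul_eq_mul]
      have h5 : 2 ^ (l + 1) * k0 - 2 ^ l * k0 = 2 ^ l * k0 := by
        rw [pow_succ]
        have : 2 ^ l * 2 * k0 = 2 ^ l * k0 + 2 ^ l * k0 := by ring
        omega
      rw [h5]
      have h6 : (0 : ℝ) < ((2 ^ l * k0 : ℕ) : ℝ) := by
        have : 0 < 2 ^ l * k0 := by positivity
        exact_mod_cast this
      rw [mul_one_div_cancel h6.ne']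
    push_cast
    linarith

/-- the weights of the denominators -/
theorem omega_le {a y S s r : ℕ} (ha : 1 ≤ a) (hS : 2 * a * y * y < 2 ^ (S + 1))
    (hs : s ≤ S) (hr : 1 ≤ r) :
    ∑ d ∈ (Ico 1 y).filter (fun d => 2 ^ s ≤ 2 * a * d * y ∧ r ∣ 2 * a * d),
      (1 : ℝ) / ((2 * a * d : ℕ) : ℝ) ≤ ((S + 1 - s : ℕ) : ℝ) / r := by
  classical
  have hr0 : (0 : ℝ) < r := by exact_mod_cast hr
  set D := (Ico 1 y).filter (fun d => 2 ^ s ≤ 2 * a * d * y ∧ r ∣ 2 * a * d) with hD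
  rcases D.eq_empty_or_nonempty with h0 | h0
  · rw [h0, sum_empty]
    positivity
  set κ : ℕ → ℕ := fun d => 2 * a * d / r with hκ
  have hmul : ∀ d ∈ D, r * κ d = 2 * a * d := by
    intro d hd
    rw [hD, mem_filter] at hd
    exact Nat.mul_div_cancel' hd.2.2
  obtain ⟨d0, hd0, hmin⟩ := exists_min_image D κ h0
  have hk0 : 1 ≤ κ d0 := by
    have h1 := hmul d0 hd0
    have h2 : 0 < 2 * a * d0 := by
      rw [hD, mem_filter, mem_Ico] at hd0
      have : 0 < d0 := hd0.1.1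
      positivity
    by_contra h3
    have h4 : κ d0 = 0 := by omega
    rw [h4, mul_zero] at h1
    omega
  have hinj : Set.InjOn κ D := by
    intro d hd d' hd' h
    have h1 := hmul d hd
    have h2 := hmul d' hd'
    rw [h, h2] at h1
    exact (Nat.eq_of_mul_eq_mul_left (by positivity) h1).symm
  have hmem : ∀ d ∈ D, κ d ∈ Ico (κ d0) (2 ^ (S + 1 - s) * κ d0) := by
    intro d hd
    rw [mem_Ico]
    refine ⟨hmin d hd, ?_⟩
    have h1 := hmul d hd
    have h2 := hmul d0 hd0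
    rw [hD, mem_filter, mem_Ico] at hd hd0
    have h3 : 2 * a * d ≤ 2 * a * y := Nat.mul_le_mul_left _ hd.1.2.le
    have h4 : κ d * (r * y) < 2 ^ (S + 1 - s) * κ d0 * (r * y) := by
      calc κ d * (r * y) = (r * κ d) * y := by ring
        _ = 2 * a * d * y := by rw [h1]
        _ ≤ 2 * a * y * y := Nat.mul_le_mul_right _ h3
        _ < 2 ^ (S + 1) := hS
        _ = 2 ^ (S + 1 - s) * 2 ^ s := by rw [← pow_add]; congr 1; omega
        _ ≤ 2 ^ (S + 1 - s) * (2 * a * d0 * y) := Nat.mul_le_mul_left _ hd0.2.1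
        _ = 2 ^ (S + 1 - s) * κ d0 * (r * y) := by rw [← h2]; ring
    exact lt_of_mul_lt_mul_right h4 (Nat.zero_le _)
  calc ∑ d ∈ D, (1 : ℝ) / ((2 * a * d : ℕ) : ℝ) = ∑ d ∈ D, (1 / (r : ℝ)) * (1 / (κ d : ℝ)) := by
        apply sum_congr rfl
        intro d hd
        rw [← hmul d hd]
        push_cast
        rw [one_div_mul_one_div]
    _ = 1 / (r : ℝ) * ∑ k ∈ D.image κ, 1 / (k : ℝ) := by
        rw [← mul_sum, sum_image hinj]
    _ ≤ 1 / (r : ℝ) * ∑ k ∈ Ico (κ d0) (2 ^ (S + 1 - s) * κ d0), 1 / (k : ℝ) := by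
        apply mul_le_mul_of_nonneg_left _ (by positivity)
        apply sum_le_sum_of_subset_of_nonneg
        · intro k hk
          obtain ⟨d, hd, rfl⟩ := mem_image.1 hk
          exact hmem d hd
        · intro k _ _
          positivity
    _ ≤ 1 / (r : ℝ) * ((S + 1 - s : ℕ) : ℝ) :=
        mul_le_mul_of_nonneg_left (harm _ _ hk0) (by positivity)
    _ = ((S + 1 - s : ℕ) : ℝ) / r := by ring

variable {M : ℕ} [NeZero M]

/-- the reduced fractions with denominator `r` -/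
noncomputable def Er (h : ZMod M → ℂ) (T r : ℕ) : ℝ :=
  ∑ a ∈ (range r).filter (fun a => a.Coprime r), E h T ((a : ℝ) / r)

theorem Er_nonneg (h : ZMod M → ℂ) (T r : ℕ) : 0 ≤ Er h T r :=
  sum_nonneg fun _ _ => E_nonneg _ _ _

/-- **The second moment of the sums over the values of a quadratic polynomial.** -/
theorem V_le (F : ZMod M → ℂ) {a y S : ℕ} (b : ℤ) (ha : 1 ≤ a) (hy : 1 ≤ y)
    (hS : 2 * a * y * y < 2 ^ (S + 1)) :
    ∑ x, ‖∑ m ∈ Icc 1 y, F (x + ((gq a b m : ℤ) : ZMod M))‖ ^ 2 ≤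
      y * ∑ x, ‖F x‖ ^ 2 + 10 * ∑ s ∈ range (S + 1), ((S + 1 - s : ℕ) : ℝ) / 2 ^ s *
        ∑ r ∈ Icc 1 (2 * a * y), 1 / (r : ℝ) * Er F (2 ^ s) r := by
  classical
  have h1 := planch (Icc 1 y) (fun _ => 1) (fun m => gq a b m) F
  simp only [one_mul] at h1
  rw [h1]
  have h2 : ∀ k : ZMod M, mu F k * ‖∑ m ∈ Icc 1 y, ee (gq a b m * fr k)‖ ^ 2 ≤
      y * mu F k + 10 * ∑ d ∈ Ico 1 y, ∑ s ∈ (range (S + 1)).filter (fun s => 2 ^ s ≤ 2 * a * d * y),
        1 / (((2 * a * d : ℕ) : ℝ) * 2 ^ s) *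
          ∑ u ∈ range (2 * a * d), mu F k * ‖lsD (2 ^ s) (fr k - (u : ℝ) / ((2 * a * d : ℕ) : ℝ))‖ ^ 2 := by
    intro k
    have h3 : ‖∑ m ∈ Icc 1 y, ee (gq a b m * fr k)‖ ^ 2 ≤ y + 10 * ∑ d ∈ Ico 1 y,
        ∑ s ∈ (range (S + 1)).filter (fun s => 2 ^ s ≤ 2 * a * d * y),
        1 / (((2 * a * d : ℕ) : ℝ) * 2 ^ s) *
          ∑ u ∈ range (2 * a * d), ‖lsD (2 ^ s) (fr k - (u : ℝ) / ((2 * a * d : ℕ) : ℝ))‖ ^ 2 := by
      refine (weyl_diff a b y (fr k)).trans ?_
      have h4 : ∀ d ∈ Ico 1 y, ‖∑ m ∈ Icc 1 (y - d), ee (m * (((2 * a * d : ℕ) : ℝ) * fr k))‖ ≤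
          5 * ∑ s ∈ (range (S + 1)).filter (fun s => 2 ^ s ≤ 2 * a * d * y),
            1 / (((2 * a * d : ℕ) : ℝ) * 2 ^ s) *
            ∑ u ∈ range (2 * a * d), ‖lsD (2 ^ s) (fr k - (u : ℝ) / ((2 * a * d : ℕ) : ℝ))‖ ^ 2 := by
        intro d hd
        rw [mem_Ico] at hd
        apply kernel (y := y) (S := S)
        · have : 0 < d := hd.1
          have : 0 < 2 * a * d := by positivity
          exact this
        · exact hy
        · omega
        · calc 2 * a * d * y ≤ 2 * a * y * y :=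
              Nat.mul_le_mul_right _ (Nat.mul_le_mul_left _ hd.2.le)
            _ < 2 ^ (S + 1) := hS
      have h5 := sum_le_sum h4
      rw [← mul_sum] at h5
      linarith
    calc mu F k * ‖∑ m ∈ Icc 1 y, ee (gq a b m * fr k)‖ ^ 2 ≤ mu F k * (y + 10 * ∑ d ∈ Ico 1 y,
        ∑ s ∈ (range (S + 1)).filter (fun s => 2 ^ s ≤ 2 * a * d * y),
        1 / (((2 * a * d : ℕ) : ℝ) * 2 ^ s) *
          ∑ u ∈ range (2 * a * d), ‖lsD (2 ^ s) (fr k - (u : ℝ) / ((2 * a * d : ℕ) : ℝ))‖ ^ 2) :=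
          mul_le_mul_of_nonneg_left h3 (mu_nonneg F k)
      _ = _ := by
          rw [mul_add, mul_comm (mu F k) (y : ℝ), mul_left_comm, mul_sum]
          congr 2
          apply sum_congr rfl
          intro d _
          rw [mul_sum]
          apply sum_congr rfl
          intro s _
          rw [mul_left_comm, mul_sum]
  refine (sum_le_sum fun k _ => h2 k).trans ?_
  rw [sum_add_distrib, ← mul_sum, sum_mu, ← mul_sum]
  apply add_le_add_right
  apply mul_le_mul_of_nonneg_left _ (by norm_num)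
  -- exchange of the sums
  have h3 : ∑ k : ZMod M, ∑ d ∈ Ico 1 y, ∑ s ∈ (range (S + 1)).filter (fun s => 2 ^ s ≤ 2 * a * d * y),
        1 / (((2 * a * d : ℕ) : ℝ) * 2 ^ s) *
          ∑ u ∈ range (2 * a * d), mu F k * ‖lsD (2 ^ s) (fr k - (u : ℝ) / ((2 * a * d : ℕ) : ℝ))‖ ^ 2 =
      ∑ d ∈ Ico 1 y, ∑ s ∈ (range (S + 1)).filter (fun s => 2 ^ s ≤ 2 * a * d * y),
        1 / (((2 * a * d : ℕ) : ℝ) * 2 ^ s) * ∑ r ∈ (2 * a * d).divisors, Er F (2 ^ s) r := by
    rw [sum_comm]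
    apply sum_congr rfl
    intro d hd
    rw [sum_comm]
    apply sum_congr rfl
    intro s _
    rw [← mul_sum, sum_comm]
    congr 1
    have h4 : ∀ u ∈ range (2 * a * d), ∑ k : ZMod M,
        mu F k * ‖lsD (2 ^ s) (fr k - (u : ℝ) / ((2 * a * d : ℕ) : ℝ))‖ ^ 2 =
        E F (2 ^ s) ((u : ℝ) / ((2 * a * d : ℕ) : ℝ)) := fun u _ => (E_eq F (2 ^ s) _).symm
    rw [sum_congr rfl h4]
    rw [mem_Ico] at hd
    have hd0 : 0 < d := hd.1
    exact frac_sum (2 * a * d) (by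
      have : 0 < 2 * a * d := by positivity
      exact this) (fun θ => E F (2 ^ s) θ)
  rw [h3]
  have h4 : ∀ d ∈ Ico 1 y, ∑ s ∈ (range (S + 1)).filter (fun s => 2 ^ s ≤ 2 * a * d * y),
        1 / (((2 * a * d : ℕ) : ℝ) * 2 ^ s) * ∑ r ∈ (2 * a * d).divisors, Er F (2 ^ s) r =
      ∑ s ∈ range (S + 1), ∑ r ∈ Icc 1 (2 * a * y),
        if 2 ^ s ≤ 2 * a * d * y ∧ r ∣ 2 * a * d then
          1 / ((2 * a * d : ℕ) : ℝ) * (1 / 2 ^ s * Er F (2 ^ s) r) else 0 := by
    intro d hd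
    rw [mem_Ico] at hd
    have hd0 : 0 < d := hd.1
    rw [sum_filter]
    apply sum_congr rfl
    intro s _
    split_ifs with hc
    · rw [mul_sum]
      have h5 : (2 * a * d).divisors = (Icc 1 (2 * a * y)).filter (fun r => r ∣ 2 * a * d) := by
        ext r
        rw [Nat.mem_divisors, mem_filter, mem_Icc]
        have hpos : 0 < 2 * a * d := by positivity
        constructor
        · rintro ⟨h6, -⟩
          exact ⟨⟨Nat.pos_of_dvd_of_pos h6 hpos, (Nat.le_of_dvd hpos h6).trans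
            (Nat.mul_le_mul_left _ hd.2.le)⟩, h6⟩
        · rintro ⟨-, h6⟩
          exact ⟨h6, hpos.ne'⟩
      rw [h5, sum_filter]
      apply sum_congr rfl
      intro r _
      simp only [hc, true_and]
      split_ifs
      · rw [← one_div_mul_one_div]
        ring
      · rfl
    · symm
      apply sum_eq_zero
      intro r _
      rw [if_neg (fun h => hc h.1)]
  rw [sum_congr rfl h4, sum_comm]
  apply sum_le_sum
  intro s hs
  rw [mem_range] at hs
  rw [sum_comm, mul_sum]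
  apply sum_le_sum
  intro r hr
  rw [mem_Icc] at hr
  rw [← sum_filter, ← sum_mul]
  have h5 := omega_le (s := s) ha hS (by omega) hr.1
  calc (∑ d ∈ (Ico 1 y).filter (fun d => 2 ^ s ≤ 2 * a * d * y ∧ r ∣ 2 * a * d),
        1 / ((2 * a * d : ℕ) : ℝ)) * (1 / 2 ^ s * Er F (2 ^ s) r)
      ≤ ((S + 1 - s : ℕ) : ℝ) / r * (1 / 2 ^ s * Er F (2 ^ s) r) :=
        mul_le_mul_of_nonneg_right h5 (mul_nonneg (by positivity) (Er_nonneg _ _ _))
    _ = ((S + 1 - s : ℕ) : ℝ) / 2 ^ s * (1 / (r : ℝ) * Er F (2 ^ s) r) := by ring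

end Pool.Agent.V8H34.TR
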