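import Mathlib
import Pool.Agent.Helper112.LS
import Pool.Agent.H336R2.V.Raman
import Pool.Agent.H336R2.V.LLKLower

/-!
# Short segments of quadratic polynomials: the large sieve for rough numbers, with the gain of a logarithm
-/

set_option autoImplicit false

namespace Pool.Agent.V8H34.TR

open Finset Pool.Agent.Helper112

/-! ### Ramanujan sums at coprime arguments -/

theorem ex_eq (x : ℝ) : H343.ex x = ee x := by
  unfold H343.ex ee
  congr 1
  push_cast
  ring

theorem raman_cop (k : ℕ) (hk : 1 ≤ k) (c : ℤ) (hc : IsCoprime c (k : ℤ)) :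
    ∑ n ∈ (range k).filter (fun n => n.Coprime k), ee ((n : ℝ) * c / k) =
      ((ArithmeticFunction.moebius k : ℤ) : ℂ) := by
  have h1 := H336V.RamanAux.raman_eq k hk c
  rw [sum_congr rfl fun n _ => ex_eq _] at h1
  rw [h1, sum_eq_single k]
  · have h2 : k / k = 1 := Nat.div_self hk
    rw [h2]
    simp
  · intro d hd hdk
    rw [Nat.mem_divisors] at hd
    have h2 : ¬ ((k / d : ℕ) : ℤ) ∣ c := by
      intro h3
      have h4 : ((k / d : ℕ) : ℤ) ∣ (k : ℤ) := by
        exact_mod_cast Nat.div_dvd_of_dvd hd.1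
      have h5 := hc.isUnit_of_dvd' h3 h4
      have h6 : k / d = 1 := by
        have h8 := Int.isUnit_iff.1 h5
        generalize k / d = q at h8
        omega
      have h7 := Nat.div_mul_cancel hd.1
      rw [h6, one_mul] at h7
      exact hdk h7
    rw [if_neg h2, mul_zero]
  · intro h2
    exact absurd (Nat.mem_divisors_self k (by omega)) h2

/-- the elementary sieve inequality -/
theorem elem {k : ℕ} (hk : Squarefree k) (T : ℕ) (β : ℕ → ℂ) (n0 : ℤ)
    (hβ : ∀ t ∈ Icc 1 T, β t ≠ 0 → IsCoprime (n0 + t) (k : ℤ)) (α : ℝ) :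
    1 / (Nat.totient k : ℝ) * ‖∑ t ∈ Icc 1 T, β t * ee (t * α)‖ ^ 2 ≤
      ∑ b ∈ (range k).filter (fun b => b.Coprime k),
        ‖∑ t ∈ Icc 1 T, β t * ee (t * (α + (b : ℝ) / k))‖ ^ 2 := by
  have hk0 : 1 ≤ k := Nat.one_le_iff_ne_zero.2 hk.ne_zero
  have hkR : (k : ℝ) ≠ 0 := by positivity
  set A := (range k).filter (fun b => b.Coprime k) with hA
  have hcard : (A.card : ℝ) = Nat.totient k := by
    rw [hA, Nat.totient_eq_card_coprime]
    congr 2
    ext b
    simp only [mem_filter, Nat.coprime_comm]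
  have htot : (0 : ℝ) < Nat.totient k := by exact_mod_cast Nat.totient_pos.2 hk0
  have h1 : ∑ b ∈ A, ee ((b : ℝ) * n0 / k) * ∑ t ∈ Icc 1 T, β t * ee (t * (α + (b : ℝ) / k)) =
      ((ArithmeticFunction.moebius k : ℤ) : ℂ) * ∑ t ∈ Icc 1 T, β t * ee (t * α) := by
    simp_rw [mul_sum]
    rw [sum_comm]
    apply sum_congr rfl
    intro t ht
    by_cases h0 : β t = 0
    · rw [h0]
      simp
    · have h2 := raman_cop k hk0 (n0 + t) (hβ t ht h0)
      rw [← h2, sum_mul]
      apply sum_congr rfl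
      intro b _
      have h3 : (b : ℝ) * ((n0 + t : ℤ) : ℝ) / k + t * α = (b : ℝ) * n0 / k + t * (α + (b : ℝ) / k) := by
        push_cast
        field_simp
        ring
      calc ee ((b : ℝ) * n0 / k) * (β t * ee (t * (α + (b : ℝ) / k)))
          = β t * (ee ((b : ℝ) * n0 / k) * ee (t * (α + (b : ℝ) / k))) := by ring
        _ = β t * (ee ((b : ℝ) * ((n0 + t : ℤ) : ℝ) / k) * ee (t * α)) := by
            rw [← ls_ee_add, ← ls_ee_add, h3]
        _ = _ := by ring
  have h2 : ‖∑ t ∈ Icc 1 T, β t * ee (t * α)‖ ≤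
      ∑ b ∈ A, ‖∑ t ∈ Icc 1 T, β t * ee (t * (α + (b : ℝ) / k))‖ := by
    have h3 : ‖((ArithmeticFunction.moebius k : ℤ) : ℂ)‖ = 1 := by
      rw [Complex.norm_intCast]
      have := ArithmeticFunction.abs_moebius_eq_one_of_squarefree hk
      exact_mod_cast this
    calc ‖∑ t ∈ Icc 1 T, β t * ee (t * α)‖
        = ‖((ArithmeticFunction.moebius k : ℤ) : ℂ) * ∑ t ∈ Icc 1 T, β t * ee (t * α)‖ := by
          rw [norm_mul, h3, one_mul]
      _ ≤ ∑ b ∈ A, ‖ee ((b : ℝ) * n0 / k) * ∑ t ∈ Icc 1 T, β t * ee (t * (α + (b : ℝ) / k))‖ := by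
          rw [← h1]
          exact norm_sum_le _ _
      _ = _ := by
          apply sum_congr rfl
          intro b _
          rw [norm_mul, ls_norm_ee, one_mul]
  have h3 : ‖∑ t ∈ Icc 1 T, β t * ee (t * α)‖ ^ 2 ≤
      Nat.totient k * ∑ b ∈ A, ‖∑ t ∈ Icc 1 T, β t * ee (t * (α + (b : ℝ) / k))‖ ^ 2 := by
    rw [← hcard]
    exact (pow_le_pow_left₀ (norm_nonneg _) h2 2).trans sq_sum_le_card_mul_sum_sq
  rw [one_div, inv_mul_le_iff₀ htot]
  exact h3

/-! ### the moduli -/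

/-- squarefree numbers up to `Z` without prime factors up to `R` -/
noncomputable def KK (R Z : ℕ) : Finset ℕ := by
  classical exact (Icc 1 Z).filter (fun k => Squarefree k ∧ ∀ p : ℕ, p.Prime → p ∣ k → R < p)

theorem mem_KK {R Z k : ℕ} : k ∈ KK R Z ↔
    (1 ≤ k ∧ k ≤ Z) ∧ Squarefree k ∧ ∀ p : ℕ, p.Prime → p ∣ k → R < p := by
  classical
  unfold KK
  rw [mem_filter, mem_Icc]

theorem lsSep_of {δ : ℝ} {K D : ℕ} {m : ℤ} (hD : 1 ≤ D) (hDK : D ≤ K) (hδ : δ = (m : ℝ) / D)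
    (hn : ¬ ∃ n : ℤ, δ = n) : lsSep K δ := by
  have hD0 : (0 : ℝ) < D := by exact_mod_cast hD
  have hDz : (0 : ℤ) < D := by exact_mod_cast hD
  have hK0 : (0 : ℝ) < K := lt_of_lt_of_le hD0 (by exact_mod_cast hDK)
  have e2 : Int.fract δ = ((m % (D : ℤ) : ℤ) : ℝ) / D := by
    rw [hδ]
    exact Int.fract_div_intCast_eq_div_intCast_mod
  have h0 : 0 ≤ m % (D : ℤ) := Int.emod_nonneg _ hDz.ne'
  have h1 : m % (D : ℤ) < D := Int.emod_lt_of_pos _ hDz
  have h2 : m % (D : ℤ) ≠ 0 := by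
    intro h3
    obtain ⟨c, hc⟩ := Int.dvd_of_emod_eq_zero h3
    apply hn
    refine ⟨c, ?_⟩
    rw [hδ, hc]
    push_cast
    field_simp
  have hinv : 1 / (K : ℝ) ≤ 1 / (D : ℝ) := one_div_le_one_div_of_le hD0 (by exact_mod_cast hDK)
  unfold lsSep
  rw [e2]
  constructor
  · refine hinv.trans ?_
    apply div_le_div_of_nonneg_right _ hD0.le
    have : 1 ≤ m % (D : ℤ) := by omega
    exact_mod_cast this
  · have h4 : m % (D : ℤ) ≤ D - 1 := by omega
    have h5 : ((m % (D : ℤ) : ℤ) : ℝ) ≤ D - 1 := by exact_mod_cast h4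
    have h6 : ((m % (D : ℤ) : ℤ) : ℝ) / D ≤ (D - 1) / D := div_le_div_of_nonneg_right h5 hD0.le
    have h7 : ((D : ℝ) - 1) / D = 1 - 1 / D := by
      field_simp
    linarith

theorem not_int_of_sep {K : ℕ} {δ : ℝ} (hK : 1 ≤ K) (h : lsSep K δ) : ¬ ∃ n : ℤ, δ = n := by
  rintro ⟨n, rfl⟩
  have h1 := h.1
  rw [Int.fract_intCast] at h1
  have : (0 : ℝ) < 1 / K := by positivity
  linarith

/-- the fractions `a / r + b / k` are well spaced -/
theorem sep_two {R Z r k r' k' a b a' b' : ℕ} (hR : 1 ≤ R) (hZ : 1 ≤ Z) (hr : r ∈ Icc 1 R)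
    (hr' : r' ∈ Icc 1 R) (hk : k ∈ KK R Z) (hk' : k' ∈ KK R Z) (ha : a < r) (ha' : a' < r')
    (hb : b < k) (hb' : b' < k') (hac : a.Coprime r) (hac' : a'.Coprime r') (hbc : b.Coprime k)
    (hbc' : b'.Coprime k') (hne : ¬ (r = r' ∧ a = a' ∧ k = k' ∧ b = b')) :
    lsSep ((R * Z) ^ 2) ((a' : ℝ) / r' + (b' : ℝ) / k' - ((a : ℝ) / r + (b : ℝ) / k)) := by
  rw [mem_Icc] at hr hr'
  rw [mem_KK] at hk hk'
  have hr0 : (r : ℝ) ≠ 0 := by
    have : 0 < r := hr.1
    positivity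
  have hr0' : (r' : ℝ) ≠ 0 := by
    have : 0 < r' := hr'.1
    positivity
  have hk0 : (k : ℝ) ≠ 0 := by
    have : 0 < k := hk.1.1
    positivity
  have hk0' : (k' : ℝ) ≠ 0 := by
    have : 0 < k' := hk'.1.1
    positivity
  have hD1 : 1 ≤ (r * k) * (r' * k') :=
    Nat.mul_pos (Nat.mul_pos hr.1 hk.1.1) (Nat.mul_pos hr'.1 hk'.1.1)
  have hD2 : (r * k) * (r' * k') ≤ (R * Z) ^ 2 := by
    rw [pow_two]
    exact Nat.mul_le_mul (Nat.mul_le_mul hr.2 hk.1.2) (Nat.mul_le_mul hr'.2 hk'.1.2)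
  apply lsSep_of (m := (a' * k' + b' * r') * (r * k) - (a * k + b * r) * (r' * k')) hD1 hD2
  · push_cast
    field_simp
  · rintro ⟨n, hn⟩
    -- the first parts agree
    have h1 : r = r' ∧ a = a' := by
      by_contra h2
      have h3 := ls_sep_of_int R r r' hr.1 hr'.1 hr.2 hr'.2 a a' ha ha' hac hac' h2
      have h4 := not_int_of_sep (Nat.one_le_pow _ _ hR) h3
      apply h4
      have hcop : IsCoprime ((r * r' : ℕ) : ℤ) ((k * k' : ℕ) : ℤ) := by
        rw [Nat.isCoprime_iff_coprime]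
        apply Nat.Coprime.mul_left <;> apply Nat.Coprime.mul_right
        · rw [Nat.coprime_comm]
          apply Nat.Coprime.symm
          rw [Nat.coprime_iff_gcd_eq_one]
          by_contra h5
          obtain ⟨p, hp, hpd⟩ := Nat.exists_prime_and_dvd h5
          have h6 := hk.2.2 p hp (hpd.trans (Nat.gcd_dvd_right _ _))
          have h7 := Nat.le_of_dvd hr.1 (hpd.trans (Nat.gcd_dvd_left _ _))
          omega
        · rw [Nat.coprime_iff_gcd_eq_one]
          by_contra h5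
          obtain ⟨p, hp, hpd⟩ := Nat.exists_prime_and_dvd h5
          have h6 := hk'.2.2 p hp (hpd.trans (Nat.gcd_dvd_right _ _))
          have h7 := Nat.le_of_dvd hr.1 (hpd.trans (Nat.gcd_dvd_left _ _))
          omega
        · rw [Nat.coprime_iff_gcd_eq_one]
          by_contra h5
          obtain ⟨p, hp, hpd⟩ := Nat.exists_prime_and_dvd h5
          have h6 := hk.2.2 p hp (hpd.trans (Nat.gcd_dvd_right _ _))
          have h7 := Nat.le_of_dvd hr'.1 (hpd.trans (Nat.gcd_dvd_left _ _))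
          omega
        · rw [Nat.coprime_iff_gcd_eq_one]
          by_contra h5
          obtain ⟨p, hp, hpd⟩ := Nat.exists_prime_and_dvd h5
          have h6 := hk'.2.2 p hp (hpd.trans (Nat.gcd_dvd_right _ _))
          have h7 := Nat.le_of_dvd hr'.1 (hpd.trans (Nat.gcd_dvd_left _ _))
          omega
      obtain ⟨u, v, huv⟩ := hcop
      -- `x = a'/r' - a/r`
      refine ⟨u * (a' * r - a * r') + v * (n * (k * k') - (b' * k - b * k')), ?_⟩
      have hx : (a' : ℝ) / r' - (a : ℝ) / r = n - ((b' : ℝ) / k' - (b : ℝ) / k) := by linarith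
      have huv' : (u : ℝ) * (r * r') + v * (k * k') = 1 := by exact_mod_cast huv
      have e1 : ((a' : ℝ) / r' - (a : ℝ) / r) * (r * r') = a' * r - a * r' := by
        field_simp
      have e2 : ((a' : ℝ) / r' - (a : ℝ) / r) * (k * k') = n * (k * k') - (b' * k - b * k') := by
        rw [hx]
        field_simp
      push_cast
      rw [← e1, ← e2]
      calc (a' : ℝ) / r' - (a : ℝ) / r = ((a' : ℝ) / r' - (a : ℝ) / r) * 1 := by ring
        _ = ((a' : ℝ) / r' - (a : ℝ) / r) * (u * (r * r') + v * (k * k')) := by rw [huv']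
        _ = _ := by ring
    obtain ⟨h1r, h1a⟩ := h1
    have h2 : ¬ (k = k' ∧ b = b') := fun h => hne ⟨h1r, h1a, h.1, h.2⟩
    have h3 := ls_sep_of_int Z k k' hk.1.1 hk'.1.1 hk.1.2 hk'.1.2 b b' hb hb' hbc hbc' h2
    apply not_int_of_sep (Nat.one_le_pow _ _ hZ) h3
    refine ⟨n, ?_⟩
    rw [h1r, h1a] at hn
    linarith

/-- **the large sieve with gain** -/
theorem gain_seq {R Z : ℕ} (hR : 1 ≤ R) (hZ : 1 ≤ Z) (T : ℕ) (β : ℕ → ℂ) (n0 : ℤ)
    (hβ : ∀ t ∈ Icc 1 T, β t ≠ 0 → ∀ p : ℕ, p.Prime → p ≤ Z → ¬ (p : ℤ) ∣ n0 + t) :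
    (∑ k ∈ KK R Z, 1 / (Nat.totient k : ℝ)) * ∑ r ∈ Icc 1 R,
      ∑ a ∈ (range r).filter (fun a => a.Coprime r), ‖∑ t ∈ Icc 1 T, β t * ee (t * ((a : ℝ) / r))‖ ^ 2 ≤
      6 * (T + ((R * Z) ^ 2 : ℕ)) * ∑ t ∈ Icc 1 T, ‖β t‖ ^ 2 := by
  classical
  set I1 : Finset (Σ _ : ℕ, ℕ) := (Icc 1 R).sigma (fun r => (range r).filter (fun a => a.Coprime r))
    with hI1
  set I2 : Finset (Σ _ : ℕ, ℕ) := (KK R Z).sigma (fun k => (range k).filter (fun b => b.Coprime k))
    with hI2
  have hmain := ls_general (I1 ×ˢ I2) (fun i => (i.1.2 : ℝ) / i.1.1 + (i.2.2 : ℝ) / i.2.1)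
    ((R * Z) ^ 2) T (Nat.one_le_pow _ _ (Nat.mul_pos hR hZ)) (by
      rintro ⟨⟨r, a⟩, ⟨k, b⟩⟩ hi ⟨⟨r', a'⟩, ⟨k', b'⟩⟩ hi' hne
      simp only [hI1, hI2, mem_product, mem_sigma, mem_filter, mem_range] at hi hi'
      refine sep_two hR hZ hi.1.1 hi'.1.1 hi.2.1 hi'.2.1 hi.1.2.1 hi'.1.2.1 hi.2.2.1 hi'.2.2.1
        hi.1.2.2 hi'.1.2.2 hi.2.2.2 hi'.2.2.2 ?_
      rintro ⟨h1, h2, h3, h4⟩
      subst h1 h2 h3 h4
      exact hne rfl) β
  refine le_trans ?_ hmain
  rw [sum_product, hI1, sum_sigma, mul_sum]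
  apply sum_le_sum
  intro r _
  rw [mul_sum]
  apply sum_le_sum
  intro a _
  rw [sum_mul, hI2, sum_sigma]
  apply sum_le_sum
  intro k hk
  rw [mem_KK] at hk
  apply elem hk.2.1 T β n0
  intro t ht hβt
  rw [Int.isCoprime_iff_gcd_eq_one]
  by_contra h5
  obtain ⟨p, hp, hpd⟩ := Nat.exists_prime_and_dvd h5
  have hpz : (p : ℤ) ∣ (Int.gcd (n0 + t) (k : ℤ) : ℤ) := by exact_mod_cast hpd
  have h6 : (p : ℤ) ∣ n0 + t := hpz.trans (Int.gcd_dvd_left ..)
  have h7 : p ∣ k := by exact_mod_cast hpz.trans (Int.gcd_dvd_right ..)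
  have h8 : p ≤ Z := (Nat.le_of_dvd hk.1.1 h7).trans hk.1.2
  exact hβ t ht hβt p hp h8 h6

/-! ### the size of the gain -/

/-- `P / φ(P)` for the product `P` of the primes up to `R` -/
noncomputable def gam (R : ℕ) : ℝ := (primorial R : ℝ) / Nat.totient (primorial R)

theorem gam_pos (R : ℕ) : 0 < gam R := by
  unfold gam
  have h1 := primorial_pos R
  have h2 := Nat.totient_pos.2 h1
  positivity

theorem gain_low {R Z : ℕ} (hZ : 1 ≤ Z) :
    Real.log Z / gam R ≤ ∑ k ∈ KK R Z, 1 / (Nat.totient k : ℝ) := by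
  rw [div_le_iff₀ (gam_pos R)]
  have h1 := H336V.LLKLower.lower (primorial R) Z (primorial_pos R) hZ
  refine h1.trans ?_
  rw [mul_comm]
  apply mul_le_mul_of_nonneg_right _ (gam_pos R).le
  unfold H336V.LLK
  apply sum_le_sum_of_subset_of_nonneg
  · intro k hk
    unfold H336V.ModK H343.Mod at hk
    rw [mem_filter, mem_filter, mem_Ioc] at hk
    rw [mem_KK]
    refine ⟨⟨hk.1.1.1, hk.1.1.2⟩, hk.1.2, fun p hp hpk => ?_⟩
    by_contra h2
    have h3 : p ∣ primorial R := by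
      unfold primorial
      apply dvd_prod_of_mem
      rw [mem_filter, mem_range]
      exact ⟨by omega, hp⟩
    have h4 := Nat.dvd_gcd hpk h3
    rw [hk.2] at h4
    exact hp.one_lt.ne' (Nat.dvd_one.1 h4)
  · intro k _ _
    positivity

theorem primorial_step (n : ℕ) : primorial (n + 1) =
    if (n + 1).Prime then (n + 1) * primorial n else primorial n := by
  unfold primorial
  rw [range_add_one (n := n + 1), filter_insert]
  split_ifs with h
  · rw [prod_insert]
    simp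
  · rfl

theorem gam_step (n : ℕ) : gam (n + 1) =
    if (n + 1).Prime then ((n : ℝ) + 1) / n * gam n else gam n := by
  unfold gam
  rw [primorial_step]
  split_ifs with h
  · have hcop : Nat.Coprime (n + 1) (primorial n) := by
      rw [Nat.Prime.coprime_iff_not_dvd h]
      intro hd
      have h1 : n + 1 ∈ (primorial n).primeFactors := by
        rw [Nat.mem_primeFactors]
        exact ⟨h, hd, (primorial_pos n).ne'⟩
      rw [primeFactors_primorial] at h1
      have := Nat.le_of_mem_primesLE h1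
      omega
    rw [Nat.totient_mul hcop, Nat.totient_prime h]
    have h2 : n + 1 - 1 = n := by omega
    rw [h2]
    push_cast
    rw [mul_div_mul_comm]
  · rfl

theorem gam_sq : ∀ n : ℕ, 1 ≤ n → gam n ^ 2 ≤ 4 * n := by
  have g1 : gam 1 = 1 := by
    unfold gam
    rw [primorial_one]
    simp
  have g2 : gam 2 = 2 := by
    rw [gam_step 1, if_pos (by norm_num), g1]
    norm_num
  have g3 : gam 3 = 3 := by
    rw [gam_step 2, if_pos (by norm_num), g2]
    norm_num
  intro n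
  induction n using Nat.strong_induction_on with
  | _ n ih =>
    intro hn
    rcases Nat.lt_or_ge n 4 with h | h
    · interval_cases n
      · rw [g1]; norm_num
      · rw [g2]; norm_num
      · rw [g3]; norm_num
    · obtain ⟨m, rfl⟩ : ∃ m, n = m + 1 := ⟨n - 1, by omega⟩
      rw [gam_step]
      split_ifs with hp
      · -- `m` is even
        have hodd : Odd (m + 1) := hp.odd_of_ne_two (by omega)
        have hmev : Even m := by
          rcases hodd with ⟨c, hc⟩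
          exact ⟨c, by omega⟩
        have hm4 : 4 ≤ m := by
          rcases hmev with ⟨c, hc⟩
          omega
        obtain ⟨l, rfl⟩ : ∃ l, m = l + 1 := ⟨m - 1, by omega⟩
        have hnp : ¬ (l + 1).Prime := by
          intro h1
          rcases h1.eq_two_or_odd' with h2 | h2
          · omega
          · exact (Nat.not_even_iff_odd.2 h2) hmev
        rw [gam_step l, if_neg hnp]
        have h1 := ih l (by omega) (by omega)
        have hl : (3 : ℝ) ≤ l := by
          have : 3 ≤ l := by omega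
          exact_mod_cast this
        rw [mul_pow]
        push_cast
        have h2 : ((((l : ℝ) + 1) + 1) / ((l : ℝ) + 1)) ^ 2 * gam l ^ 2 ≤
            ((((l : ℝ) + 1) + 1) / ((l : ℝ) + 1)) ^ 2 * (4 * l) :=
          mul_le_mul_of_nonneg_left h1 (by positivity)
        refine h2.trans ?_
        rw [div_pow, div_mul_eq_mul_div, div_le_iff₀ (by positivity)]
        nlinarith
      · have h1 := ih m (by omega) (by omega)
        push_cast
        linarith

theorem gam_pow (i : ℕ) : gam (2 ^ (i + 1)) ≤ 4 * (3 / 2 : ℝ) ^ i := by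
  have h1 := gam_sq (2 ^ (i + 1)) Nat.one_le_two_pow
  have h2 : (4 : ℝ) * ((2 ^ (i + 1) : ℕ) : ℝ) ≤ (4 * (3 / 2 : ℝ) ^ i) ^ 2 := by
    push_cast
    rw [mul_pow, ← pow_mul, mul_comm i 2, pow_mul, pow_succ]
    have h3 : (2 : ℝ) ^ i ≤ ((3 / 2 : ℝ) ^ 2) ^ i := pow_le_pow_left₀ (by norm_num) (by norm_num) i
    have h4 : (0 : ℝ) ≤ (2 : ℝ) ^ i := by positivity
    nlinarith
  exact le_of_sq_le_sq (h1.trans h2) (by positivity)

end Pool.Agent.V8H34.TR
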