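import Mathlib
import Pool.Agent.V8H34.TR.Frac
import Pool.Agent.V8H34.TR.Gain

/-!
# Short segments of quadratic polynomials: the large sieve bounds for the windows
-/

set_option autoImplicit false

namespace Pool.Agent.V8H34.TR

open Finset Pool.Agent.Helper112

variable {M : ℕ} [NeZero M]

/-- the windows of length `T` of `h` are free of prime factors up to `Z` -/
def Rgh (h : ZMod M → ℂ) (Z T : ℕ) : Prop :=
  ∀ x : ZMod M, ∃ n : ℤ, ∀ t ∈ range T, h (x + ((t : ℤ) : ZMod M)) ≠ 0 →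
    ∀ p : ℕ, p.Prime → p ≤ Z → ¬ (p : ℤ) ∣ n + t

theorem Rgh.mono {h : ZMod M → ℂ} {Z T T' : ℕ} (H : Rgh h Z T) (hT : T' ≤ T) : Rgh h Z T' := by
  intro x
  obtain ⟨n, hn⟩ := H x
  exact ⟨n, fun t ht => hn t (mem_range.2 ((mem_range.1 ht).trans_le hT))⟩

/-- the mass -/
noncomputable def Nh (h : ZMod M → ℂ) : ℝ := ∑ x, ‖h x‖ ^ 2

theorem Nh_nonneg (h : ZMod M → ℂ) : 0 ≤ Nh h := by
  unfold Nh
  positivity

/-- the reversed window -/
noncomputable def bt (h : ZMod M → ℂ) (x : ZMod M) (t : ℕ) : ℂ :=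
  (starRingEnd ℂ) (h (x + (((t : ℤ) - 1 : ℤ) : ZMod M)))

theorem conj_ee (x : ℝ) : (starRingEnd ℂ) (ee x) = ee (-x) := by
  unfold ee
  rw [← Complex.exp_conj]
  congr 1
  simp only [map_mul, Complex.conj_ofReal, Complex.conj_I, map_ofNat]
  push_cast
  ring

theorem flip (h : ZMod M → ℂ) (T : ℕ) (θ : ℝ) (x : ZMod M) :
    ‖∑ t ∈ range T, ee (-(t * θ)) * h (x + ((t : ℤ) : ZMod M))‖ =
      ‖∑ t ∈ Icc 1 T, bt h x t * ee (t * θ)‖ := by
  have h1 : ∑ t ∈ Icc 1 T, bt h x t * ee (t * θ) =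
      ee θ * (starRingEnd ℂ) (∑ t ∈ range T, ee (-(t * θ)) * h (x + ((t : ℤ) : ZMod M))) := by
    have h2 : Icc 1 T = Ico 1 (T + 1) := by
      ext t
      rw [mem_Icc, mem_Ico]
      omega
    rw [h2, sum_Ico_eq_sum_range, map_sum, mul_sum, Nat.add_sub_cancel]
    apply sum_congr rfl
    intro t _
    unfold bt
    rw [map_mul, conj_ee, neg_neg]
    have h3 : ((((1 + t : ℕ) : ℤ) - 1 : ℤ) : ZMod M) = ((t : ℤ) : ZMod M) := by
      congr 1
      push_cast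
      ring
    rw [h3]
    have h4 : ee (((1 + t : ℕ) : ℝ) * θ) = ee θ * ee (t * θ) := by
      rw [← ls_ee_add]
      congr 1
      push_cast
      ring
    rw [h4]
    ring
  rw [h1, norm_mul, ls_norm_ee, one_mul, RCLike.norm_conj]

theorem E_flip (h : ZMod M → ℂ) (T : ℕ) (θ : ℝ) :
    E h T θ = ∑ x, ‖∑ t ∈ Icc 1 T, bt h x t * ee (t * θ)‖ ^ 2 := by
  unfold E
  exact sum_congr rfl fun x _ => by rw [flip]

theorem sum_bt (h : ZMod M → ℂ) (T : ℕ) :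
    ∑ x, ∑ t ∈ Icc 1 T, ‖bt h x t‖ ^ 2 = T * Nh h := by
  rw [sum_comm]
  have h1 : ∀ t ∈ Icc 1 T, ∑ x, ‖bt h x t‖ ^ 2 = Nh h := by
    intro t _
    unfold bt Nh
    simp only [RCLike.norm_conj]
    exact Equiv.sum_comp (Equiv.addRight ((((t : ℤ) - 1 : ℤ) : ZMod M))) (fun x => ‖h x‖ ^ 2)
  rw [sum_congr rfl h1, sum_const, Nat.card_Icc, nsmul_eq_mul, Nat.add_sub_cancel]

theorem sum_Er (h : ZMod M → ℂ) (T R : ℕ) :
    ∑ r ∈ Icc 1 R, Er h T r = ∑ x, ∑ r ∈ Icc 1 R,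
      ∑ a ∈ (range r).filter (fun a => a.Coprime r),
        ‖∑ t ∈ Icc 1 T, bt h x t * ee (t * ((a : ℝ) / r))‖ ^ 2 := by
  rw [sum_comm]
  apply sum_congr rfl
  intro r _
  unfold Er
  rw [sum_comm]
  apply sum_congr rfl
  intro a _
  exact E_flip _ _ _

/-- the plain large sieve -/
theorem A1 (h : ZMod M → ℂ) (T R : ℕ) :
    ∑ r ∈ Icc 1 R, Er h T r ≤ 6 * (T + (R : ℝ) ^ 2) * (T * Nh h) := by
  rw [sum_Er, ← sum_bt, mul_sum]
  apply sum_le_sum
  intro x _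
  have h1 := additive_large_sieve T R (bt h x)
  refine le_trans (le_of_eq ?_) h1
  apply sum_congr rfl
  intro r _
  apply sum_congr rfl
  intro a _
  congr 2
  apply sum_congr rfl
  intro t _
  rw [mul_div_assoc]

/-- the large sieve for rough numbers -/
theorem A2 (h : ZMod M → ℂ) {T R Z : ℕ} (hR : 1 ≤ R) (hZ : 2 ≤ Z) (H : Rgh h Z T) :
    ∑ r ∈ Icc 1 R, Er h T r ≤
      6 * (T + ((R : ℝ) * Z) ^ 2) * (gam R / Real.log Z) * (T * Nh h) := by
  have hlog : 0 < Real.log Z := Real.log_pos (by exact_mod_cast hZ)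
  have hg := gam_pos R
  have h1 : Real.log Z / gam R * ∑ r ∈ Icc 1 R, Er h T r ≤
      6 * (T + ((R : ℝ) * Z) ^ 2) * (T * Nh h) := by
    rw [sum_Er, ← sum_bt, mul_sum, mul_sum]
    apply sum_le_sum
    intro x _
    obtain ⟨n, hn⟩ := H x
    have h2 := gain_seq hR (by omega : 1 ≤ Z) T (bt h x) (n - 1) (by
      intro t ht hb p hp hpz
      rw [mem_Icc] at ht
      obtain ⟨u, rfl⟩ : ∃ u, t = u + 1 := ⟨t - 1, by omega⟩
      have h3 := hn u (mem_range.2 (by omega)) (by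
        intro h4
        apply hb
        unfold bt
        have h5 : (((((u + 1 : ℕ) : ℤ)) - 1 : ℤ) : ZMod M) = ((u : ℤ) : ZMod M) := by
          congr 1
          push_cast
          ring
        rw [h5, h4, map_zero]) p hp hpz
      have h6 : n - 1 + ((u + 1 : ℕ) : ℤ) = n + u := by
        push_cast
        ring
      rw [h6]
      exact h3)
    push_cast at h2
    refine le_trans ?_ h2
    apply mul_le_mul_of_nonneg_right (gain_low (by omega))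
    positivity
  have h3 : ∑ r ∈ Icc 1 R, Er h T r =
      gam R / Real.log Z * (Real.log Z / gam R * ∑ r ∈ Icc 1 R, Er h T r) := by
    field_simp
  rw [h3]
  calc gam R / Real.log Z * (Real.log Z / gam R * ∑ r ∈ Icc 1 R, Er h T r)
      ≤ gam R / Real.log Z * (6 * (T + ((R : ℝ) * Z) ^ 2) * (T * Nh h)) :=
        mul_le_mul_of_nonneg_left h1 (by positivity)
    _ = _ := by ring

/-- the local average over a progression is subtracted -/
noncomputable def Hav (h : ZMod M → ℂ) (W J : ℕ) (x : ZMod M) : ℂ :=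
  h x - 1 / (J : ℂ) * ∑ j ∈ Icc 1 J, h (x + (((W * j : ℕ) : ℤ) : ZMod M))

theorem Hav_window (h : ZMod M → ℂ) {W J : ℕ} (T : ℕ) (θ : ℝ) (x : ZMod M) :
    ∑ t ∈ range T, ee (-(t * θ)) * Hav h W J (x + ((t : ℤ) : ZMod M)) =
      ∑ t ∈ range T, ee (-(t * θ)) * h (x + ((t : ℤ) : ZMod M)) -
      1 / (J : ℂ) * ∑ j ∈ Icc 1 J, ∑ t ∈ range T,
        ee (-(t * θ)) * h (x + (((W * j : ℕ) : ℤ) : ZMod M) + ((t : ℤ) : ZMod M)) := by
  unfold Hav
  simp_rw [mul_sub, sum_sub_distrib]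
  congr 1
  rw [sum_comm, mul_sum]
  apply sum_congr rfl
  intro t _
  rw [mul_left_comm, mul_sum]
  congr 1
  apply sum_congr rfl
  intro j _
  congr 2
  ring

theorem avg_sq {J : ℕ} (hJ : 1 ≤ J) (z : ℕ → ℂ) :
    ‖1 / (J : ℂ) * ∑ j ∈ Icc 1 J, z j‖ ^ 2 ≤ 1 / (J : ℝ) * ∑ j ∈ Icc 1 J, ‖z j‖ ^ 2 := by
  have hJ0 : (0 : ℝ) < J := by exact_mod_cast hJ
  have h1 : ‖∑ j ∈ Icc 1 J, z j‖ ^ 2 ≤ J * ∑ j ∈ Icc 1 J, ‖z j‖ ^ 2 := by
    have h2 := pow_le_pow_left₀ (norm_nonneg _) (norm_sum_le (Icc 1 J) z) 2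
    refine h2.trans ?_
    have h3 := sq_sum_le_card_mul_sum_sq (s := Icc 1 J) (f := fun j => ‖z j‖)
    rwa [Nat.card_Icc, Nat.add_sub_cancel] at h3
  rw [norm_mul, mul_pow, norm_div, norm_one, Complex.norm_natCast]
  calc (1 / (J : ℝ)) ^ 2 * ‖∑ j ∈ Icc 1 J, z j‖ ^ 2 ≤
      (1 / (J : ℝ)) ^ 2 * (J * ∑ j ∈ Icc 1 J, ‖z j‖ ^ 2) :=
        mul_le_mul_of_nonneg_left h1 (by positivity)
    _ = _ := by
        field_simp

theorem E4 (h : ZMod M → ℂ) {W J : ℕ} (hJ : 1 ≤ J) (T : ℕ) (θ : ℝ) :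
    E (Hav h W J) T θ ≤ 4 * E h T θ := by
  have hJ0 : (0 : ℝ) < J := by exact_mod_cast hJ
  have h1 : ∀ x : ZMod M, ‖∑ t ∈ range T, ee (-(t * θ)) * Hav h W J (x + ((t : ℤ) : ZMod M))‖ ^ 2 ≤
      2 * ‖∑ t ∈ range T, ee (-(t * θ)) * h (x + ((t : ℤ) : ZMod M))‖ ^ 2 +
      2 * (1 / (J : ℝ) * ∑ j ∈ Icc 1 J, ‖∑ t ∈ range T,
        ee (-(t * θ)) * h (x + (((W * j : ℕ) : ℤ) : ZMod M) + ((t : ℤ) : ZMod M))‖ ^ 2) := by
    intro x
    rw [Hav_window]
    have h2 : ∀ u v : ℂ, ‖u - v‖ ^ 2 ≤ 2 * ‖u‖ ^ 2 + 2 * ‖v‖ ^ 2 := by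
      intro u v
      have h3 := norm_sub_le u v
      have h4 := pow_le_pow_left₀ (norm_nonneg _) h3 2
      nlinarith [sq_nonneg (‖u‖ - ‖v‖)]
    refine (h2 _ _).trans ?_
    have h3 := avg_sq hJ (fun j => ∑ t ∈ range T,
        ee (-(t * θ)) * h (x + (((W * j : ℕ) : ℤ) : ZMod M) + ((t : ℤ) : ZMod M)))
    linarith
  unfold E
  refine (sum_le_sum fun x _ => h1 x).trans ?_
  rw [sum_add_distrib, ← mul_sum, ← mul_sum, ← mul_sum, sum_comm]
  have h2 : ∀ j ∈ Icc 1 J, ∑ x : ZMod M, ‖∑ t ∈ range T,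
        ee (-(t * θ)) * h (x + (((W * j : ℕ) : ℤ) : ZMod M) + ((t : ℤ) : ZMod M))‖ ^ 2 =
      ∑ x : ZMod M, ‖∑ t ∈ range T, ee (-(t * θ)) * h (x + ((t : ℤ) : ZMod M))‖ ^ 2 := fun j _ =>
    Equiv.sum_comp (Equiv.addRight (((W * j : ℕ) : ℤ) : ZMod M))
      (fun x => ‖∑ t ∈ range T, ee (-(t * θ)) * h (x + ((t : ℤ) : ZMod M))‖ ^ 2)
  rw [sum_congr rfl h2, sum_const, Nat.card_Icc, nsmul_eq_mul, Nat.add_sub_cancel]
  generalize ∑ x : ZMod M, ‖∑ t ∈ range T, ee (-(t * θ)) * h (x + ((t : ℤ) : ZMod M))‖ ^ 2 = S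
  apply le_of_eq
  field_simp
  ring

theorem Er4 (h : ZMod M → ℂ) {W J : ℕ} (hJ : 1 ≤ J) (T r : ℕ) :
    Er (Hav h W J) T r ≤ 4 * Er h T r := by
  unfold Er
  rw [mul_sum]
  exact sum_le_sum fun a _ => E4 h hJ T _

theorem Nh4 (h : ZMod M → ℂ) {W J : ℕ} (hJ : 1 ≤ J) : Nh (Hav h W J) ≤ 4 * Nh h := by
  have h1 := E4 h (W := W) hJ 1 0
  unfold E at h1
  simpa [Nh, ls_ee_zero] using h1

/-- the count in a window -/
noncomputable def Cw (h : ZMod M → ℂ) (L : ℕ) (x : ZMod M) : ℝ :=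
  ∑ t ∈ range L, ‖h (x + ((t : ℤ) : ZMod M))‖

theorem Cw_nonneg (h : ZMod M → ℂ) (L : ℕ) (x : ZMod M) : 0 ≤ Cw h L x := by
  unfold Cw
  positivity

theorem Cw_mono (h : ZMod M → ℂ) {L L' : ℕ} (hL : L ≤ L') (x : ZMod M) : Cw h L x ≤ Cw h L' x := by
  unfold Cw
  apply sum_le_sum_of_subset_of_nonneg
  · intro t ht
    rw [mem_range] at ht ⊢
    omega
  · intro t _ _
    positivity

theorem ee_nat (n : ℕ) : ee (n : ℝ) = 1 := by
  unfold ee
  rw [Complex.exp_eq_one_iff]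
  refine ⟨n, ?_⟩
  push_cast
  ring

theorem ee_int (n : ℤ) : ee (n : ℝ) = 1 := by
  unfold ee
  rw [Complex.exp_eq_one_iff]
  refine ⟨n, ?_⟩
  push_cast
  ring

/-- the windows of the local average nearly cancel at the fractions with denominator dividing `W` -/
theorem window_cancel (h : ZMod M → ℂ) {W J r : ℕ} (hJ : 1 ≤ J) (hr : 1 ≤ r) (hrW : r ∣ W) (T a : ℕ)
    (x : ZMod M) :
    ‖∑ t ∈ range T, ee (-(t * ((a : ℝ) / r))) * Hav h W J (x + ((t : ℤ) : ZMod M))‖ ≤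
      Cw h (W * J) x + Cw h (W * J) (x + ((T : ℤ) : ZMod M)) := by
  have hJ0 : (0 : ℝ) < J := by exact_mod_cast hJ
  have hJC : (J : ℂ) ≠ 0 := by
    have : J ≠ 0 := by omega
    exact_mod_cast this
  rw [Hav_window]
  set f : ℕ → ℂ := fun t => ee (-(t * ((a : ℝ) / r))) * h (x + ((t : ℤ) : ZMod M)) with hf
  have hj : ∀ j, ∑ t ∈ range T, ee (-(t * ((a : ℝ) / r))) *
      h (x + (((W * j : ℕ) : ℤ) : ZMod M) + ((t : ℤ) : ZMod M)) = ∑ t ∈ range T, f (W * j + t) := by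
    intro j
    apply sum_congr rfl
    intro t _
    rw [hf]
    simp only
    obtain ⟨e, he⟩ := hrW
    have hr0 : (r : ℝ) ≠ 0 := by positivity
    have h1 : ee (-(((W * j + t : ℕ) : ℝ) * ((a : ℝ) / r))) = ee (-(t * ((a : ℝ) / r))) := by
      have h2 : -(((W * j + t : ℕ) : ℝ) * ((a : ℝ) / r)) =
          ((-(e * j * a : ℕ) : ℤ) : ℝ) + -(t * ((a : ℝ) / r)) := by
        rw [he]
        push_cast
        field_simp
        ring
      rw [h2, ls_ee_add, ee_int, one_mul]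
    rw [h1]
    congr 2
    push_cast
    ring
  simp_rw [hj]
  have h0 : ∑ t ∈ range T, f t = 1 / (J : ℂ) * ∑ j ∈ Icc 1 J, ∑ t ∈ range T, f t := by
    rw [sum_const, Nat.card_Icc, nsmul_eq_mul, Nat.add_sub_cancel]
    field_simp
  have h1 : ∑ t ∈ range T, f t - 1 / (J : ℂ) * ∑ j ∈ Icc 1 J, ∑ t ∈ range T, f (W * j + t) =
      1 / (J : ℂ) * ∑ j ∈ Icc 1 J, (∑ t ∈ range T, f t - ∑ t ∈ range T, f (W * j + t)) := by
    rw [sum_sub_distrib, mul_sub, ← h0]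
  rw [h1]
  have h2 : ∀ j ∈ Icc 1 J, ‖∑ t ∈ range T, f t - ∑ t ∈ range T, f (W * j + t)‖ ≤
      Cw h (W * J) x + Cw h (W * J) (x + ((T : ℤ) : ZMod M)) := by
    intro j hjm
    rw [mem_Icc] at hjm
    have h3 : ∑ t ∈ range T, f t + ∑ t ∈ range (W * j), f (T + t) =
        ∑ t ∈ range (W * j), f t + ∑ t ∈ range T, f (W * j + t) := by
      rw [← sum_range_add, ← sum_range_add, add_comm T]
    have h4 : ∑ t ∈ range T, f t - ∑ t ∈ range T, f (W * j + t) =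
        ∑ t ∈ range (W * j), f t - ∑ t ∈ range (W * j), f (T + t) := by
      linear_combination h3
    rw [h4]
    refine (norm_sub_le _ _).trans ?_
    have hWj : W * j ≤ W * J := Nat.mul_le_mul_left _ hjm.2
    apply add_le_add
    · refine le_trans ?_ (Cw_mono h hWj x)
      unfold Cw
      refine (norm_sum_le _ _).trans (le_of_eq ?_)
      apply sum_congr rfl
      intro t _
      rw [hf]
      simp only
      rw [norm_mul, ls_norm_ee, one_mul]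
    · refine le_trans ?_ (Cw_mono h hWj _)
      unfold Cw
      refine (norm_sum_le _ _).trans (le_of_eq ?_)
      apply sum_congr rfl
      intro t _
      rw [hf]
      simp only
      rw [norm_mul, ls_norm_ee, one_mul]
      congr 2
      push_cast
      ring
  rw [norm_mul, norm_div, norm_one, Complex.norm_natCast]
  calc 1 / (J : ℝ) * ‖∑ j ∈ Icc 1 J, (∑ t ∈ range T, f t - ∑ t ∈ range T, f (W * j + t))‖
      ≤ 1 / (J : ℝ) * ∑ j ∈ Icc 1 J, (Cw h (W * J) x + Cw h (W * J) (x + ((T : ℤ) : ZMod M))) := by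
        apply mul_le_mul_of_nonneg_left _ (by positivity)
        exact (norm_sum_le _ _).trans (sum_le_sum h2)
    _ = _ := by
        rw [sum_const, Nat.card_Icc, nsmul_eq_mul, Nat.add_sub_cancel]
        field_simp

theorem sum_Cw (h : ZMod M → ℂ) {Z L : ℕ} (hZ : 2 ≤ Z) (H : Rgh h Z L) :
    ∑ x, Cw h L x ^ 2 ≤ 6 * (L + (Z : ℝ) ^ 2) * (1 / Real.log Z) * (L * Nh h) := by
  have h1 := A2 (fun x => ((‖h x‖ : ℝ) : ℂ)) (T := L) (R := 1) (Z := Z) le_rfl hZ (by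
    intro x
    obtain ⟨n, hn⟩ := H x
    refine ⟨n, fun t ht h0 => hn t ht ?_⟩
    intro h2
    apply h0
    simp only [h2, norm_zero, Complex.ofReal_zero])
  have g1 : gam 1 = 1 := by
    unfold gam
    rw [primorial_one]
    simp
  have h2 : Nh (fun x => ((‖h x‖ : ℝ) : ℂ)) = Nh h := by
    unfold Nh
    apply sum_congr rfl
    intro x _
    rw [Complex.norm_real, norm_norm]
  rw [h2, g1] at h1
  have h3 : ∑ r ∈ Icc 1 1, Er (fun x : ZMod M => ((‖h x‖ : ℝ) : ℂ)) L r = ∑ x, Cw h L x ^ 2 := by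
    rw [Icc_self, sum_singleton]
    unfold Er
    have h4 : (range 1).filter (fun a => a.Coprime 1) = {0} := by
      ext a
      simp
    rw [h4, sum_singleton]
    unfold E
    apply sum_congr rfl
    intro x _
    unfold Cw
    simp only [Nat.cast_zero, zero_div, mul_zero, neg_zero, ls_ee_zero, one_mul]
    rw [← Complex.ofReal_sum, Complex.norm_real, Real.norm_eq_abs, sq_abs]
  rw [h3] at h1
  simpa using h1

/-- the fractions with denominators dividing `W` -/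
theorem EC (h : ZMod M → ℂ) {W J r Z : ℕ} (hJ : 1 ≤ J) (hr : 1 ≤ r) (hrW : r ∣ W) (hZ : 2 ≤ Z)
    (H : Rgh h Z (W * J)) (T : ℕ) :
    1 / (r : ℝ) * Er (Hav h W J) T r ≤
      24 * (((W * J : ℕ) : ℝ) + (Z : ℝ) ^ 2) * (1 / Real.log Z) * (((W * J : ℕ) : ℝ) * Nh h) := by
  have hr0 : (0 : ℝ) < r := by exact_mod_cast hr
  have h1 := sum_Cw h hZ H
  have h2 : ∀ a : ℕ, E (Hav h W J) T ((a : ℝ) / r) ≤ 4 * ∑ x, Cw h (W * J) x ^ 2 := by
    intro a
    unfold E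
    have h3 : ∀ x : ZMod M, ‖∑ t ∈ range T, ee (-(t * ((a : ℝ) / r))) *
        Hav h W J (x + ((t : ℤ) : ZMod M))‖ ^ 2 ≤
        2 * Cw h (W * J) x ^ 2 + 2 * Cw h (W * J) (x + ((T : ℤ) : ZMod M)) ^ 2 := by
      intro x
      have h4 := pow_le_pow_left₀ (norm_nonneg _) (window_cancel h hJ hr hrW T a x) 2
      nlinarith [sq_nonneg (Cw h (W * J) x - Cw h (W * J) (x + ((T : ℤ) : ZMod M)))]
    refine (sum_le_sum fun x _ => h3 x).trans ?_
    rw [sum_add_distrib, ← mul_sum, ← mul_sum]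
    have h4 : ∑ x : ZMod M, Cw h (W * J) (x + ((T : ℤ) : ZMod M)) ^ 2 = ∑ x, Cw h (W * J) x ^ 2 :=
      Equiv.sum_comp (Equiv.addRight ((T : ℤ) : ZMod M)) (fun x => Cw h (W * J) x ^ 2)
    rw [h4]
    linarith
  have h3 : Er (Hav h W J) T r ≤ r * (4 * ∑ x, Cw h (W * J) x ^ 2) := by
    unfold Er
    refine (sum_le_sum fun a _ => h2 a).trans ?_
    rw [sum_const, nsmul_eq_mul]
    apply mul_le_mul_of_nonneg_right
    · have : ((range r).filter (fun a => a.Coprime r)).card ≤ r := by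
        refine (card_filter_le _ _).trans ?_
        rw [card_range]
      exact_mod_cast this
    · positivity
  calc 1 / (r : ℝ) * Er (Hav h W J) T r ≤ 1 / (r : ℝ) * (r * (4 * ∑ x, Cw h (W * J) x ^ 2)) :=
        mul_le_mul_of_nonneg_left h3 (by positivity)
    _ = 4 * ∑ x, Cw h (W * J) x ^ 2 := by
        field_simp
    _ ≤ _ := by linarith

end Pool.Agent.V8H34.TR
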