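import Mathlib
import Pool.Agent.V8H34.TR.Core

/-!
# Short segments of quadratic polynomials: assembly of the bound for the second moment
-/

set_option autoImplicit false

namespace Pool.Agent.V8H34.TR

open Finset Pool.Agent.Helper112

/-- dyadic decomposition -/
theorem dyad {f : ℕ → ℝ} (hf : ∀ r, 0 ≤ f r) (i1 i2 : ℕ) (U : Finset ℕ)
    (hU : ∀ r ∈ U, 2 ^ i1 ≤ r ∧ r < 2 ^ i2) :
    ∑ r ∈ U, 1 / (r : ℝ) * f r ≤ ∑ i ∈ Ico i1 i2, 1 / 2 ^ i * ∑ r ∈ Icc 1 (2 ^ (i + 1)), f r := by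
  classical
  have hmap : ∀ r ∈ U, Nat.log 2 r ∈ Ico i1 i2 := by
    intro r hr
    obtain ⟨h1, h2⟩ := hU r hr
    have hr0 : r ≠ 0 := by
      have := Nat.one_le_two_pow (n := i1)
      omega
    rw [mem_Ico]
    exact ⟨Nat.le_log_of_pow_le (by norm_num) h1, Nat.log_lt_of_lt_pow hr0 h2⟩
  rw [← sum_fiberwise_of_maps_to hmap]
  apply sum_le_sum
  intro i _
  rw [mul_sum]
  have h1 : ∀ r ∈ U.filter (fun r => Nat.log 2 r = i), 1 / (r : ℝ) * f r ≤ 1 / 2 ^ i * f r := by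
    intro r hr
    rw [mem_filter] at hr
    have hr0 : r ≠ 0 := by
      have := (hU r hr.1).1
      have := Nat.one_le_two_pow (n := i1)
      omega
    have h2 : 2 ^ i ≤ r := by
      rw [← hr.2]
      exact Nat.pow_log_le_self 2 hr0
    apply mul_le_mul_of_nonneg_right _ (hf r)
    apply one_div_le_one_div_of_le (by positivity)
    exact_mod_cast h2
  refine (sum_le_sum h1).trans ?_
  apply sum_le_sum_of_subset_of_nonneg
  · intro r hr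
    rw [mem_filter] at hr
    have hr0 : r ≠ 0 := by
      have := (hU r hr.1).1
      have := Nat.one_le_two_pow (n := i1)
      omega
    rw [mem_Icc]
    refine ⟨by omega, ?_⟩
    have h2 := Nat.lt_pow_succ_log_self (b := 2) (by norm_num) r
    rw [hr.2] at h2
    exact h2.le
  · intro r _ _
    exact mul_nonneg (by positivity) (hf r)

theorem geo34 (i1 i2 : ℕ) : ∑ i ∈ Ico i1 i2, (3 / 4 : ℝ) ^ i ≤ 4 * (3 / 4 : ℝ) ^ i1 := by
  rcases Nat.lt_or_ge i2 i1 with h | h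
  · rw [Ico_eq_empty_of_le h.le, sum_empty]
    positivity
  · obtain ⟨k, rfl⟩ := Nat.exists_eq_add_of_le h
    clear h
    have h1 : ∑ i ∈ Ico i1 (i1 + k), (3 / 4 : ℝ) ^ i = 4 * (3 / 4 : ℝ) ^ i1 - 4 * (3 / 4 : ℝ) ^ (i1 + k) := by
      induction k with
      | zero => simp
      | succ k ih =>
        rw [← add_assoc, sum_Ico_succ_top (by omega), ih, pow_succ _ (i1 + k)]
        ring
    rw [h1]
    have : (0 : ℝ) < 4 * (3 / 4 : ℝ) ^ (i1 + k) := by positivity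
    linarith

theorem geo12 (i1 i2 : ℕ) : ∑ i ∈ Ico i1 i2, 1 / (2 : ℝ) ^ i ≤ 2 / 2 ^ i1 := by
  rcases Nat.lt_or_ge i2 i1 with h | h
  · rw [Ico_eq_empty_of_le h.le, sum_empty]
    positivity
  · obtain ⟨k, rfl⟩ := Nat.exists_eq_add_of_le h
    clear h
    have h1 : ∑ i ∈ Ico i1 (i1 + k), 1 / (2 : ℝ) ^ i = 2 / 2 ^ i1 - 2 / 2 ^ (i1 + k) := by
      induction k with
      | zero => simp
      | succ k ih =>
        rw [← add_assoc, sum_Ico_succ_top (by omega), ih, pow_succ _ (i1 + k)]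
        field_simp
        ring
    rw [h1]
    have : (0 : ℝ) < 2 / 2 ^ (i1 + k) := by positivity
    linarith

theorem geo2 (i1 i2 : ℕ) : ∑ i ∈ Ico i1 i2, (2 : ℝ) ^ i ≤ 2 ^ i2 := by
  have h1 : ∑ i ∈ range i2, (2 : ℝ) ^ i = 2 ^ i2 - 1 := by
    induction i2 with
    | zero => simp
    | succ k ih =>
      rw [sum_range_succ, ih, pow_succ]
      ring
  have h2 : ∑ i ∈ Ico i1 i2, (2 : ℝ) ^ i ≤ ∑ i ∈ range i2, (2 : ℝ) ^ i := by
    apply sum_le_sum_of_subset_of_nonneg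
    · intro i hi
      rw [mem_Ico] at hi
      rw [mem_range]
      exact hi.2
    · intro i _ _
      positivity
  linarith

theorem wsum (S : ℕ) : ∀ s : ℕ, s ≤ S →
    ∑ i ∈ range (s + 1), ((S + 1 - i : ℕ) : ℝ) * 2 ^ i ≤ 2 ^ (s + 1) * ((S : ℝ) - s + 2) := by
  intro s
  induction s with
  | zero =>
    intro _
    simp
    nlinarith
  | succ s ih =>
    intro hs
    have h1 := ih (by omega)
    rw [sum_range_succ]
    have h2 : ((S + 1 - (s + 1) : ℕ) : ℝ) = (S : ℝ) - s := by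
      rw [Nat.add_sub_add_right, Nat.cast_sub (by omega)]
    rw [h2]
    have e : (2 : ℝ) ^ (s + 1 + 1) * ((S : ℝ) - ((s + 1 : ℕ) : ℝ) + 2) =
        2 ^ (s + 1) * ((S : ℝ) - s + 2) + ((S : ℝ) - s) * 2 ^ (s + 1) := by
      push_cast
      rw [pow_succ _ (s + 1)]
      ring
    rw [e]
    linarith

theorem wsum' (S : ℕ) : ∑ i ∈ range (S + 1), ((S + 1 - i : ℕ) : ℝ) * 2 ^ i ≤ 4 * 2 ^ S := by
  have h := wsum S S le_rfl
  rw [pow_succ] at h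
  linarith

theorem wsum0 (S : ℕ) : ∑ i ∈ range (S + 1), ((S + 1 - i : ℕ) : ℝ) ≤ ((S : ℝ) + 1) ^ 2 := by
  have h1 : ∀ i ∈ range (S + 1), ((S + 1 - i : ℕ) : ℝ) ≤ (S : ℝ) + 1 := by
    intro i _
    have : S + 1 - i ≤ S + 1 := Nat.sub_le _ _
    exact_mod_cast this
  refine (sum_le_sum h1).trans ?_
  rw [sum_const, card_range, nsmul_eq_mul]
  push_cast
  apply le_of_eq
  ring

variable {M : ℕ} [NeZero M]

/-- blocks of denominators up to `2 ^ ρ`, with the gain of a logarithm -/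
theorem blockA2 (h : ZMod M → ℂ) {W J T Z ρ i1 i2 : ℕ} (hJ : 1 ≤ J) (hZ : 2 ≤ Z)
    (H : Rgh h Z T) (h2 : i2 ≤ ρ) :
    ∑ i ∈ Ico i1 i2, 1 / (2 : ℝ) ^ i * ∑ r ∈ Icc 1 (2 ^ (i + 1)), Er (Hav h W J) T r ≤
      384 * (3 / 4 : ℝ) ^ i1 * (T + ((2 : ℝ) ^ ρ * Z) ^ 2) * (T * (Nh h / Real.log Z)) := by
  have hlog : 0 < Real.log Z := Real.log_pos (by exact_mod_cast hZ)
  have hN := Nh_nonneg h
  have h3 : ∀ i ∈ Ico i1 i2, 1 / (2 : ℝ) ^ i * ∑ r ∈ Icc 1 (2 ^ (i + 1)), Er (Hav h W J) T r ≤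
      (96 * (T + ((2 : ℝ) ^ ρ * Z) ^ 2) * (T * (Nh h / Real.log Z))) * (3 / 4 : ℝ) ^ i := by
    intro i hi
    rw [mem_Ico] at hi
    have h4 : ∑ r ∈ Icc 1 (2 ^ (i + 1)), Er (Hav h W J) T r ≤
        4 * ∑ r ∈ Icc 1 (2 ^ (i + 1)), Er h T r := by
      rw [mul_sum]
      exact sum_le_sum fun r _ => Er4 h hJ T r
    have h5 := A2 h (R := 2 ^ (i + 1)) Nat.one_le_two_pow hZ H
    have h6 := gam_pow i
    have h7 : ((2 ^ (i + 1) : ℕ) : ℝ) ≤ 2 ^ ρ := by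
      push_cast
      exact pow_le_pow_right₀ (by norm_num) (by omega)
    have h8 : 6 * (T + (((2 ^ (i + 1) : ℕ) : ℝ) * Z) ^ 2) * (gam (2 ^ (i + 1)) / Real.log Z) *
        (T * Nh h) ≤ 6 * (T + ((2 : ℝ) ^ ρ * Z) ^ 2) * ((4 * (3 / 2 : ℝ) ^ i) / Real.log Z) *
        (T * Nh h) := by
      have hg := (gam_pos (2 ^ (i + 1))).le
      gcongr
    calc 1 / (2 : ℝ) ^ i * ∑ r ∈ Icc 1 (2 ^ (i + 1)), Er (Hav h W J) T r
        ≤ 1 / (2 : ℝ) ^ i * (4 * (6 * (T + ((2 : ℝ) ^ ρ * Z) ^ 2) *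
          ((4 * (3 / 2 : ℝ) ^ i) / Real.log Z) * (T * Nh h))) := by
          apply mul_le_mul_of_nonneg_left _ (by positivity)
          linarith
      _ = _ := by
          have h9 : (3 / 4 : ℝ) ^ i = (3 / 2 : ℝ) ^ i / 2 ^ i := by
            rw [← div_pow]
            norm_num
          rw [h9]
          field_simp
          ring
  refine (sum_le_sum h3).trans ?_
  rw [← mul_sum]
  have h4 := geo34 i1 i2
  calc (96 * (T + ((2 : ℝ) ^ ρ * Z) ^ 2) * (T * (Nh h / Real.log Z))) * ∑ i ∈ Ico i1 i2, (3 / 4 : ℝ) ^ i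
      ≤ (96 * (T + ((2 : ℝ) ^ ρ * Z) ^ 2) * (T * (Nh h / Real.log Z))) * (4 * (3 / 4 : ℝ) ^ i1) :=
        mul_le_mul_of_nonneg_left h4 (by positivity)
    _ = _ := by ring

/-- blocks of large denominators -/
theorem blockA1 (h : ZMod M → ℂ) {W J T ρ i2 : ℕ} (hJ : 1 ≤ J) :
    ∑ i ∈ Ico ρ i2, 1 / (2 : ℝ) ^ i * ∑ r ∈ Icc 1 (2 ^ (i + 1)), Er (Hav h W J) T r ≤
      48 * ((T : ℝ) ^ 2 * Nh h) / 2 ^ ρ + 96 * 2 ^ i2 * (T * Nh h) := by
  have hN := Nh_nonneg h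
  have h3 : ∀ i ∈ Ico ρ i2, 1 / (2 : ℝ) ^ i * ∑ r ∈ Icc 1 (2 ^ (i + 1)), Er (Hav h W J) T r ≤
      (24 * ((T : ℝ) ^ 2 * Nh h)) * (1 / (2 : ℝ) ^ i) + (96 * (T * Nh h)) * 2 ^ i := by
    intro i hi
    have h4 : ∑ r ∈ Icc 1 (2 ^ (i + 1)), Er (Hav h W J) T r ≤
        4 * ∑ r ∈ Icc 1 (2 ^ (i + 1)), Er h T r := by
      rw [mul_sum]
      exact sum_le_sum fun r _ => Er4 h hJ T r
    have h5 := A1 h T (2 ^ (i + 1))
    calc 1 / (2 : ℝ) ^ i * ∑ r ∈ Icc 1 (2 ^ (i + 1)), Er (Hav h W J) T r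
        ≤ 1 / (2 : ℝ) ^ i * (4 * (6 * (T + (((2 ^ (i + 1) : ℕ) : ℝ)) ^ 2) * (T * Nh h))) := by
          apply mul_le_mul_of_nonneg_left _ (by positivity)
          linarith
      _ = _ := by
          push_cast
          rw [pow_succ]
          field_simp
          ring
  refine (sum_le_sum h3).trans ?_
  rw [sum_add_distrib, ← mul_sum, ← mul_sum]
  have h4 := geo12 ρ i2
  have h5 := geo2 ρ i2
  have h6 : (24 * ((T : ℝ) ^ 2 * Nh h)) * ∑ i ∈ Ico ρ i2, 1 / (2 : ℝ) ^ i ≤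
      (24 * ((T : ℝ) ^ 2 * Nh h)) * (2 / 2 ^ ρ) := mul_le_mul_of_nonneg_left h4 (by positivity)
  have h7 : (96 * (T * Nh h)) * ∑ i ∈ Ico ρ i2, (2 : ℝ) ^ i ≤ (96 * (T * Nh h)) * 2 ^ i2 :=
    mul_le_mul_of_nonneg_left h5 (by positivity)
  have h8 : (24 * ((T : ℝ) ^ 2 * Nh h)) * (2 / 2 ^ ρ) = 48 * ((T : ℝ) ^ 2 * Nh h) / 2 ^ ρ := by ring
  linarith

/-- the sum over all denominators -/
theorem G_tail (h : ZMod M → ℂ) {W J T Z ρ i0 Q : ℕ} (hJ : 1 ≤ J) (hZ : 2 ≤ Z) (hQ : 1 ≤ Q)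
    (H : Rgh h Z T) (h2 : i0 ≤ ρ) :
    ∑ r ∈ (Icc 1 Q).filter (fun r => ¬ r < 2 ^ i0), 1 / (r : ℝ) * Er (Hav h W J) T r ≤
      384 * (3 / 4 : ℝ) ^ i0 * (T + ((2 : ℝ) ^ ρ * Z) ^ 2) * (T * (Nh h / Real.log Z)) +
      (48 * ((T : ℝ) ^ 2 * Nh h) / 2 ^ ρ + 192 * Q * (T * Nh h)) := by
  have hN := Nh_nonneg h
  set i2 := max ρ (Nat.log 2 Q + 1) with hi2
  have hL : Q < 2 ^ i2 := by
    have h3 := Nat.lt_pow_succ_log_self (b := 2) (by norm_num) Q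
    exact h3.trans_le (Nat.pow_le_pow_right (by norm_num) (le_max_right _ _))
  have h3 := dyad (f := fun r => Er (Hav h W J) T r) (fun r => Er_nonneg _ _ _) i0 i2
    ((Icc 1 Q).filter (fun r => ¬ r < 2 ^ i0)) (by
      intro r hr
      rw [mem_filter, mem_Icc] at hr
      exact ⟨by omega, hr.1.2.trans_lt hL⟩)
  refine h3.trans ?_
  rw [← sum_Ico_consecutive _ h2 (le_max_left ρ (Nat.log 2 Q + 1))]
  have h4 := blockA2 h (W := W) (i1 := i0) hJ hZ H (le_refl ρ)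
  rcases le_total (Nat.log 2 Q + 1) ρ with hc | hc
  · rw [max_eq_left hc, Ico_self, sum_empty, add_zero]
    refine h4.trans ?_
    have : 0 ≤ 48 * ((T : ℝ) ^ 2 * Nh h) / 2 ^ ρ + 192 * Q * (T * Nh h) := by positivity
    linarith
  · rw [max_eq_right hc]
    have h5 := blockA1 h (W := W) (T := T) (ρ := ρ) (i2 := Nat.log 2 Q + 1) hJ
    have h6 : (2 : ℝ) ^ (Nat.log 2 Q + 1) ≤ 2 * Q := by
      rw [pow_succ, mul_comm]
      have h7 := Nat.pow_log_le_self 2 (by omega : Q ≠ 0)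
      have h8 : ((2 ^ Nat.log 2 Q : ℕ) : ℝ) ≤ Q := by exact_mod_cast h7
      push_cast at h8
      linarith
    have h7 : 96 * (2 : ℝ) ^ (Nat.log 2 Q + 1) * (T * Nh h) ≤ 192 * Q * (T * Nh h) := by
      have h8 : 0 ≤ (T : ℝ) * Nh h := by positivity
      have h9 := mul_le_mul_of_nonneg_right h6 h8
      linarith
    linarith

theorem G_low (h : ZMod M → ℂ) {W J T Z ρ i0 Q : ℕ} (hJ : 1 ≤ J) (hZ : 2 ≤ Z)
    (H : Rgh h Z T) (h2 : i0 ≤ ρ) :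
    ∑ r ∈ (Icc 1 Q).filter (fun r => r < 2 ^ i0), 1 / (r : ℝ) * Er (Hav h W J) T r ≤
      384 * (T + ((2 : ℝ) ^ ρ * Z) ^ 2) * (T * (Nh h / Real.log Z)) := by
  have h3 := dyad (f := fun r => Er (Hav h W J) T r) (fun r => Er_nonneg _ _ _) 0 i0
    ((Icc 1 Q).filter (fun r => r < 2 ^ i0)) (by
      intro r hr
      rw [mem_filter, mem_Icc] at hr
      exact ⟨by rw [pow_zero]; exact hr.1.1, hr.2⟩)
  refine h3.trans ?_
  have h4 := blockA2 h (W := W) (i1 := 0) hJ hZ H h2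
  rw [pow_zero, mul_one] at h4
  exact h4

theorem G_cancel (h : ZMod M → ℂ) {W J Z i0 Q : ℕ} (hJ : 1 ≤ J) (hZ : 2 ≤ Z)
    (hW : ∀ r, 1 ≤ r → r < 2 ^ i0 → r ∣ W) (H : Rgh h Z (W * J)) (T : ℕ) :
    ∑ r ∈ (Icc 1 Q).filter (fun r => r < 2 ^ i0), 1 / (r : ℝ) * Er (Hav h W J) T r ≤
      2 ^ i0 * (24 * (((W * J : ℕ) : ℝ) + (Z : ℝ) ^ 2) * (((W * J : ℕ) : ℝ) * (Nh h / Real.log Z))) := by
  have hlog : 0 < Real.log Z := Real.log_pos (by exact_mod_cast hZ)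
  have hN := Nh_nonneg h
  have h1 : ∀ r ∈ (Icc 1 Q).filter (fun r => r < 2 ^ i0), 1 / (r : ℝ) * Er (Hav h W J) T r ≤
      24 * (((W * J : ℕ) : ℝ) + (Z : ℝ) ^ 2) * (((W * J : ℕ) : ℝ) * (Nh h / Real.log Z)) := by
    intro r hr
    rw [mem_filter, mem_Icc] at hr
    refine (EC h hJ hr.1.1 (hW r hr.1.1 hr.2) hZ H T).trans (le_of_eq ?_)
    ring
  refine (sum_le_sum h1).trans ?_
  rw [sum_const, nsmul_eq_mul]
  apply mul_le_mul_of_nonneg_right _ (by positivity)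
  have h2 : ((Icc 1 Q).filter (fun r => r < 2 ^ i0)).card ≤ 2 ^ i0 := by
    refine (card_le_card (t := range (2 ^ i0)) ?_).trans (by rw [card_range])
    intro r hr
    rw [mem_filter] at hr
    exact mem_range.2 hr.2
  exact_mod_cast h2

/-- **the bound for the second moment** -/
theorem V_bound (h : ZMod M → ℂ) {a y S W J Z i0 l1 ρ : ℕ} (b : ℤ) (ha : 1 ≤ a) (hy : 1 ≤ y)
    (hS : 2 * a * y * y < 2 ^ (S + 1)) (hJ : 1 ≤ J) (hZ : 2 ≤ Z) (h0 : i0 ≤ ρ) (hl : l1 ≤ S)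
    (hW : ∀ r, 1 ≤ r → r < 2 ^ i0 → r ∣ W) (H : Rgh h Z (2 ^ S)) (H' : Rgh h Z (W * J)) :
    ∑ x, ‖∑ m ∈ Icc 1 y, Hav h W J (x + ((gq a b m : ℤ) : ZMod M))‖ ^ 2 ≤
      4 * y * Nh h + 10 * (
        (384 * (3 / 4 : ℝ) ^ i0 * (4 * 2 ^ S + ((S : ℝ) + 1) ^ 2 * ((2 : ℝ) ^ ρ * Z) ^ 2) *
          (Nh h / Real.log Z) + 192 * 2 ^ S * Nh h / 2 ^ ρ +
          192 * ((2 * a * y : ℕ) : ℝ) * ((S : ℝ) + 1) ^ 2 * Nh h) +
        384 * (2 ^ (S - l1 + 1) * ((l1 : ℝ) + 2) + ((S : ℝ) + 1) ^ 2 * ((2 : ℝ) ^ ρ * Z) ^ 2) *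
          (Nh h / Real.log Z) +
        2 ^ i0 * (24 * (((W * J : ℕ) : ℝ) + (Z : ℝ) ^ 2) * (((W * J : ℕ) : ℝ) *
          (Nh h / Real.log Z))) * ((l1 : ℝ) / 2 ^ (S - l1))) := by
  classical
  have hlog : 0 < Real.log Z := Real.log_pos (by exact_mod_cast hZ)
  have hN := Nh_nonneg h
  have hQ : 1 ≤ 2 * a * y := by
    have : 0 < 2 * a * y := by positivity
    exact this
  set Q := 2 * a * y with hQd
  set D : ℝ := ((2 : ℝ) ^ ρ * Z) ^ 2 with hD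
  have hD0 : 0 ≤ D := by positivity
  set B := Nh h / Real.log Z with hB
  have hB0 : 0 ≤ B := by positivity
  set N := Nh h with hNd
  set C := 2 ^ i0 * (24 * (((W * J : ℕ) : ℝ) + (Z : ℝ) ^ 2) * (((W * J : ℕ) : ℝ) * B)) with hC
  have hC0 : 0 ≤ C := by positivity
  have h1 := V_le (Hav h W J) b ha hy hS
  have h2 : ∑ x, ‖Hav h W J x‖ ^ 2 ≤ 4 * N := Nh4 h hJ
  have hy0 : (0 : ℝ) ≤ y := by positivity
  have h3 := mul_le_mul_of_nonneg_left h2 hy0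
  refine h1.trans ?_
  have h4 : ∑ s ∈ range (S + 1), ((S + 1 - s : ℕ) : ℝ) / 2 ^ s *
        ∑ r ∈ Icc 1 Q, 1 / (r : ℝ) * Er (Hav h W J) (2 ^ s) r ≤
      (384 * (3 / 4 : ℝ) ^ i0 * (4 * 2 ^ S + ((S : ℝ) + 1) ^ 2 * D) * B + 192 * 2 ^ S * N / 2 ^ ρ +
          192 * (Q : ℝ) * ((S : ℝ) + 1) ^ 2 * N) +
        384 * (2 ^ (S - l1 + 1) * ((l1 : ℝ) + 2) + ((S : ℝ) + 1) ^ 2 * D) * B +
        C * ((l1 : ℝ) / 2 ^ (S - l1)) := by
    have e1 : ∀ s ∈ range (S + 1), ((S + 1 - s : ℕ) : ℝ) / 2 ^ s *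
        ∑ r ∈ Icc 1 Q, 1 / (r : ℝ) * Er (Hav h W J) (2 ^ s) r =
        ((S + 1 - s : ℕ) : ℝ) / 2 ^ s * (∑ r ∈ (Icc 1 Q).filter (fun r => ¬ r < 2 ^ i0),
          1 / (r : ℝ) * Er (Hav h W J) (2 ^ s) r) +
        ((S + 1 - s : ℕ) : ℝ) / 2 ^ s * (∑ r ∈ (Icc 1 Q).filter (fun r => r < 2 ^ i0),
          1 / (r : ℝ) * Er (Hav h W J) (2 ^ s) r) := by
      intro s _
      rw [← mul_add, ← sum_filter_add_sum_filter_not (Icc 1 Q) (fun r => r < 2 ^ i0)]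
      congr 1
      exact add_comm _ _
    rw [sum_congr rfl e1, sum_add_distrib]
    -- the tail
    have t1 : ∑ s ∈ range (S + 1), ((S + 1 - s : ℕ) : ℝ) / 2 ^ s *
        (∑ r ∈ (Icc 1 Q).filter (fun r => ¬ r < 2 ^ i0),
          1 / (r : ℝ) * Er (Hav h W J) (2 ^ s) r) ≤
        384 * (3 / 4 : ℝ) ^ i0 * (4 * 2 ^ S + ((S : ℝ) + 1) ^ 2 * D) * B +
          192 * 2 ^ S * N / 2 ^ ρ + 192 * (Q : ℝ) * ((S : ℝ) + 1) ^ 2 * N := by
      have t2 : ∀ s ∈ range (S + 1), ((S + 1 - s : ℕ) : ℝ) / 2 ^ s *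
          (∑ r ∈ (Icc 1 Q).filter (fun r => ¬ r < 2 ^ i0),
            1 / (r : ℝ) * Er (Hav h W J) (2 ^ s) r) ≤
          (384 * (3 / 4 : ℝ) ^ i0 * B + 48 * N / 2 ^ ρ) * (((S + 1 - s : ℕ) : ℝ) * 2 ^ s) +
          (384 * (3 / 4 : ℝ) ^ i0 * D * B + 192 * (Q : ℝ) * N) * ((S + 1 - s : ℕ) : ℝ) := by
        intro s hs
        rw [mem_range] at hs
        have t3 := G_tail h (W := W) (T := 2 ^ s) hJ hZ hQ
          (H.mono (Nat.pow_le_pow_right (by norm_num) (by omega))) h0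
        refine (mul_le_mul_of_nonneg_left t3 (by positivity)).trans (le_of_eq ?_)
        rw [← hD, ← hB, ← hNd]
        push_cast
        field_simp
        ring
      refine (sum_le_sum t2).trans ?_
      rw [sum_add_distrib, ← mul_sum, ← mul_sum]
      have t4 := mul_le_mul_of_nonneg_left (wsum' S)
        (by positivity : 0 ≤ 384 * (3 / 4 : ℝ) ^ i0 * B + 48 * N / 2 ^ ρ)
      have t5 := mul_le_mul_of_nonneg_left (wsum0 S)
        (by positivity : 0 ≤ 384 * (3 / 4 : ℝ) ^ i0 * D * B + 192 * (Q : ℝ) * N)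
      refine (add_le_add t4 t5).trans (le_of_eq ?_)
      ring
    -- small denominators
    have t6 : ∑ s ∈ range (S + 1), ((S + 1 - s : ℕ) : ℝ) / 2 ^ s *
        (∑ r ∈ (Icc 1 Q).filter (fun r => r < 2 ^ i0),
          1 / (r : ℝ) * Er (Hav h W J) (2 ^ s) r) ≤
        384 * (2 ^ (S - l1 + 1) * ((l1 : ℝ) + 2) + ((S : ℝ) + 1) ^ 2 * D) * B +
          C * ((l1 : ℝ) / 2 ^ (S - l1)) := by
      have hle : S - l1 + 1 ≤ S + 1 := by omega
      rw [← sum_range_add_sum_Ico _ hle]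
      have t7 : ∑ s ∈ range (S - l1 + 1), ((S + 1 - s : ℕ) : ℝ) / 2 ^ s *
          (∑ r ∈ (Icc 1 Q).filter (fun r => r < 2 ^ i0),
            1 / (r : ℝ) * Er (Hav h W J) (2 ^ s) r) ≤
          384 * (2 ^ (S - l1 + 1) * ((l1 : ℝ) + 2) + ((S : ℝ) + 1) ^ 2 * D) * B := by
        have t8 : ∀ s ∈ range (S - l1 + 1), ((S + 1 - s : ℕ) : ℝ) / 2 ^ s *
            (∑ r ∈ (Icc 1 Q).filter (fun r => r < 2 ^ i0),
              1 / (r : ℝ) * Er (Hav h W J) (2 ^ s) r) ≤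
            (384 * B) * (((S + 1 - s : ℕ) : ℝ) * 2 ^ s) + (384 * D * B) * ((S + 1 - s : ℕ) : ℝ) := by
          intro s hs
          rw [mem_range] at hs
          have t3 := G_low h (W := W) (T := 2 ^ s) (Q := Q) hJ hZ
            (H.mono (Nat.pow_le_pow_right (by norm_num) (by omega))) h0
          refine (mul_le_mul_of_nonneg_left t3 (by positivity)).trans (le_of_eq ?_)
          rw [← hD, ← hB]
          push_cast
          field_simp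
        refine (sum_le_sum t8).trans ?_
        rw [sum_add_distrib, ← mul_sum, ← mul_sum]
        have t4 := mul_le_mul_of_nonneg_left (wsum S (S - l1) (by omega))
          (by positivity : 0 ≤ 384 * B)
        have t5 : (384 * D * B) * ∑ s ∈ range (S - l1 + 1), ((S + 1 - s : ℕ) : ℝ) ≤
            (384 * D * B) * ((S : ℝ) + 1) ^ 2 := by
          apply mul_le_mul_of_nonneg_left _ (by positivity)
          refine le_trans ?_ (wsum0 S)
          apply sum_le_sum_of_subset_of_nonneg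
          · intro i hi
            rw [mem_range] at hi ⊢
            omega
          · intro i _ _
            positivity
        refine (add_le_add t4 t5).trans (le_of_eq ?_)
        rw [Nat.cast_sub hl]
        ring
      have t9 : ∑ s ∈ Ico (S - l1 + 1) (S + 1), ((S + 1 - s : ℕ) : ℝ) / 2 ^ s *
          (∑ r ∈ (Icc 1 Q).filter (fun r => r < 2 ^ i0),
            1 / (r : ℝ) * Er (Hav h W J) (2 ^ s) r) ≤ C * ((l1 : ℝ) / 2 ^ (S - l1)) := by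
        have t10 : ∀ s ∈ Ico (S - l1 + 1) (S + 1), ((S + 1 - s : ℕ) : ℝ) / 2 ^ s *
            (∑ r ∈ (Icc 1 Q).filter (fun r => r < 2 ^ i0),
              1 / (r : ℝ) * Er (Hav h W J) (2 ^ s) r) ≤ (C * l1) * (1 / 2 ^ s) := by
          intro s hs
          rw [mem_Ico] at hs
          have t3 := G_cancel h (Q := Q) hJ hZ hW H' (2 ^ s)
          rw [← hB, ← hC] at t3
          have t4 : ((S + 1 - s : ℕ) : ℝ) ≤ l1 := by
            have : S + 1 - s ≤ l1 := by omega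
            exact_mod_cast this
          calc ((S + 1 - s : ℕ) : ℝ) / 2 ^ s * (∑ r ∈ (Icc 1 Q).filter (fun r => r < 2 ^ i0),
              1 / (r : ℝ) * Er (Hav h W J) (2 ^ s) r) ≤ ((S + 1 - s : ℕ) : ℝ) / 2 ^ s * C :=
                mul_le_mul_of_nonneg_left t3 (by positivity)
            _ ≤ (l1 : ℝ) / 2 ^ s * C := by gcongr
            _ = _ := by ring
        refine (sum_le_sum t10).trans ?_
        rw [← mul_sum]
        have t11 := mul_le_mul_of_nonneg_left (geo12 (S - l1 + 1) (S + 1))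
          (by positivity : 0 ≤ C * l1)
        refine t11.trans (le_of_eq ?_)
        rw [pow_succ]
        field_simp
      linarith
    linarith
  have h5 : 4 * (y : ℝ) * N = y * (4 * N) := by ring
  rw [h5]
  have h6 := mul_le_mul_of_nonneg_left h4 (by norm_num : (0 : ℝ) ≤ 10)
  linarith

end Pool.Agent.V8H34.TR
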