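import Mathlib
import Pool.Agent.V8H34.TR.Assem

/-!
# Short segments of quadratic polynomials: the choice of the parameters
-/

set_option autoImplicit false

namespace Pool.Agent.V8H34.TR

open Finset Pool.Agent.Helper112 Filter Topology

/-- the pieces of the bound -/
theorem final_ineq {N B L y u P G Zr S1 q l g a η ε w e f κ' : ℝ}
    (hN : 0 ≤ N) (hL : 0 < L) (hLu : L ≤ u) (hu : 1 ≤ u) (hy : y = u ^ 16) (hB0 : 0 ≤ B)
    (hB : B ≤ 2 / η * (N / L)) (hP1 : a * y ^ 2 ≤ P) (hP2 : P ≤ 2 * a * y ^ 2) (ha : 1 ≤ a)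
    (hη : 0 < η) (hG1 : u ^ 2 / 4 ≤ G) (hG2 : G ≤ u ^ 2) (hZ0 : 0 ≤ Zr) (hZ : Zr ≤ u)
    (hS0 : 0 ≤ S1) (hS1 : S1 ≤ u) (hq0 : 0 ≤ q) (hq1 : q ≤ 1) (hq : 61440 * a / η * q ≤ ε / 8)
    (hl0 : 0 ≤ l) (hf : 1 ≤ f) (hlf : 30720 * a / η * ((l + 2) / f) ≤ ε / 8) (he : 1 ≤ e)
    (hw0 : 0 ≤ w) (hwZ : Zr ^ 2 ≤ κ' * y ^ 2) (hw : w ≤ κ' * y ^ 2)
    (hκ0 : 0 < κ') (hκ : 960 / η * e * κ' ^ 2 * l * f ≤ ε / 8)
    (hu2 : (40 + 15360 / η + 19200 * a) / u ≤ ε / 8) (hg : g = l * f / P) :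
    4 * y * N + 10 * ((384 * q * (4 * P + S1 ^ 2 * (G * Zr) ^ 2) * B + 192 * P * N / G +
      192 * (2 * a * y) * S1 ^ 2 * N) +
      384 * (2 * P / f * (l + 2) + S1 ^ 2 * (G * Zr) ^ 2) * B +
      e * (24 * (w + Zr ^ 2) * (w * B)) * g) ≤ ε * (y ^ 2 * (N / L)) := by
  set n := N / L with hn
  have hn0 : 0 ≤ n := by positivity
  have hNn : N = L * n := by rw [hn]; field_simp
  have hu0 : 0 < u := by linarith
  have hNu : N ≤ u * n := by rw [hNn]; exact mul_le_mul_of_nonneg_right hLu hn0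
  have hy0 : 0 < y := by rw [hy]; positivity
  have hP0 : 0 < P := lt_of_lt_of_le (by positivity) hP1
  have hG0 : 0 < G := lt_of_lt_of_le (by positivity) hG1
  have hy2 : y ^ 2 = u ^ 32 := by rw [hy]; ring
  set X := y ^ 2 * n with hX
  have hX0 : 0 ≤ X := by positivity
  -- comparison of powers
  have hp : ∀ k : ℕ, k ≤ 31 → u ^ k * n ≤ X / u := by
    intro k hk
    rw [hX, hy2, le_div_iff₀ hu0]
    have h1 : u ^ k ≤ u ^ 31 := pow_le_pow_right₀ hu hk
    calc u ^ k * n * u ≤ u ^ 31 * n * u := by gcongr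
      _ = u ^ 32 * n := by ring
  have hD : S1 ^ 2 * (G * Zr) ^ 2 ≤ u ^ 8 := by
    calc S1 ^ 2 * (G * Zr) ^ 2 ≤ u ^ 2 * (u ^ 2 * u) ^ 2 := by gcongr
      _ = u ^ 8 := by ring
  have hD0 : 0 ≤ S1 ^ 2 * (G * Zr) ^ 2 := by positivity
  have hDB : S1 ^ 2 * (G * Zr) ^ 2 * B ≤ 2 / η * (X / u) := by
    calc S1 ^ 2 * (G * Zr) ^ 2 * B ≤ u ^ 8 * (2 / η * n) := by gcongr
      _ = 2 / η * (u ^ 8 * n) := by ring
      _ ≤ 2 / η * (X / u) := mul_le_mul_of_nonneg_left (hp 8 (by norm_num)) (by positivity)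
  have hPB : P * B ≤ 4 * a / η * X := by
    calc P * B ≤ (2 * a * y ^ 2) * (2 / η * n) := by gcongr
      _ = 4 * a / η * X := by rw [hX]; ring
  -- the terms
  have t0 : 4 * y * N ≤ 4 * (X / u) := by
    calc 4 * y * N ≤ 4 * y * (u * n) := by gcongr
      _ = 4 * (u ^ 17 * n) := by rw [hy]; ring
      _ ≤ 4 * (X / u) := mul_le_mul_of_nonneg_left (hp 17 (by norm_num)) (by norm_num)
  have t1 : 384 * q * (4 * P + S1 ^ 2 * (G * Zr) ^ 2) * B ≤
      6144 * a / η * q * X + 768 / η * (X / u) := by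
    have h1 : 384 * q * (4 * P + S1 ^ 2 * (G * Zr) ^ 2) * B =
        1536 * q * (P * B) + 384 * (q * (S1 ^ 2 * (G * Zr) ^ 2 * B)) := by ring
    have h2 : 1536 * q * (P * B) ≤ 1536 * q * (4 * a / η * X) := by gcongr
    have h3 : q * (S1 ^ 2 * (G * Zr) ^ 2 * B) ≤ 1 * (2 / η * (X / u)) := by gcongr
    rw [h1]
    have h4 : 1536 * q * (4 * a / η * X) = 6144 * a / η * q * X := by ring
    have h5 : 384 * (1 * (2 / η * (X / u))) = 768 / η * (X / u) := by ring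
    linarith
  have t2 : 192 * P * N / G ≤ 1536 * a * (X / u) := by
    rw [div_le_iff₀ hG0]
    calc 192 * P * N ≤ 192 * (2 * a * y ^ 2) * (u * n) := by gcongr
      _ = 384 * a * u * X := by rw [hX]; ring
      _ = 1536 * a * (X / u) * (u ^ 2 / 4) := by field_simp; ring
      _ ≤ 1536 * a * (X / u) * G := by gcongr
  have t3 : 192 * (2 * a * y) * S1 ^ 2 * N ≤ 384 * a * (X / u) := by
    calc 192 * (2 * a * y) * S1 ^ 2 * N ≤ 192 * (2 * a * y) * u ^ 2 * (u * n) := by gcongr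
      _ = 384 * a * (u ^ 19 * n) := by rw [hy]; ring
      _ ≤ 384 * a * (X / u) := mul_le_mul_of_nonneg_left (hp 19 (by norm_num)) (by positivity)
  have t4 : 384 * (2 * P / f * (l + 2) + S1 ^ 2 * (G * Zr) ^ 2) * B ≤
      3072 * a / η * ((l + 2) / f) * X + 768 / η * (X / u) := by
    have h1 : 384 * (2 * P / f * (l + 2) + S1 ^ 2 * (G * Zr) ^ 2) * B =
        768 * ((l + 2) / f) * (P * B) + 384 * (S1 ^ 2 * (G * Zr) ^ 2 * B) := by ring
    have h2 : 768 * ((l + 2) / f) * (P * B) ≤ 768 * ((l + 2) / f) * (4 * a / η * X) := by gcongr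
    rw [h1]
    have h4 : 768 * ((l + 2) / f) * (4 * a / η * X) = 3072 * a / η * ((l + 2) / f) * X := by ring
    have h5 : 384 * (2 / η * (X / u)) = 768 / η * (X / u) := by ring
    linarith
  have t5 : e * (24 * (w + Zr ^ 2) * (w * B)) * g ≤ 96 / η * e * κ' ^ 2 * l * f * X := by
    rw [hg]
    have h1 : e * (24 * (w + Zr ^ 2) * (w * B)) * (l * f / P) ≤
        e * (24 * (κ' * y ^ 2 + κ' * y ^ 2) * ((κ' * y ^ 2) * (2 / η * n))) * (l * f / (a * y ^ 2)) := by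
      gcongr
    refine h1.trans ?_
    have h2 : e * (24 * (κ' * y ^ 2 + κ' * y ^ 2) * ((κ' * y ^ 2) * (2 / η * n))) * (l * f / (a * y ^ 2)) =
        96 / η * e * κ' ^ 2 * l * f * X / a := by
      rw [hX]
      field_simp
      ring
    rw [h2]
    exact div_le_self (by positivity) ha
  have k1 : 10 * (6144 * a / η * q * X) ≤ ε / 8 * X := by
    have : 10 * (6144 * a / η * q * X) = (61440 * a / η * q) * X := by ring
    rw [this]
    exact mul_le_mul_of_nonneg_right hq hX0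
  have k2 : 10 * (3072 * a / η * ((l + 2) / f) * X) ≤ ε / 8 * X := by
    have : 10 * (3072 * a / η * ((l + 2) / f) * X) = (30720 * a / η * ((l + 2) / f)) * X := by ring
    rw [this]
    exact mul_le_mul_of_nonneg_right hlf hX0
  have k3 : 10 * (96 / η * e * κ' ^ 2 * l * f * X) ≤ ε / 8 * X := by
    have : 10 * (96 / η * e * κ' ^ 2 * l * f * X) = (960 / η * e * κ' ^ 2 * l * f) * X := by ring
    rw [this]
    exact mul_le_mul_of_nonneg_right hκ hX0
  have k4 : (4 + 15360 / η + 19200 * a) * (X / u) ≤ ε / 8 * X := by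
    have h1 : (4 + 15360 / η + 19200 * a) * (X / u) ≤ (40 + 15360 / η + 19200 * a) / u * X := by
      rw [div_mul_eq_mul_div, mul_div_assoc']
      apply div_le_div_of_nonneg_right _ hu0.le
      apply mul_le_mul_of_nonneg_right _ hX0
      linarith
    exact h1.trans (mul_le_mul_of_nonneg_right hu2 hX0)
  have hε : 0 ≤ ε := by
    have h1 : 0 ≤ 61440 * a / η * q := by positivity
    linarith
  have k5 : 0 ≤ ε * X := by positivity
  have k6 : 10 * (768 / η * (X / u)) = 7680 / η * (X / u) := by ring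
  have k7 : 15360 / η * (X / u) = 7680 / η * (X / u) + 7680 / η * (X / u) := by ring
  nlinarith [t0, t1, t2, t3, t4, t5, k1, k2, k3, k4]

end Pool.Agent.V8H34.TR
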