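import Mathlib
import Pool.Agent.V8H34.TR.Fin1

/-!
# Short segments of quadratic polynomials: the transference theorem on `ZMod M`
-/

set_option autoImplicit false

namespace Pool.Agent.V8H34.TR

open Finset Pool.Agent.Helper112 Filter Topology

theorem exists_l (c : ℝ) (hc : 0 < c) : ∃ l : ℕ, ((l : ℝ) + 2) / 2 ^ l ≤ c := by
  obtain ⟨j, hj⟩ := exists_pow_lt_of_lt_one (by positivity : (0 : ℝ) < c / 2) (by norm_num : (1 / 2 : ℝ) < 1)
  refine ⟨2 * j, ?_⟩
  have h1 : ((j : ℝ) + 1) ≤ 2 ^ j := by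
    have h2 := Nat.lt_two_pow_self (n := j)
    exact_mod_cast h2
  have h2 : (2 : ℝ) ^ (2 * j) = 2 ^ j * 2 ^ j := by rw [two_mul, pow_add]
  rw [h2, div_le_iff₀ (by positivity)]
  push_cast
  have h3 : (1 : ℝ) < c / 2 * 2 ^ j := by
    have h4 : (1 / 2 : ℝ) ^ j * 2 ^ j = 1 := by
      rw [← mul_pow]
      norm_num
    have h5 := mul_lt_mul_of_pos_right hj (by positivity : (0 : ℝ) < 2 ^ j)
    rw [h4] at h5
    exact h5
  calc 2 * (j : ℝ) + 2 = 2 * 1 * (j + 1) := by ring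
    _ ≤ 2 * (c / 2 * 2 ^ j) * 2 ^ j := by gcongr
    _ = c * (2 ^ j * 2 ^ j) := by ring

theorem ev_u (C : ℝ) : ∀ᶠ y : ℕ in atTop, C ≤ (y : ℝ) ^ (1 / 16 : ℝ) :=
  ((tendsto_rpow_atTop (by norm_num : (0 : ℝ) < 1 / 16)).comp tendsto_natCast_atTop_atTop).eventually
    (eventually_ge_atTop C)

theorem ev_log : ∀ᶠ y : ℕ in atTop, Real.log y ≤ 1 / 8 * (y : ℝ) ^ (1 / 16 : ℝ) := by
  have h := (isLittleO_log_rpow_atTop (by norm_num : (0 : ℝ) < 1 / 16)).def
    (by norm_num : (0 : ℝ) < 1 / 8)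
  have h2 := tendsto_natCast_atTop_atTop.eventually h
  filter_upwards [h2, eventually_ge_atTop 1] with y hy hy1
  have hy1' : (1 : ℝ) ≤ y := by exact_mod_cast hy1
  rw [Real.norm_of_nonneg (Real.log_nonneg hy1'), Real.norm_of_nonneg (by positivity)] at hy
  exact hy

/-- **The transference theorem on `ZMod M`.** -/
theorem transf_Z (a : ℕ) (ha : 1 ≤ a) (b : ℤ) (η : ℝ) (hη : 0 < η) (hη1 : η ≤ 1 / 16) (ε : ℝ)
    (hε : 0 < ε) :
    ∃ R1 : ℕ, ∀ W : ℕ, 1 ≤ W → (∀ r, 1 ≤ r → r ≤ R1 → r ∣ W) → ∃ κ0 : ℝ, 0 < κ0 ∧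
      κ0 * W ≤ 1 ∧ ∀ κ : ℝ, 0 < κ → κ ≤ κ0 → ∃ y0 : ℕ, ∀ y : ℕ, y0 ≤ y → 1 ≤ ⌊κ * (y : ℝ) ^ 2⌋₊ ∧
      ∀ (M : ℕ) (_ : NeZero M) (h : ZMod M → ℂ), Rgh h ⌊(y : ℝ) ^ η⌋₊ (2 * a * y * y) →
      ∑ x, ‖∑ m ∈ Icc 1 y, Hav h W ⌊κ * (y : ℝ) ^ 2⌋₊ (x + ((gq a b m : ℤ) : ZMod M))‖ ^ 2 ≤
        ε * ((y : ℝ) ^ 2 * (Nh h / Real.log y)) := by
  have haR : (1 : ℝ) ≤ a := by exact_mod_cast ha
  obtain ⟨i0, hi0⟩ := exists_pow_lt_of_lt_one
    (by positivity : (0 : ℝ) < ε / 8 / (61440 * a / η)) (by norm_num : (3 / 4 : ℝ) < 1)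
  obtain ⟨l1, hl1⟩ := exists_l (ε / 8 / (30720 * a / η)) (by positivity)
  refine ⟨2 ^ i0, fun W hW hWd => ?_⟩
  have hWR : (1 : ℝ) ≤ W := by exact_mod_cast hW
  set e : ℝ := 2 ^ i0 with he
  set f : ℝ := 2 ^ l1 with hf
  have he1 : 1 ≤ e := one_le_pow₀ (by norm_num)
  have hf1 : 1 ≤ f := one_le_pow₀ (by norm_num)
  set D0 : ℝ := 960 / η * e * l1 * f + 1 with hD0
  have hD0p : 0 < D0 := by positivity
  refine ⟨min (1 / W) (ε / 8 / (D0 * W)), by positivity, ?_, ?_⟩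
  · calc min (1 / (W : ℝ)) (ε / 8 / (D0 * W)) * W ≤ 1 / (W : ℝ) * W :=
        mul_le_mul_of_nonneg_right (min_le_left _ _) (by positivity)
      _ = 1 := by field_simp
  intro κ hκ hκ0
  have hκ1 : κ * W ≤ 1 := by
    have h1 := hκ0.trans (min_le_left _ _)
    rw [le_div_iff₀ (by positivity)] at h1
    exact h1
  have hκ2 : κ * W ≤ ε / 8 / D0 := by
    have h1 := hκ0.trans (min_le_right _ _)
    rw [le_div_iff₀ (by positivity)] at h1
    rw [le_div_iff₀ hD0p]
    linarith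
  set κ' := κ * W with hκ'
  have hκ'0 : 0 < κ' := by positivity
  -- eventual conditions
  have hev : ∀ᶠ y : ℕ in atTop, 1 ≤ ⌊κ * (y : ℝ) ^ 2⌋₊ ∧
      ∀ (M : ℕ) (_ : NeZero M) (h : ZMod M → ℂ), Rgh h ⌊(y : ℝ) ^ η⌋₊ (2 * a * y * y) →
      ∑ x, ‖∑ m ∈ Icc 1 y, Hav h W ⌊κ * (y : ℝ) ^ 2⌋₊ (x + ((gq a b m : ℤ) : ZMod M))‖ ^ 2 ≤
        ε * ((y : ℝ) ^ 2 * (Nh h / Real.log y)) := by
    have hz2 : ∀ᶠ y : ℕ in atTop, (2 : ℝ) ≤ (y : ℝ) ^ η :=
      ((tendsto_rpow_atTop hη).comp tendsto_natCast_atTop_atTop).eventually (eventually_ge_atTop 2)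
    have hlg : ∀ᶠ y : ℕ in atTop, 2 * Real.log 2 / η ≤ Real.log y :=
      (Real.tendsto_log_atTop.comp tendsto_natCast_atTop_atTop).eventually (eventually_ge_atTop _)
    filter_upwards [ev_u 1, ev_log, ev_u (2 * (Real.log (2 * a) / Real.log 2 + 1)),
      ev_u (8 * (40 + 15360 / η + 19200 * a) / ε), ev_u (1 / κ'), ev_u (1 / κ), ev_u e, ev_u f, hz2, hlg,
      eventually_ge_atTop 2] with y hu1 hulog hua hu8 huκ' huκ hue huf hz2 hlg hy2
    set u : ℝ := (y : ℝ) ^ (1 / 16 : ℝ) with hu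
    have hy2R : (2 : ℝ) ≤ y := by exact_mod_cast hy2
    have hy0R : (0 : ℝ) < y := by linarith
    have hu0 : 0 < u := by linarith
    have hyu : (y : ℝ) = u ^ 16 := by
      rw [hu, ← Real.rpow_natCast, ← Real.rpow_mul hy0R.le]
      norm_num
    have hpow : ∀ k : ℕ, 1 ≤ k → u ≤ u ^ k := fun k hk => by
      calc u = u ^ 1 := (pow_one u).symm
        _ ≤ u ^ k := pow_le_pow_right₀ hu1 hk
    have huy : u ≤ y := by rw [hyu]; exact hpow 16 (by norm_num)
    have hy2u : (y : ℝ) ^ 2 = u ^ 32 := by rw [hyu]; ring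
    set J := ⌊κ * (y : ℝ) ^ 2⌋₊ with hJd
    have hJ1 : 1 ≤ J := by
      rw [hJd]
      apply Nat.le_floor
      rw [Nat.cast_one, hy2u]
      have h1 : 1 / κ ≤ u ^ 32 := huκ.trans (hpow 32 (by norm_num))
      rw [div_le_iff₀ hκ] at h1
      linarith
    refine ⟨hJ1, fun M _ h hR => ?_⟩
    have hJle : (J : ℝ) ≤ κ * (y : ℝ) ^ 2 := Nat.floor_le (by positivity)
    have hWJ : ((W * J : ℕ) : ℝ) ≤ κ' * (y : ℝ) ^ 2 := by
      push_cast
      calc (W : ℝ) * J ≤ W * (κ * (y : ℝ) ^ 2) := by gcongr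
        _ = κ' * (y : ℝ) ^ 2 := by rw [hκ']; ring
    have hWJ2 : W * J ≤ 2 * a * y * y := by
      have h1 : ((W * J : ℕ) : ℝ) ≤ ((2 * a * y * y : ℕ) : ℝ) := by
        refine hWJ.trans ?_
        push_cast
        calc κ' * (y : ℝ) ^ 2 ≤ 1 * (y : ℝ) ^ 2 := by gcongr
          _ ≤ (2 * a) * (y : ℝ) ^ 2 := by
            apply mul_le_mul_of_nonneg_right _ (by positivity)
            linarith
          _ = 2 * a * y * y := by ring
      exact_mod_cast h1
    set Z := ⌊(y : ℝ) ^ η⌋₊ with hZd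
    have hZ2 : 2 ≤ Z := by
      apply Nat.le_floor
      exact_mod_cast hz2
    have hZle : (Z : ℝ) ≤ u := by
      refine (Nat.floor_le (by positivity)).trans ?_
      rw [hu]
      exact Real.rpow_le_rpow_of_exponent_le (by linarith) hη1
    have hZlog : η / 2 * Real.log y ≤ Real.log Z := by
      have h1 : (y : ℝ) ^ η / 2 ≤ Z := by
        have h2 := Nat.lt_floor_add_one ((y : ℝ) ^ η)
        rw [← hZd] at h2
        linarith
      have h2 : Real.log ((y : ℝ) ^ η / 2) ≤ Real.log Z := Real.log_le_log (by positivity) h1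
      rw [Real.log_div (by positivity) (by norm_num), Real.log_rpow hy0R] at h2
      rw [div_le_iff₀ hη] at hlg
      linarith
    have hlogy : 0 < Real.log y := Real.log_pos (by linarith)
    have hZlog0 : 0 < Real.log Z := lt_of_lt_of_le (by positivity) hZlog
    -- the scale
    have hV0 : 2 * a * y * y ≠ 0 := by positivity
    set S := Nat.log 2 (2 * a * y * y) with hSd
    have hS1 : 2 * a * y * y < 2 ^ (S + 1) := Nat.lt_pow_succ_log_self (by norm_num) _
    have hS2 : 2 ^ S ≤ 2 * a * y * y := Nat.pow_log_le_self 2 hV0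
    have hS1R : 2 * (a : ℝ) * y * y < 2 ^ (S + 1) := by exact_mod_cast hS1
    have hS2R : (2 : ℝ) ^ S ≤ 2 * (a : ℝ) * y * y := by exact_mod_cast hS2
    have hSu : (S : ℝ) + 1 ≤ u := by
      have h1 : (S : ℝ) * Real.log 2 ≤ Real.log (2 * a) + 2 * Real.log y := by
        have h2 := Real.log_le_log (by positivity) hS2R
        rw [Real.log_pow, mul_assoc (2 * (a : ℝ)), Real.log_mul (by positivity) (by positivity),
          Real.log_mul hy0R.ne' hy0R.ne'] at h2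
        linarith
      have h3 : 0 < Real.log 2 := Real.log_pos (by norm_num)
      have h4 : (0.69 : ℝ) < Real.log 2 := by
        have := Real.log_two_gt_d9
        linarith
      have h5 : (S : ℝ) ≤ Real.log (2 * a) / Real.log 2 + 2 * Real.log y / Real.log 2 := by
        rw [← add_div, le_div_iff₀ h3]
        exact h1
      have h6 : 2 * Real.log y / Real.log 2 ≤ u / 2 := by
        rw [div_le_iff₀ h3]
        nlinarith
      linarith
    -- the cut
    have hu2f : 1 ≤ ⌊u ^ 2⌋₊ := Nat.le_floor (by rw [Nat.cast_one]; exact one_le_pow₀ hu1)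
    set ρ := Nat.log 2 ⌊u ^ 2⌋₊ with hρ
    have hG2 : (2 : ℝ) ^ ρ ≤ u ^ 2 := by
      have h1 := Nat.pow_log_le_self 2 (by omega : ⌊u ^ 2⌋₊ ≠ 0)
      have h2 : ((2 ^ Nat.log 2 ⌊u ^ 2⌋₊ : ℕ) : ℝ) ≤ (⌊u ^ 2⌋₊ : ℝ) := by exact_mod_cast h1
      push_cast at h2
      exact h2.trans (Nat.floor_le (by positivity))
    have hG1 : u ^ 2 / 4 ≤ (2 : ℝ) ^ ρ := by
      have h1 := Nat.lt_pow_succ_log_self (b := 2) (by norm_num) ⌊u ^ 2⌋₊
      have h2 : (⌊u ^ 2⌋₊ : ℝ) + 1 ≤ ((2 ^ (ρ + 1) : ℕ) : ℝ) := by exact_mod_cast h1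
      have h3 := Nat.lt_floor_add_one (u ^ 2)
      push_cast at h2
      rw [pow_succ (2 : ℝ) ρ] at h2
      have h4 : (0 : ℝ) < 2 ^ ρ := by positivity
      have h5 : 0 < u ^ 2 := by positivity
      linarith
    have hρi : i0 ≤ ρ := by
      rw [hρ]
      apply Nat.le_log_of_pow_le (by norm_num)
      apply Nat.le_floor
      push_cast
      exact hue.trans (hpow 2 (by norm_num))
    have hlS : l1 ≤ S := by
      rw [hSd]
      apply Nat.le_log_of_pow_le (by norm_num)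
      have h1 : ((2 ^ l1 : ℕ) : ℝ) ≤ ((2 * a * y * y : ℕ) : ℝ) := by
        push_cast
        calc (2 : ℝ) ^ l1 ≤ u := huf
          _ ≤ y := huy
          _ = 1 * 1 * y * 1 := by ring
          _ ≤ 2 * a * y * y := by
            gcongr
            · norm_num
            · linarith
      exact_mod_cast h1
    have hVb := V_bound h (W := W) (J := J) (Z := Z) (i0 := i0) (l1 := l1) (ρ := ρ) (y := y) b ha
      (by omega) hS1 hJ1 hZ2 hρi hlS (fun r hr1 hr2 => hWd r hr1 hr2.le)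
      (hR.mono hS2) (hR.mono hWJ2)
    refine hVb.trans ?_
    have hfin := final_ineq (N := Nh h) (B := Nh h / Real.log Z) (L := Real.log y) (y := (y : ℝ))
      (u := u) (P := 2 ^ S) (G := 2 ^ ρ) (Zr := (Z : ℝ)) (S1 := (S : ℝ) + 1) (q := (3 / 4 : ℝ) ^ i0)
      (l := (l1 : ℝ)) (g := (l1 : ℝ) / 2 ^ (S - l1)) (a := (a : ℝ)) (η := η) (ε := ε)
      (w := ((W * J : ℕ) : ℝ)) (e := e) (f := f) (κ' := κ')
      (Nh_nonneg h) hlogy (by linarith) hu1 hyu (div_nonneg (Nh_nonneg h) hZlog0.le)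
      (by
        rw [div_le_iff₀ hZlog0]
        calc Nh h = 2 / η * (Nh h / Real.log y) * (η / 2 * Real.log y) := by field_simp
          _ ≤ 2 / η * (Nh h / Real.log y) * Real.log Z := by
            apply mul_le_mul_of_nonneg_left hZlog
            have := Nh_nonneg h
            positivity)
      (by rw [pow_succ] at hS1R; nlinarith)
      (by nlinarith)
      haR hη hG1 hG2 (by positivity) hZle (by positivity) hSu (by positivity)
      (pow_le_one₀ (by norm_num) (by norm_num))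
      (by
        rw [lt_div_iff₀ (by positivity)] at hi0
        linarith)
      (by positivity) hf1
      (by
        rw [le_div_iff₀ (by positivity)] at hl1
        rw [hf]
        linarith)
      he1 (by positivity)
      (by
        calc (Z : ℝ) ^ 2 ≤ u ^ 2 := by gcongr
          _ = 1 * u ^ 2 := by ring
          _ ≤ (κ' * u ^ 30) * u ^ 2 := by
            apply mul_le_mul_of_nonneg_right _ (by positivity)
            have h1 : 1 / κ' ≤ u ^ 30 := huκ'.trans (hpow 30 (by norm_num))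
            rw [div_le_iff₀ hκ'0] at h1
            linarith
          _ = κ' * (y : ℝ) ^ 2 := by rw [hy2u]; ring)
      hWJ hκ'0
      (by
        have h1 : κ' ^ 2 ≤ κ' := by nlinarith
        have h2 : 960 / η * e * κ' ^ 2 * l1 * f ≤ D0 * κ' := by
          calc 960 / η * e * κ' ^ 2 * l1 * f ≤ 960 / η * e * κ' * l1 * f := by gcongr
            _ = (960 / η * e * l1 * f) * κ' := by ring
            _ ≤ D0 * κ' := by
              apply mul_le_mul_of_nonneg_right _ hκ'0.le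
              rw [hD0]
              linarith
        have h3 : D0 * κ' ≤ ε / 8 := by
          rw [le_div_iff₀ hD0p] at hκ2
          linarith
        linarith)
      (by
        rw [div_le_iff₀ hu0]
        rw [div_le_iff₀ hε] at hu8
        linarith)
      (by
        have h1 : (2 : ℝ) ^ S = 2 ^ (S - l1) * 2 ^ l1 := by
          rw [← pow_add]
          congr 1
          omega
        rw [h1, hf]
        field_simp)
    refine le_trans (le_of_eq ?_) hfin
    have h1 : (2 : ℝ) ^ (S - l1 + 1) = 2 * 2 ^ S / f := by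
      have h2 : (2 : ℝ) ^ S = 2 ^ (S - l1) * 2 ^ l1 := by
        rw [← pow_add]
        congr 1
        omega
      rw [h2, hf, pow_succ]
      field_simp
    rw [h1]
    push_cast
    ring
  obtain ⟨y0, hy0⟩ := eventually_atTop.1 hev
  exact ⟨y0, hy0⟩

end Pool.Agent.V8H34.TR
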