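import Mathlib
import Pool.Agent.V8H34.TR.Fin2

/-!
# Short segments of quadratic polynomials: the transference theorem for sets of integers
-/

set_option autoImplicit false

namespace Pool.Agent.V8H34.TR

open Finset Pool.Agent.Helper112 Filter Topology

/-- the indicator function -/
def ind (A : Finset ℤ) (n : ℤ) : ℝ := if n ∈ A then 1 else 0

/-- `A` in `ZMod M` -/
def emb (A : Finset ℤ) (M Bd : ℕ) (x : ZMod M) : ℂ := if ((x.val : ℤ) - 2 * Bd) ∈ A then 1 else 0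

theorem emb_int (A : Finset ℤ) (Bd : ℕ) (z : ℤ) (h1 : -(2 * (Bd : ℤ)) ≤ z) (h2 : z ≤ 4 * Bd) :
    emb A (6 * Bd + 1) Bd (((z + 2 * Bd : ℤ)) : ZMod (6 * Bd + 1)) = (ind A z : ℂ) := by
  unfold emb ind
  obtain ⟨k, hk⟩ := Int.eq_ofNat_of_zero_le (by omega : 0 ≤ z + 2 * Bd)
  have h3 : ((((z + 2 * Bd : ℤ)) : ZMod (6 * Bd + 1))).val = k := by
    rw [hk]
    have h4 : (((k : ℤ)) : ZMod (6 * Bd + 1)) = ((k : ℕ) : ZMod (6 * Bd + 1)) := by push_cast; rfl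
    rw [h4, ZMod.val_natCast]
    apply Nat.mod_eq_of_lt
    omega
  have h5 : (k : ℤ) - 2 * Bd = z := by omega
  rw [h3, h5]
  split_ifs <;> simp

theorem emb_Rgh (A : Finset ℤ) (Bd Z L : ℕ) (hA : ∀ n ∈ A, |n| ≤ Bd) (hL : L ≤ Bd)
    (hr : ∀ n ∈ A, ∀ p : ℕ, p.Prime → p ≤ Z → ¬ (p : ℤ) ∣ n) :
    Rgh (emb A (6 * Bd + 1) Bd) Z L := by
  intro x
  refine ⟨(x.val : ℤ) - 2 * Bd, fun t ht h0 p hp hpZ => ?_⟩
  rw [mem_range] at ht
  unfold emb at h0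
  have h1 : ((((x + ((t : ℤ) : ZMod (6 * Bd + 1)))).val : ℤ) - 2 * Bd) ∈ A := by
    by_contra h2
    exact h0 (if_neg h2)
  have h2 : (x + ((t : ℤ) : ZMod (6 * Bd + 1))).val = (x.val + t) % (6 * Bd + 1) := by
    have h3 : x + ((t : ℤ) : ZMod (6 * Bd + 1)) = ((x.val + t : ℕ) : ZMod (6 * Bd + 1)) := by
      push_cast
      rw [ZMod.natCast_zmod_val]
    rw [h3, ZMod.val_natCast]
  rw [h2] at h1
  have hx := ZMod.val_lt x
  rcases Nat.lt_or_ge (x.val + t) (6 * Bd + 1) with hc | hc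
  · rw [Nat.mod_eq_of_lt hc] at h1
    have h3 := hr _ h1 p hp hpZ
    have h4 : ((x.val + t : ℕ) : ℤ) - 2 * Bd = (x.val : ℤ) - 2 * Bd + t := by push_cast; ring
    rw [h4] at h3
    exact h3
  · exfalso
    have h3 : (x.val + t) % (6 * Bd + 1) = x.val + t - (6 * Bd + 1) := by
      rw [Nat.mod_eq_sub_mod hc]
      apply Nat.mod_eq_of_lt
      omega
    rw [h3] at h1
    have h4 := hA _ h1
    rw [abs_le] at h4
    omega

theorem emb_Nh (A : Finset ℤ) (Bd : ℕ) : Nh (emb A (6 * Bd + 1) Bd) ≤ (A.card : ℝ) := by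
  classical
  unfold Nh emb
  have h1 : ∀ x : ZMod (6 * Bd + 1), ‖(if ((x.val : ℤ) - 2 * Bd) ∈ A then 1 else 0 : ℂ)‖ ^ 2 =
      if ((x.val : ℤ) - 2 * Bd) ∈ A then 1 else 0 := by
    intro x
    split_ifs <;> simp
  rw [sum_congr rfl fun x _ => h1 x, ← sum_filter, sum_const, nsmul_eq_mul, mul_one]
  have h2 : (univ.filter (fun x : ZMod (6 * Bd + 1) => ((x.val : ℤ) - 2 * Bd) ∈ A)).card ≤ A.card := by
    apply card_le_card_of_injOn (fun x : ZMod (6 * Bd + 1) => (x.val : ℤ) - 2 * Bd)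
    · intro x hx
      rw [mem_coe, mem_filter] at hx
      exact hx.2
    · intro x _ x' _ h
      simp only at h
      apply ZMod.val_injective
      omega
  exact_mod_cast h2

theorem exists_Bd (A C : Finset ℤ) (a : ℕ) (b : ℤ) (y K : ℕ) : ∃ Bd : ℕ, (∀ n ∈ A, |n| ≤ Bd) ∧
    (∀ c ∈ C, |c| ≤ Bd) ∧ (∀ m ∈ Icc 1 y, |gq a b m| ≤ Bd) ∧ K ≤ Bd := by
  refine ⟨∑ n ∈ A, n.natAbs + ∑ c ∈ C, c.natAbs + ∑ m ∈ Icc 1 y, (gq a b m).natAbs + K, ?_, ?_, ?_, ?_⟩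
  · intro n hn
    have h1 : n.natAbs ≤ ∑ n ∈ A, n.natAbs := single_le_sum (fun _ _ => Nat.zero_le _) hn
    have h2 : |n| = (n.natAbs : ℤ) := Int.abs_eq_natAbs n
    rw [h2]
    exact_mod_cast (by omega : n.natAbs ≤ ∑ n ∈ A, n.natAbs + ∑ c ∈ C, c.natAbs +
      ∑ m ∈ Icc 1 y, (gq a b m).natAbs + K)
  · intro n hn
    have h1 : n.natAbs ≤ ∑ n ∈ C, n.natAbs := single_le_sum (fun _ _ => Nat.zero_le _) hn
    have h2 : |n| = (n.natAbs : ℤ) := Int.abs_eq_natAbs n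
    rw [h2]
    exact_mod_cast (by omega : n.natAbs ≤ ∑ n ∈ A, n.natAbs + ∑ c ∈ C, c.natAbs +
      ∑ m ∈ Icc 1 y, (gq a b m).natAbs + K)
  · intro n hn
    have h1 : (gq a b n).natAbs ≤ ∑ n ∈ Icc 1 y, (gq a b n).natAbs :=
      single_le_sum (f := fun n => (gq a b n).natAbs) (fun _ _ => Nat.zero_le _) hn
    have h2 : |gq a b n| = ((gq a b n).natAbs : ℤ) := Int.abs_eq_natAbs _
    rw [h2]
    exact_mod_cast (by omega : (gq a b n).natAbs ≤ ∑ n ∈ A, n.natAbs + ∑ c ∈ C, c.natAbs +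
      ∑ m ∈ Icc 1 y, (gq a b m).natAbs + K)
  · omega

/-- the difference between `f_c` at a point and the average over a progression -/
noncomputable def dif (A : Finset ℤ) (W J : ℕ) (n : ℤ) : ℝ :=
  ind A n - 1 / (J : ℝ) * ∑ j ∈ Icc 1 J, ind A (n + (W * j : ℕ))

/-- **The transference theorem.** -/
theorem transf (a : ℕ) (ha : 1 ≤ a) (b : ℤ) (η : ℝ) (hη : 0 < η) (hη1 : η ≤ 1 / 16) (ε : ℝ)
    (hε : 0 < ε) :
    ∃ R1 : ℕ, ∀ W : ℕ, 1 ≤ W → (∀ r, 1 ≤ r → r ≤ R1 → r ∣ W) → ∃ κ0 : ℝ, 0 < κ0 ∧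
      κ0 * W ≤ 1 ∧ ∀ κ : ℝ, 0 < κ → κ ≤ κ0 → ∃ y0 : ℕ, ∀ y : ℕ, y0 ≤ y → 1 ≤ ⌊κ * (y : ℝ) ^ 2⌋₊ ∧
      ∀ A : Finset ℤ, (∀ n ∈ A, ∀ p : ℕ, p.Prime → (p : ℝ) ≤ (y : ℝ) ^ η → ¬ (p : ℤ) ∣ n) →
      ∀ C : Finset ℤ, ∑ c ∈ C, (∑ m ∈ Icc 1 y, dif A W ⌊κ * (y : ℝ) ^ 2⌋₊ (c + gq a b m)) ^ 2 ≤
        ε * ((y : ℝ) ^ 2 * (A.card / Real.log y)) := by
  classical
  obtain ⟨R1, h0⟩ := transf_Z a ha b η hη hη1 ε hε
  refine ⟨R1, fun W hW hWd => ?_⟩
  obtain ⟨κ0, hκ0, hκW, h0⟩ := h0 W hW hWd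
  refine ⟨κ0, hκ0, hκW, fun κ hκ hκκ => ?_⟩
  obtain ⟨y0, h0⟩ := h0 κ hκ hκκ
  refine ⟨max y0 2, fun y hy => ?_⟩
  obtain ⟨hJ1, h0⟩ := h0 y ((le_max_left _ _).trans hy)
  refine ⟨hJ1, fun A hA C => ?_⟩
  have hy2 : 2 ≤ y := (le_max_right _ _).trans hy
  have hlogy : 0 < Real.log y := Real.log_pos (by exact_mod_cast hy2)
  set J := ⌊κ * (y : ℝ) ^ 2⌋₊ with hJ
  obtain ⟨Bd, hBA, hBC, hBg, hBK⟩ := exists_Bd A C a b y (W * J + 2 * a * y * y)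
  have h1 := h0 (6 * Bd + 1) ⟨by omega⟩ (emb A (6 * Bd + 1) Bd)
    (emb_Rgh A Bd _ _ hBA (by omega) (fun n hn p hp hpZ => hA n hn p hp
      ((Nat.le_floor_iff (by positivity)).1 hpZ)))
  have h2 : ∑ c ∈ C, (∑ m ∈ Icc 1 y, dif A W J (c + gq a b m)) ^ 2 ≤
      ∑ x : ZMod (6 * Bd + 1), ‖∑ m ∈ Icc 1 y, Hav (emb A (6 * Bd + 1) Bd) W J
        (x + ((gq a b m : ℤ) : ZMod (6 * Bd + 1)))‖ ^ 2 := by
    have h3 : ∀ c ∈ C, (∑ m ∈ Icc 1 y, dif A W J (c + gq a b m)) ^ 2 =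
        ‖∑ m ∈ Icc 1 y, Hav (emb A (6 * Bd + 1) Bd) W J
        ((((c + 2 * Bd : ℤ)) : ZMod (6 * Bd + 1)) + ((gq a b m : ℤ) : ZMod (6 * Bd + 1)))‖ ^ 2 := by
      intro c hc
      have h4 : ∑ m ∈ Icc 1 y, Hav (emb A (6 * Bd + 1) Bd) W J
        ((((c + 2 * Bd : ℤ)) : ZMod (6 * Bd + 1)) + ((gq a b m : ℤ) : ZMod (6 * Bd + 1))) =
          ((∑ m ∈ Icc 1 y, dif A W J (c + gq a b m) : ℝ) : ℂ) := by
        rw [Complex.ofReal_sum]
        apply sum_congr rfl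
        intro m hm
        have hc' := hBC c hc
        have hg' := hBg m hm
        rw [abs_le] at hc' hg'
        unfold Hav dif
        have e1 : (((c + 2 * Bd : ℤ)) : ZMod (6 * Bd + 1)) + ((gq a b m : ℤ) : ZMod (6 * Bd + 1)) =
            (((c + gq a b m + 2 * Bd : ℤ)) : ZMod (6 * Bd + 1)) := by
          push_cast
          ring
        rw [e1, emb_int A Bd _ (by omega) (by omega)]
        push_cast
        congr 2
        apply sum_congr rfl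
        intro j hj
        rw [mem_Icc] at hj
        have h5 : W * j ≤ W * J := Nat.mul_le_mul_left _ hj.2
        have h5' : ((W * j : ℕ) : ℤ) ≤ ((W * J : ℕ) : ℤ) := by exact_mod_cast h5
        have h6 : ((W * J : ℕ) : ℤ) ≤ Bd := by exact_mod_cast (by omega : W * J ≤ Bd)
        have h7 : (0 : ℤ) ≤ ((W * j : ℕ) : ℤ) := by positivity
        have e2 : (c : ZMod (6 * Bd + 1)) + (gq a b m : ZMod (6 * Bd + 1)) +
            2 * (Bd : ZMod (6 * Bd + 1)) + (W : ZMod (6 * Bd + 1)) * (j : ZMod (6 * Bd + 1)) =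
            (((c + gq a b m + (W * j : ℕ) + 2 * Bd : ℤ)) : ZMod (6 * Bd + 1)) := by
          push_cast
          ring
        have e3 := emb_int A Bd (c + gq a b m + (W * j : ℕ)) (by omega) (by omega)
        rw [e2, e3]
        push_cast
        rfl
      rw [h4, Complex.norm_real, Real.norm_eq_abs, sq_abs]
    rw [sum_congr rfl h3]
    have h4 : Set.InjOn (fun c : ℤ => (((c + 2 * Bd : ℤ)) : ZMod (6 * Bd + 1))) C := by
      intro c hc c' hc' h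
      simp only at h
      rw [ZMod.intCast_eq_intCast_iff_dvd_sub] at h
      have h5 := hBC c hc
      have h6 := hBC c' hc'
      rw [abs_le] at h5 h6
      obtain ⟨k, hk⟩ := h
      have h7 : k = 0 := by
        by_contra h8
        rcases lt_or_gt_of_ne h8 with h9 | h9
        · have : k ≤ -1 := by omega
          push_cast at hk
          nlinarith
        · have : 1 ≤ k := by omega
          push_cast at hk
          nlinarith
      rw [h7, mul_zero] at hk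
      omega
    rw [← sum_image (f := fun x : ZMod (6 * Bd + 1) => ‖∑ m ∈ Icc 1 y, Hav (emb A (6 * Bd + 1) Bd) W J
        (x + ((gq a b m : ℤ) : ZMod (6 * Bd + 1)))‖ ^ 2) h4]
    exact sum_le_sum_of_subset_of_nonneg (subset_univ _) fun _ _ _ => by positivity
  refine h2.trans (h1.trans ?_)
  apply mul_le_mul_of_nonneg_left _ hε.le
  apply mul_le_mul_of_nonneg_left _ (by positivity)
  exact div_le_div_of_nonneg_right (emb_Nh A Bd) hlogy.le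

end Pool.Agent.V8H34.TR
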