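import Mathlib
import Pool.Agent.R460.SC.Fb
import Pool.Agent.R460.SC.Ga
import Pool.Agent.R460.SC.Cl

/-!
# Short segments of quadratic polynomials: the singular series for almost all constant terms
-/

set_option autoImplicit false

namespace Pool.Agent.V8H34.TR

open Finset Filter Topology
open Pool.Agent.W468.ConjF (SJ PJ PJ_le PJ_tendsto)
open Pool.Agent.H373R2.T7 (Vz pz Vz_pos Vz_inv_small nuB mem_pz)
open Pool.Agent.R460.SB (Sz Sz_prod Sz_bd nu_leg fv GoodU fin_unw QS wl wl_bd fv_two)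
open Pool.Agent.R460.SC (Sz_split PJ_lim tail_class om cf cf_eq)
open Pool.Agent.Y868.TB (low_count_lin)

theorem ev_log_nat (C : ℝ) : ∀ᶠ X : ℕ in atTop, C ≤ Real.log X :=
  (Real.tendsto_log_atTop.comp tendsto_natCast_atTop_atTop).eventually (eventually_ge_atTop C)

theorem ev_pow_log (k : ℕ) (c : ℝ) (hc : 0 < c) : ∀ᶠ X : ℕ in atTop, Real.log X ^ k ≤ c * X := by
  have h := (Real.isLittleO_pow_log_id_atTop (n := k)).def hc
  have h2 := tendsto_natCast_atTop_atTop.eventually h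
  filter_upwards [h2, eventually_ge_atTop 1] with X hX hX1
  have hX1' : (1 : ℝ) ≤ X := by exact_mod_cast hX1
  simp only [id] at hX
  rw [Real.norm_of_nonneg (pow_nonneg (Real.log_nonneg hX1') k), Real.norm_of_nonneg (by linarith)] at hX
  exact hX

/-- the tail of the product beyond a fixed number, for almost all constant terms -/
theorem sing_tail (a : ℤ) (ha : 0 < a) (b : ℤ) (δ : ℝ) (hδ : 0 < δ) :
    ∃ K0 : ℕ, ∀ K : ℕ, K0 ≤ K → ∃ X0 : ℕ, ∀ X : ℕ, X0 ≤ X → ∃ Ex : Finset ℤ, (#Ex : ℝ) ≤ δ * X ∧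
      ∀ c : ℤ, 1 ≤ c → c ≤ X → c ∉ Ex → ¬ IsSquare (b ^ 2 - 4 * a * c) ∧
        ∀ᶠ N in atTop, |SJ (b ^ 2 - 4 * a * c) K N| ≤ δ := by
  classical
  refine ⟨max (max 2 (4 * a).toNat) ⌈64 / δ ^ 3⌉₊, fun K hK => ?_⟩
  have hK2 : 2 ≤ K := (le_max_left _ _).trans ((le_max_left _ _).trans hK)
  have hKa : (4 * a).toNat ≤ K := (le_max_right _ _).trans ((le_max_left _ _).trans hK)
  have hKδ : 64 / δ ^ 3 ≤ K := (Nat.le_ceil _).trans (by exact_mod_cast (le_max_right _ _).trans hK)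
  have hK0 : (0 : ℝ) < K := by
    have : 0 < K := by omega
    exact_mod_cast this
  obtain ⟨X1, h1⟩ := tail_class a ha b (1 / 4) (by norm_num) 1 11
  have hδ3 : 0 < δ ^ 3 := by positivity
  obtain ⟨X2, h2⟩ := eventually_atTop.1 ((ev_log_nat (4 / δ + K + 2)).and
    (ev_pow_log 22 (δ ^ 3 / 16) (by positivity)))
  refine ⟨max (max X1 X2) 2, fun X hX => ?_⟩
  have hX1 : X1 ≤ X := (le_max_left _ _).trans ((le_max_left _ _).trans hX)
  have hX2 : X2 ≤ X := (le_max_right _ _).trans ((le_max_left _ _).trans hX)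
  have hX3 : 2 ≤ X := (le_max_right _ _).trans hX
  obtain ⟨hL, hL22⟩ := h2 X hX2
  have hX0 : (0 : ℝ) < X := by
    have : 0 < X := by omega
    exact_mod_cast this
  have hX2r : (2 : ℝ) ≤ X := by exact_mod_cast hX3
  set L := Real.log (X : ℝ) with hLd
  have h4δ : 0 < 4 / δ := by positivity
  have hL2 : 2 ≤ L := by linarith
  have hL0 : 0 < L := by linarith
  set z := ⌈L ^ 10⌉₊ with hz
  have hz1 : L ^ 10 ≤ z := Nat.le_ceil _
  have hL10 : 1 ≤ L ^ 10 := one_le_pow₀ (by linarith)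
  have hz2 : (z : ℝ) ≤ L ^ 11 := by
    have h3 := (Nat.ceil_lt_add_one (by positivity : 0 ≤ L ^ 10)).le
    calc (z : ℝ) ≤ L ^ 10 + 1 := h3
      _ ≤ L ^ 10 * 2 := by linarith
      _ ≤ L ^ 10 * L := by gcongr
      _ = L ^ 11 := by ring
  have hKz : K ≤ z := by
    have h3 : (K : ℝ) ≤ z := by
      calc (K : ℝ) ≤ L := by linarith
        _ = L ^ 1 := (pow_one L).symm
        _ ≤ L ^ 10 := pow_le_pow_right₀ (by linarith) (by norm_num)
        _ ≤ z := hz1
    exact_mod_cast h3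
  obtain ⟨Ex1, hEx1, hg1⟩ := h1 X hX1 z (by simpa using hz1) (by simpa using hz2) 1 le_rfl (by
    rw [Nat.cast_one]
    exact Real.one_le_rpow (by linarith) (by norm_num)) 0
  have hP : ∀ p ∈ (Ioc K z).filter Nat.Prime, p.Prime ∧ p ≠ 2 ∧ K < p ∧ p ≤ z ∧ ¬ (p : ℤ) ∣ -(4 * a) := by
    intro p hp
    rw [mem_filter, mem_Ioc] at hp
    refine ⟨hp.2, by omega, hp.1.1, hp.1.2, fun h => ?_⟩
    rw [dvd_neg] at h
    have h3 := Int.le_of_dvd (by omega) h
    omega
  have hcount := low_count_lin (b ^ 2) (-(4 * a)) ((Ioc K z).filter Nat.Prime) K z (X + 1) (by omega)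
    hP (δ / 2) (by positivity)
  set Bd := (range (X + 1)).filter (fun c : ℕ => δ / 2 < |∑ p ∈ (Ioc K z).filter Nat.Prime,
    (jacobiSym (b ^ 2 + -(4 * a) * (c : ℤ)) p : ℝ) / p|) with hBd
  refine ⟨Ex1 ∪ Bd.image (fun c : ℕ => (c : ℤ)), ?_, ?_⟩
  · have h3 : (#(Ex1 ∪ Bd.image (fun c : ℕ => (c : ℤ))) : ℝ) ≤ (#Ex1 : ℝ) + #Bd := by
      have h4 := card_union_le Ex1 (Bd.image (fun c : ℕ => (c : ℤ)))
      have h5 : #(Bd.image (fun c : ℕ => (c : ℤ))) ≤ #Bd := card_image_le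
      exact_mod_cast h4.trans (Nat.add_le_add_left h5 _)
    have h4 : (#Ex1 : ℝ) ≤ δ / 4 * X := by
      refine hEx1.trans ?_
      rw [Nat.cast_one, one_mul, pow_one, div_le_iff₀ hL0]
      have h5 : 4 / δ ≤ L := by linarith
      rw [div_le_iff₀ hδ] at h5
      nlinarith
    have h5 : (#Bd : ℝ) ≤ 3 * δ / 4 * X := by
      refine hcount.trans ?_
      rw [div_le_iff₀ (by positivity)]
      have h6 : (z : ℝ) ^ 2 ≤ δ ^ 3 / 16 * X := by
        calc (z : ℝ) ^ 2 ≤ (L ^ 11) ^ 2 := by gcongr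
          _ = L ^ 22 := by ring
          _ ≤ δ ^ 3 / 16 * X := hL22
      have h7 : 2 * (((X + 1 : ℕ) : ℝ) / K) ≤ δ ^ 3 / 16 * X := by
        push_cast
        have h8 : ((X : ℝ) + 1) / K ≤ 2 * X / K := by
          apply div_le_div_of_nonneg_right _ hK0.le
          linarith
        have h9 : 2 * (X : ℝ) / K ≤ δ ^ 3 / 32 * X := by
          rw [div_le_iff₀ hK0]
          rw [div_le_iff₀ hδ3] at hKδ
          nlinarith
        linarith
      have h10 : 3 * δ / 4 * (X : ℝ) * (δ / 2) ^ 2 = 3 * δ ^ 3 / 16 * X := by ring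
      rw [h10]
      have h11 : 0 ≤ δ ^ 3 / 16 * (X : ℝ) := by positivity
      have h12 : 3 * δ ^ 3 / 16 * (X : ℝ) = 3 * (δ ^ 3 / 16 * X) := by ring
      rw [h12]
      linarith
    linarith
  · intro c hc1 hcX hcE
    rw [mem_union, not_or] at hcE
    obtain ⟨hsq, hev⟩ := hg1 c hc1 hcX (Int.modEq_one) hcE.1
    refine ⟨hsq, ?_⟩
    filter_upwards [hev, eventually_ge_atTop z] with N hN hzN
    have h3 : SJ (b ^ 2 - 4 * a * c) K N = SJ (b ^ 2 - 4 * a * c) K z + SJ (b ^ 2 - 4 * a * c) z N := by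
      unfold SJ
      rw [← sum_union]
      · congr 1
        ext p
        rw [mem_union, mem_filter, mem_filter, mem_filter, mem_Ioc, mem_Ioc, mem_Ioc]
        constructor
        · rintro ⟨⟨h4, h5⟩, h6⟩
          rcases le_or_gt p z with h7 | h7
          · exact Or.inl ⟨⟨h4, h7⟩, h6⟩
          · exact Or.inr ⟨⟨h7, h5⟩, h6⟩
        · rintro (⟨⟨h4, h5⟩, h6⟩ | ⟨⟨h4, h5⟩, h6⟩)
          · exact ⟨⟨h4, h5.trans hzN⟩, h6⟩
          · exact ⟨⟨by omega, h5⟩, h6⟩
      · rw [disjoint_left]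
        intro p hp hp'
        rw [mem_filter, mem_Ioc] at hp hp'
        omega
    have h4 : |SJ (b ^ 2 - 4 * a * c) K z| ≤ δ / 2 := by
      by_contra h5
      apply hcE.2
      obtain ⟨k, rfl⟩ := Int.eq_ofNat_of_zero_le (by omega : 0 ≤ c)
      rw [mem_image]
      refine ⟨k, ?_, rfl⟩
      rw [hBd, mem_filter, mem_range]
      refine ⟨by omega, ?_⟩
      push Not at h5
      unfold SJ at h5
      have h6 : b ^ 2 + -(4 * a) * (k : ℤ) = b ^ 2 - 4 * a * k := by ring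
      rw [h6]
      exact h5
    have h5 : |SJ (b ^ 2 - 4 * a * c) z N| ≤ δ / 2 := by
      refine hN.trans ?_
      rw [pow_one, div_le_iff₀ hL0]
      have h6 : 4 / δ ≤ L := by linarith
      rw [div_le_iff₀ hδ] at h6
      nlinarith
    rw [h3]
    refine (abs_add_le _ _).trans ?_
    linarith

end Pool.Agent.V8H34.TR
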