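import Mathlib
import Pool.Agent.V8H34.TR.Sing
import Pool.Agent.V8H34.TR.Fin3
import Pool.Agent.R516.QF
import Pool.Agent.R516.QC

/-!
# Short segments of quadratic polynomials: the upper bound for the local averages
-/

set_option autoImplicit false

namespace Pool.Agent.V8H34.TR

open Finset Filter Topology
open Pool.Agent.H373R2.T7 (Vz pz Vz_pos nuB mem_pz sys_count PerB)
open Pool.Agent.R460.SB (Sz QS QS_perB)

/-- the product over the primes up to `K` -/
noncomputable def SK (a : ℕ) (b : ℤ) (K : ℕ) (c : ℤ) : ℝ := Sz (-(a : ℤ)) (-b) c K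

/-- no prime up to `K` divides the value -/
def cop (a : ℕ) (b : ℤ) (K : ℕ) (c : ℤ) (m : ℕ) : Prop := ∀ p ∈ pz K, ¬ (p : ℤ) ∣ c + gq a b m

theorem cop_iff (a : ℕ) (b : ℤ) (K : ℕ) (c : ℤ) (m : ℕ) :
    (∀ p ∈ pz K, ¬ QS (-(a : ℤ)) (-b) c p m) ↔ cop a b K c m := by
  unfold cop QS gq
  have e : c - (-(a : ℤ) * (m : ℤ) ^ 2 + -b * (m : ℤ)) = c + ((a : ℤ) * (m : ℤ) ^ 2 + b * m) := by ring
  rw [e]

theorem SK_prod (a : ℕ) (b : ℤ) (K : ℕ) (c : ℤ) :
    Vz K * SK a b K c = ∏ p ∈ pz K, (1 - (nuB (QS (-(a : ℤ)) (-b) c) p : ℝ) / p) := by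
  unfold SK Sz
  rw [mul_inv_cancel_left₀ (Vz_pos K).ne']

theorem SK_nonneg (a : ℕ) (b : ℤ) (K : ℕ) (c : ℤ) : 0 ≤ SK a b K c := by
  unfold SK Sz
  apply mul_nonneg (inv_nonneg.2 (Vz_pos K).le)
  apply prod_nonneg
  intro p hp
  rw [mem_pz] at hp
  have hp0 : (0 : ℝ) < p := by
    have := hp.2.pos
    exact_mod_cast this
  have h1 : (nuB (QS (-(a : ℤ)) (-b) c) p : ℝ) ≤ p := by
    exact_mod_cast Pool.Agent.H373R2.T7.nuB_le _ p
  rw [sub_nonneg, div_le_one hp0]
  exact h1

open Classical in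
/-- the number of the arguments without small prime factors -/
noncomputable def ncop (a : ℕ) (b : ℤ) (K : ℕ) (c : ℤ) (y : ℕ) : ℕ :=
  ((Icc 1 y).filter (fun m => cop a b K c m)).card

theorem count_cop (a : ℕ) (ha : 1 ≤ a) (b : ℤ) (K : ℕ) (hK : 1 ≤ K) : ∀ᶠ y : ℕ in atTop, ∀ c : ℤ,
    |(ncop a b K c y : ℝ) - y * (Vz K * SK a b K c)| ≤ y / Real.log y := by
  classical
  obtain ⟨N0, h0⟩ := sys_count (a + 2) 1 1 (by omega)
  filter_upwards [eventually_ge_atTop N0, ev_log_nat K] with y hy1 hy2 c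
  have ha' : (-(a : ℤ)) ≠ 0 := by omega
  have h1 := h0 y hy1 K hK (by rw [pow_one]; exact hy2) (QS (-(a : ℤ)) (-b) c) (by
    have h2 := QS_perB (γ := -b) ha' c
    simpa using h2)
  rw [pow_one] at h1
  rw [SK_prod]
  refine le_trans (le_of_eq ?_) h1
  congr 3
  unfold ncop
  congr 1
  ext m
  rw [mem_filter, mem_filter, cop_iff]

/-- `φ(K!) / K!` -/
theorem tot_fact (K : ℕ) : (Nat.totient K.factorial : ℝ) = K.factorial * Vz K := by
  have h1 := Nat.totient_eq_mul_prod_factors K.factorial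
  have h2 : K.factorial.primeFactors = pz K := by
    ext p
    rw [Nat.mem_primeFactors, mem_pz]
    constructor
    · rintro ⟨h3, h4, -⟩
      exact ⟨(h3.dvd_factorial).1 h4, h3⟩
    · rintro ⟨h3, h4⟩
      exact ⟨h4, (h4.dvd_factorial).2 h3, Nat.factorial_ne_zero K⟩
  rw [h2] at h1
  have h3 : (((Nat.totient K.factorial : ℕ) : ℚ) : ℝ) = (((K.factorial : ℕ) : ℚ) *
      ∏ p ∈ pz K, (1 - ((p : ℚ))⁻¹) : ℚ) := by rw [h1]
  push_cast at h3
  rw [h3]
  unfold Vz
  congr 1
  apply prod_congr rfl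
  intro p _
  rw [one_div]

/-- the local average of the indicator of `A` along the values -/
noncomputable def loc (a : ℕ) (b : ℤ) (A : Finset ℤ) (W J y : ℕ) (c : ℤ) : ℝ :=
  ∑ m ∈ Icc 1 y, 1 / (J : ℝ) * ∑ j ∈ Icc 1 J, ind A (c + gq a b m + (W * j : ℕ))

/-- the number of the values in `A` -/
noncomputable def cnt (a : ℕ) (b : ℤ) (A : Finset ℤ) (y : ℕ) (c : ℤ) : ℝ :=
  ∑ m ∈ Icc 1 y, ind A (c + gq a b m)

theorem dif_sum (a : ℕ) (b : ℤ) (A : Finset ℤ) (W J y : ℕ) (c : ℤ) :
    ∑ m ∈ Icc 1 y, dif A W J (c + gq a b m) = cnt a b A y c - loc a b A W J y c := by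
  unfold dif cnt loc
  rw [sum_sub_distrib]

/-- the set of exceptional integers -/
noncomputable def Hx (N K : ℕ) (H δ : ℝ) : Set ℕ :=
  Pool.Agent.R516.HiQ N K.factorial H ((18 / 5 + δ) / (Nat.totient K.factorial * Real.log N))

open Classical in
/-- the number of exceptional arguments -/
noncomputable def exc (a : ℕ) (b : ℤ) (N K : ℕ) (H δ : ℝ) (y : ℕ) (c : ℤ) : ℕ :=
  ((Icc 1 y).filter (fun m => (c + gq a b m).toNat ∈ Hx N K H δ)).card

open Classical in
/-- the bound at one argument -/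
theorem point (a : ℕ) (b : ℤ) {A : Finset ℤ} {N K J m : ℕ} {H δ : ℝ} {c : ℤ} (hδ : 0 ≤ δ)
    (hA : ∀ n ∈ A, n.toNat.Prime) (hN1 : 2 ≤ N) (hJ : 1 ≤ J)
    (hHJ : H ≤ J) (hn : 1 ≤ c + gq a b m) (hnN : c + gq a b m + (K.factorial * J : ℕ) ≤ N) :
    1 / (J : ℝ) * ∑ j ∈ Icc 1 J, ind A (c + gq a b m + (K.factorial * j : ℕ)) ≤
      (if cop a b K c m then (18 / 5 + δ) * (Vz K)⁻¹ * (1 + 1 / J) / Real.log N else 0) +
      (if (c + gq a b m).toNat ∈ Hx N K H δ then 1 else 0) := by
  obtain ⟨n, hn'⟩ := Int.eq_ofNat_of_zero_le (by omega : 0 ≤ c + gq a b m)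
  have hn1 : 1 ≤ n := by omega
  have hJ0 : (0 : ℝ) < J := by exact_mod_cast hJ
  have hW1 : 1 ≤ K.factorial := Nat.factorial_pos K
  have hW0 : (0 : ℝ) < K.factorial := by exact_mod_cast hW1
  have hlogN : 0 < Real.log N := Real.log_pos (by exact_mod_cast hN1)
  have hV := Vz_pos K
  have hsum : ∑ j ∈ Icc 1 J, ind A (c + gq a b m + (K.factorial * j : ℕ)) =
      ((((Icc 1 J).filter (fun j => ((n + K.factorial * j : ℕ) : ℤ) ∈ A)).card : ℕ) : ℝ) := by
    rw [card_filter]
    push_cast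
    apply sum_congr rfl
    intro j _
    unfold ind
    rw [hn']
  rw [hsum]
  have htriv : (((Icc 1 J).filter (fun j => ((n + K.factorial * j : ℕ) : ℤ) ∈ A)).card : ℝ) ≤ J := by
    have := card_filter_le (Icc 1 J) (fun j => ((n + K.factorial * j : ℕ) : ℤ) ∈ A)
    rw [Nat.card_Icc, Nat.add_sub_cancel] at this
    exact_mod_cast this
  have hpos : 0 ≤ (18 / 5 + δ) * (Vz K)⁻¹ * (1 + 1 / J) / Real.log N := by positivity
  have hone : (1 : ℝ) / J * ((Icc 1 J).filter (fun j => ((n + K.factorial * j : ℕ) : ℤ) ∈ A)).card ≤ 1 := by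
    calc (1 : ℝ) / J * ((Icc 1 J).filter (fun j => ((n + K.factorial * j : ℕ) : ℤ) ∈ A)).card ≤
        1 / J * J := mul_le_mul_of_nonneg_left htriv (by positivity)
      _ = 1 := by field_simp
  by_cases hex : (c + gq a b m).toNat ∈ Hx N K H δ
  · rw [if_pos hex]
    split_ifs <;> linarith
  · rw [if_neg hex, add_zero]
    by_cases hcop : cop a b K c m
    · rw [if_pos hcop]
      rw [hn', Int.toNat_natCast] at hex
      unfold Hx Pool.Agent.R516.HiQ at hex
      rw [Set.mem_ofPred_eq] at hex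
      push Not at hex
      have hbN : n + K.factorial * J ≤ N := by
        rw [hn'] at hnN
        exact_mod_cast hnN
      have h1 := hex (n - 1) (n + K.factorial * J) (by omega) (by omega) hbN (by
        have h2 : ((n + K.factorial * J : ℕ) : ℝ) - ((n - 1 : ℕ) : ℝ) = K.factorial * J + 1 := by
          rw [Nat.cast_sub hn1]
          push_cast
          ring
        rw [h2]
        have h3 : (K.factorial : ℝ) * H ≤ K.factorial * J := mul_le_mul_of_nonneg_left hHJ hW0.le
        linarith)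
      have h2 : ((n + K.factorial * J : ℕ) : ℝ) - ((n - 1 : ℕ) : ℝ) = K.factorial * J + 1 := by
        rw [Nat.cast_sub hn1]
        push_cast
        ring
      rw [h2] at h1
      have h3 : ((Icc 1 J).filter (fun j => ((n + K.factorial * j : ℕ) : ℤ) ∈ A)).card ≤
          ((Ioc (n - 1) (n + K.factorial * J)).filter
            (fun p => p.Prime ∧ p % K.factorial = n % K.factorial)).card := by
        apply card_le_card_of_injOn (fun j => n + K.factorial * j)
        · intro j hj
          rw [mem_coe, mem_filter, mem_Icc] at hj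
          simp only [mem_coe, mem_filter, mem_Ioc]
          have h4 : K.factorial * j ≤ K.factorial * J := Nat.mul_le_mul_left _ hj.1.2
          have h5 := hA _ hj.2
          rw [Int.toNat_natCast] at h5
          exact ⟨⟨by omega, by omega⟩, h5, Nat.add_mul_mod_self_left _ _ _⟩
        · intro j _ j' _ h
          simp only at h
          have h4 : K.factorial * j = K.factorial * j' := by omega
          exact Nat.eq_of_mul_eq_mul_left hW1 h4
      have h4 : (((Icc 1 J).filter (fun j => ((n + K.factorial * j : ℕ) : ℤ) ∈ A)).card : ℝ) ≤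
          (18 / 5 + δ) / (Nat.totient K.factorial * Real.log N) * (K.factorial * J + 1) := by
        refine le_trans ?_ h1
        exact_mod_cast h3
      rw [tot_fact] at h4
      calc (1 : ℝ) / J * ((Icc 1 J).filter (fun j => ((n + K.factorial * j : ℕ) : ℤ) ∈ A)).card ≤
          1 / J * ((18 / 5 + δ) / (K.factorial * Vz K * Real.log N) * (K.factorial * J + 1)) :=
            mul_le_mul_of_nonneg_left h4 (by positivity)
        _ ≤ 1 / J * ((18 / 5 + δ) / (K.factorial * Vz K * Real.log N) * (K.factorial * J + K.factorial)) := by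
            apply mul_le_mul_of_nonneg_left _ (by positivity)
            apply mul_le_mul_of_nonneg_left _ (by positivity)
            have : (1 : ℝ) ≤ K.factorial := by exact_mod_cast hW1
            linarith
        _ = (18 / 5 + δ) * (Vz K)⁻¹ * (1 + 1 / J) / Real.log N := by
            field_simp
    · rw [if_neg hcop]
      unfold cop at hcop
      push Not at hcop
      obtain ⟨p, hp, hpd⟩ := hcop
      rw [mem_pz] at hp
      have h1 : (Icc 1 J).filter (fun j => ((n + K.factorial * j : ℕ) : ℤ) ∈ A) = ∅ := by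
        rw [filter_eq_empty_iff]
        intro j hj hjA
        rw [mem_Icc] at hj
        have h2 := hA _ hjA
        rw [Int.toNat_natCast] at h2
        rw [hn'] at hpd
        have h3 : p ∣ n := by exact_mod_cast hpd
        have h4 : p ∣ K.factorial := (hp.2.dvd_factorial).2 hp.1
        have h5 : p ∣ n + K.factorial * j := Nat.dvd_add h3 (h4.mul_right j)
        have h6 := (Nat.prime_dvd_prime_iff_eq hp.2 h2).1 h5
        have h7 : p ≤ K.factorial := Nat.le_of_dvd hW1 h4
        have h8 : K.factorial ≤ K.factorial * j := Nat.le_mul_of_pos_right _ hj.1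
        omega
      rw [h1]
      simp

end Pool.Agent.V8H34.TR
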