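import Mathlib
import Pool.Agent.V8H34.TR.Upper

/-!
# Short segments of quadratic polynomials: the upper bound for the local averages, summed
-/

set_option autoImplicit false

namespace Pool.Agent.V8H34.TR

open Finset Filter Topology
open Pool.Agent.H373R2.T7 (Vz pz Vz_pos nuB mem_pz sys_count PerB)
open Pool.Agent.R460.SB (Sz QS QS_perB)

theorem gq_ge (a : ℕ) (ha : 1 ≤ a) (b : ℤ) (m : ℕ) : -(b ^ 2) ≤ gq a b m := by
  unfold gq
  have h1 : (1 : ℤ) ≤ a := by exact_mod_cast ha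
  have h2 : (m : ℤ) ^ 2 ≤ a * (m : ℤ) ^ 2 := by nlinarith [sq_nonneg (m : ℤ)]
  nlinarith [sq_nonneg (2 * (m : ℤ) + b), sq_nonneg b]

theorem gq_le (a : ℕ) (b : ℤ) {m y : ℕ} (hm : m ≤ y) : gq a b m ≤ (a + b.natAbs : ℕ) * (y : ℤ) ^ 2 := by
  unfold gq
  have h1 : (m : ℤ) ≤ y := by exact_mod_cast hm
  have h0 : (0 : ℤ) ≤ m := by positivity
  have h2 : (m : ℤ) ^ 2 ≤ (y : ℤ) ^ 2 := by nlinarith
  have h3 : (m : ℤ) ≤ (m : ℤ) ^ 2 := by
    rcases Nat.eq_zero_or_pos m with h | h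
    · rw [h]; norm_num
    · have : (1 : ℤ) ≤ m := by exact_mod_cast h
      nlinarith
  have h4 : b ≤ b.natAbs := by omega
  have h5 : (0 : ℤ) ≤ b.natAbs := by positivity
  have h6 : b * m ≤ b.natAbs * m := mul_le_mul_of_nonneg_right h4 h0
  have h7 : (b.natAbs : ℤ) * m ≤ b.natAbs * (y : ℤ) ^ 2 := mul_le_mul_of_nonneg_left (h3.trans h2) h5
  have h8 : (a : ℤ) * (m : ℤ) ^ 2 ≤ a * (y : ℤ) ^ 2 := mul_le_mul_of_nonneg_left h2 (by positivity)
  push_cast
  push_cast at h6 h7
  linarith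

theorem loc_le (a : ℕ) (b : ℤ) {A : Finset ℤ} {N K J y : ℕ} {H δ : ℝ} {c : ℤ} (hδ : 0 ≤ δ)
    (hA : ∀ n ∈ A, n.toNat.Prime) (hN1 : 2 ≤ N) (hJ : 1 ≤ J) (hHJ : H ≤ J)
    (hn : ∀ m ∈ Icc 1 y, 1 ≤ c + gq a b m)
    (hnN : ∀ m ∈ Icc 1 y, c + gq a b m + (K.factorial * J : ℕ) ≤ N) :
    loc a b A K.factorial J y c ≤
      ncop a b K c y * ((18 / 5 + δ) * (Vz K)⁻¹ * (1 + 1 / J) / Real.log N) + exc a b N K H δ y c := by
  classical
  unfold loc
  refine (sum_le_sum fun m hm => point a b hδ hA hN1 hJ hHJ (hn m hm) (hnN m hm)).trans ?_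
  rw [sum_add_distrib, ← sum_filter, sum_const, nsmul_eq_mul]
  apply le_of_eq
  congr 1
  unfold exc
  rw [card_filter]
  push_cast
  rfl

open Classical in
theorem exc_sum (a : ℕ) (b : ℤ) (N K : ℕ) (H δ : ℝ) (y : ℕ) (C : Finset ℤ) :
    (∑ c ∈ C, (exc a b N K H δ y c : ℝ)) ≤
      y * (((Icc 1 N).filter (fun n => n ∈ Hx N K H δ)).card : ℝ) := by
  have h1 : ∀ m ∈ Icc 1 y, (C.filter (fun c => (c + gq a b m).toNat ∈ Hx N K H δ)).card ≤
      ((Icc 1 N).filter (fun n => n ∈ Hx N K H δ)).card := by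
    intro m _
    have h3 : ∀ n : ℕ, n ∈ Hx N K H δ → 1 ≤ n ∧ n ≤ N := by
      intro n hn
      obtain ⟨a', b', h4, h5, h6, -⟩ := hn
      exact ⟨by omega, by omega⟩
    apply card_le_card_of_injOn (fun c => (c + gq a b m).toNat)
    · intro c hc
      rw [mem_coe, mem_filter] at hc
      simp only [mem_coe, mem_filter, mem_Icc]
      exact ⟨h3 _ hc.2, hc.2⟩
    · intro c hc c' hc' h
      rw [mem_coe, mem_filter] at hc hc'
      have h4 := (h3 _ hc.2).1
      have h5 := (h3 _ hc'.2).1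
      simp only at h
      omega
  have h2 : ∑ c ∈ C, exc a b N K H δ y c =
      ∑ m ∈ Icc 1 y, (C.filter (fun c => (c + gq a b m).toNat ∈ Hx N K H δ)).card := by
    unfold exc
    simp_rw [card_filter]
    exact sum_comm
  have h3 : ∑ c ∈ C, exc a b N K H δ y c ≤
      y * ((Icc 1 N).filter (fun n => n ∈ Hx N K H δ)).card := by
    rw [h2]
    refine (sum_le_sum h1).trans ?_
    rw [sum_const, Nat.card_Icc, smul_eq_mul, Nat.add_sub_cancel]
  exact_mod_cast h3

theorem ev_rpow_nat (C : ℝ) {s : ℝ} (hs : 0 < s) : ∀ᶠ X : ℕ in atTop, C ≤ (X : ℝ) ^ s :=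
  ((tendsto_rpow_atTop hs).comp tendsto_natCast_atTop_atTop).eventually (eventually_ge_atTop C)

theorem ev_log_rpow (k : ℕ) {s c : ℝ} (hs : 0 < s) (hc : 0 < c) :
    ∀ᶠ X : ℕ in atTop, Real.log X ^ k ≤ c * (X : ℝ) ^ s := by
  have h := (isLittleO_log_rpow_rpow_atTop (k : ℝ) hs).def hc
  have h2 := tendsto_natCast_atTop_atTop.eventually h
  filter_upwards [h2, eventually_ge_atTop 1] with X hX hX1
  have hX1' : (1 : ℝ) ≤ X := by exact_mod_cast hX1
  have h3 : 0 ≤ Real.log X := Real.log_nonneg hX1'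
  rw [Real.rpow_natCast, Real.norm_of_nonneg (by positivity), Real.norm_of_nonneg (by positivity)] at hX
  exact hX

/-- **The upper bound for the local averages.** -/
theorem upper (a : ℕ) (ha : 1 ≤ a) (b : ℤ) (θ : ℝ) (hθ : 0 < θ) (δ : ℝ) (hδ : 0 < δ) (hδ1 : δ ≤ 1)
    (K : ℕ) (hK : 1 ≤ K) (κ : ℝ) (hκ : 0 < κ) (hκK : κ * K.factorial ≤ 1) :
    ∀ᶠ X : ℕ in atTop, ∀ y : ℕ, (X : ℝ) ^ θ ≤ y → y ^ 2 ≤ X → ∃ ex : ℤ → ℝ, (∀ c, 0 ≤ ex c) ∧
      (∑ c ∈ Icc 1 (X : ℤ), ex c ≤ δ * (X * (y / Real.log X))) ∧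
      ∀ A : Finset ℤ, (∀ n ∈ A, n.toNat.Prime) → ∀ c : ℤ, (y : ℤ) + b ^ 2 < c → c ≤ X →
        loc a b A K.factorial ⌊κ * (y : ℝ) ^ 2⌋₊ y c ≤
          (18 / 5 + δ) * SK a b K c * (y / Real.log X) + δ * (y / Real.log X) + ex c := by
  classical
  obtain ⟨κQ, hκQ, N0, hQ⟩ := Pool.Agent.R516.winUQ Pool.Agent.R516.coreq (δ / 8) (by positivity)
  set C1 : ℕ := a + b.natAbs + 3 with hC1
  have hC1p : 1 ≤ C1 := by omega
  have hC1R : (1 : ℝ) ≤ C1 := by exact_mod_cast hC1p
  set s : ℝ := min (min κQ θ) (1 / 2) with hs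
  have hs0 : 0 < s := by positivity
  have hsQ : s ≤ κQ := (min_le_left _ _).trans (min_le_left _ _)
  have hsθ : s ≤ θ := (min_le_left _ _).trans (min_le_right _ _)
  have hs2 : s ≤ 1 / 2 := min_le_right _ _
  have hV := Vz_pos K
  have hW0 : (0 : ℝ) < K.factorial := by
    have := Nat.factorial_pos K
    exact_mod_cast this
  obtain ⟨Y0, hY0⟩ := eventually_atTop.1 (count_cop a ha b K hK)
  -- the condition on the size of `J`
  have hC1s : (0 : ℝ) < (C1 : ℝ) ^ s := by positivity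
  filter_upwards [eventually_ge_atTop N0, eventually_ge_atTop 2, ev_rpow_nat (Y0 : ℝ) hθ,
    ev_rpow_nat (((C1 : ℝ) ^ s + 41 / δ + 1) / κ) hθ, ev_rpow_nat 1 hθ, ev_rpow_nat (K.factorial : ℝ) (by norm_num : (0:ℝ) < 1 / 2),
    (tendsto_natCast_atTop_atTop (R := ℝ)).eventually (eventually_ge_atTop (0 : ℝ)),
    ev_log_nat (5 * (Vz K)⁻¹ / (δ * θ)),
    (tendsto_id.const_mul_atTop' (by omega : 0 < C1)).eventually
      (ev_log_rpow 23 hs0 (by positivity : 0 < δ / C1))] with X hXN0 hX2 hXY hXJ hX1θ hXW _ hXV hXL y hy1 hy2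
  have hX0 : (0 : ℝ) < X := by
    have : 0 < X := by omega
    exact_mod_cast this
  have hX1R : (1 : ℝ) ≤ X := by exact_mod_cast (by omega : 1 ≤ X)
  have hy1' : (1 : ℝ) ≤ y := hX1θ.trans hy1
  have hy1n : 1 ≤ y := by exact_mod_cast hy1'
  have hy2R : (y : ℝ) ^ 2 ≤ X := by exact_mod_cast hy2
  have hlogX : 0 < Real.log X := Real.log_pos (by exact_mod_cast (by omega : 1 < X))
  set N := C1 * X with hN
  have hNX : X ≤ N := Nat.le_mul_of_pos_left _ (by omega)
  have hNR : (N : ℝ) = C1 * X := by rw [hN]; push_cast; rfl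
  have hNXR : (X : ℝ) ≤ N := by exact_mod_cast hNX
  have hN0R : (0 : ℝ) < N := by linarith
  have hlogN : Real.log X ≤ Real.log N := Real.log_le_log hX0 hNXR
  set H : ℝ := (N : ℝ) ^ s with hH
  have hH1 : 1 ≤ H := Real.one_le_rpow (by linarith) hs0.le
  set J := ⌊κ * (y : ℝ) ^ 2⌋₊ with hJd
  have hyy : (y : ℝ) ^ 2 ≥ (X : ℝ) ^ θ * (X : ℝ) ^ θ := by
    have h0 : 0 ≤ (X : ℝ) ^ θ := by positivity
    nlinarith
  have hJbig : (C1 : ℝ) ^ s * (X : ℝ) ^ θ + 41 / δ + 1 ≤ κ * (y : ℝ) ^ 2 := by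
    rw [div_le_iff₀ hκ] at hXJ
    have h0 : 0 < (X : ℝ) ^ θ := by positivity
    have h41 : 0 < 41 / δ := by positivity
    calc (C1 : ℝ) ^ s * (X : ℝ) ^ θ + 41 / δ + 1 ≤
        (C1 : ℝ) ^ s * (X : ℝ) ^ θ + (41 / δ + 1) * (X : ℝ) ^ θ := by nlinarith
      _ = ((C1 : ℝ) ^ s + 41 / δ + 1) * (X : ℝ) ^ θ := by ring
      _ ≤ ((X : ℝ) ^ θ * κ) * (X : ℝ) ^ θ := mul_le_mul_of_nonneg_right hXJ h0.le
      _ = κ * ((X : ℝ) ^ θ * (X : ℝ) ^ θ) := by ring
      _ ≤ κ * (y : ℝ) ^ 2 := mul_le_mul_of_nonneg_left hyy hκ.le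
  have hJge : (C1 : ℝ) ^ s * (X : ℝ) ^ θ + 41 / δ ≤ J := by
    have h1 := Nat.lt_floor_add_one (κ * (y : ℝ) ^ 2)
    rw [← hJd] at h1
    linarith
  have hHle : H ≤ (C1 : ℝ) ^ s * (X : ℝ) ^ θ := by
    rw [hH, hNR, Real.mul_rpow (by positivity) hX0.le]
    apply mul_le_mul_of_nonneg_left _ hC1s.le
    exact Real.rpow_le_rpow_of_exponent_le hX1R hsθ
  have h41 : 0 < 41 / δ := by positivity
  have hHJ : H ≤ J := by linarith
  have hJ40 : 41 / δ ≤ J := by
    have : 0 ≤ (C1 : ℝ) ^ s * (X : ℝ) ^ θ := by positivity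
    linarith
  have hJ0 : (0 : ℝ) < J := by linarith
  have hJ1 : 1 ≤ J := by
    have : 0 < J := by exact_mod_cast hJ0
    exact this
  refine ⟨fun c => exc a b N K H (δ / 8) y c, fun c => by positivity, ?_, ?_⟩
  · -- the exceptional set
    refine (exc_sum a b N K H (δ / 8) y (Icc 1 (X : ℤ))).trans ?_
    have h1 := hQ N (by omega) K.factorial (Nat.factorial_pos K) H hH1
      (Real.rpow_le_rpow_of_exponent_le (by linarith) hsQ) (by
        calc (K.factorial : ℝ) * H ≤ (X : ℝ) ^ (1 / 2 : ℝ) * (N : ℝ) ^ (1 / 2 : ℝ) := by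
              apply mul_le_mul hXW _ (by positivity) (by positivity)
              exact Real.rpow_le_rpow_of_exponent_le (by linarith) hs2
          _ ≤ (N : ℝ) ^ (1 / 2 : ℝ) * (N : ℝ) ^ (1 / 2 : ℝ) := by
              apply mul_le_mul_of_nonneg_right _ (by positivity)
              exact Real.rpow_le_rpow hX0.le hNXR (by norm_num)
          _ = N := by
              rw [← Real.rpow_add hN0R]
              norm_num)
    have h2 : (((Icc 1 N).filter (fun n => n ∈ Hx N K H (δ / 8))).card : ℝ) ≤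
        N * (Real.log N) ^ 21 / H := by
      refine le_trans (le_of_eq ?_) h1
      unfold Hx
      congr 2
    have h3 : (N : ℝ) * (Real.log N) ^ 21 / H ≤ δ * (X / Real.log X) := by
      have h4 : Real.log N ^ 23 ≤ δ / C1 * H := by
        have h5 := hXL
        simp only [id] at h5
        rw [hH, hN]
        exact h5
      have hlN1 : 0 < Real.log N := by linarith
      rw [div_le_iff₀ (by linarith)]
      have h5 : Real.log N ^ 21 * Real.log X ≤ δ / C1 * H := by
        have h6 : Real.log N ^ 21 * Real.log X ≤ Real.log N ^ 23 := by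
          have h8 : 1 ≤ Real.log N := by
            have hVV : 0 < (Vz K)⁻¹ := inv_pos.2 hV
            by_contra h9
            push Not at h9
            -- log N < 1 is impossible as log N ≥ log X
            have hN3 : (3 : ℝ) ≤ N := by
              rw [hNR]
              have : (3 : ℝ) ≤ C1 := by
                rw [hC1]
                push_cast
                have h10 : (1 : ℝ) ≤ a := by exact_mod_cast ha
                have h11 : (0 : ℝ) ≤ b.natAbs := by positivity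
                linarith
              nlinarith
            have h12 : 1 < Real.log N := by
              rw [Real.lt_log_iff_exp_lt hN0R]
              have := Real.exp_one_lt_d9
              linarith
            linarith
          calc Real.log N ^ 21 * Real.log X ≤ Real.log N ^ 21 * Real.log N := by gcongr
            _ = Real.log N ^ 22 := by ring
            _ ≤ Real.log N ^ 23 := pow_le_pow_right₀ h8 (by norm_num)
        exact h6.trans h4
      calc (N : ℝ) * Real.log N ^ 21 = C1 * X * Real.log N ^ 21 :=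
            congrArg (fun t : ℝ => t * Real.log N ^ 21) hNR
        _ = C1 * X * (Real.log N ^ 21 * Real.log X) / Real.log X := by
            field_simp
        _ ≤ C1 * X * (δ / C1 * H) / Real.log X := by gcongr
        _ = δ * (X / Real.log X) * H := by field_simp
    calc (y : ℝ) * (((Icc 1 N).filter (fun n => n ∈ Hx N K H (δ / 8))).card : ℝ) ≤
        y * (δ * (X / Real.log X)) := mul_le_mul_of_nonneg_left (h2.trans h3) (by positivity)
      _ = δ * (X * (y / Real.log X)) := by ring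
  · intro A hA c hc1 hc2
    have hb2 : 0 ≤ b ^ 2 := sq_nonneg b
    have hn1 : ∀ m ∈ Icc 1 y, 1 ≤ c + gq a b m := by
      intro m _
      have h1 := gq_ge a ha b m
      omega
    have hnN : ∀ m ∈ Icc 1 y, c + gq a b m + (K.factorial * J : ℕ) ≤ N := by
      intro m hm
      rw [mem_Icc] at hm
      have h1 := gq_le a b hm.2
      have h2 : ((K.factorial * J : ℕ) : ℝ) ≤ X := by
        push_cast
        calc (K.factorial : ℝ) * J ≤ K.factorial * (κ * (y : ℝ) ^ 2) :=
              mul_le_mul_of_nonneg_left (Nat.floor_le (by positivity)) hW0.le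
          _ = (κ * K.factorial) * (y : ℝ) ^ 2 := by ring
          _ ≤ 1 * (y : ℝ) ^ 2 := by gcongr
          _ ≤ X := by linarith
      have h3 : ((K.factorial * J : ℕ) : ℤ) ≤ X := by exact_mod_cast h2
      have h4 : ((a + b.natAbs : ℕ) : ℤ) * (y : ℤ) ^ 2 ≤ ((a + b.natAbs : ℕ) : ℤ) * X := by
        apply mul_le_mul_of_nonneg_left _ (by positivity)
        exact_mod_cast hy2
      have h5 : (N : ℤ) = ((a + b.natAbs : ℕ) : ℤ) * X + 3 * X := by
        rw [hN, hC1]
        push_cast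
        ring
      have h6 : (0 : ℤ) ≤ X := by positivity
      omega
    have h1 := loc_le a b (H := H) (δ := δ / 8) (K := K) (by positivity) hA (by omega : 2 ≤ N) hJ1 hHJ hn1 hnN
    refine h1.trans ?_
    have h2 := hY0 y (by
      have : (Y0 : ℝ) ≤ y := hXY.trans hy1
      exact_mod_cast this) c
    rw [abs_le] at h2
    have hlogy : θ * Real.log X ≤ Real.log y := by
      have h3 := Real.log_le_log (by positivity) hy1
      rwa [Real.log_rpow hX0] at h3
    have hlogy0 : 0 < Real.log y := lt_of_lt_of_le (by positivity) hlogy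
    have hS := SK_nonneg a b K c
    -- the main computation
    have h3 : (ncop a b K c y : ℝ) ≤ y * (Vz K * SK a b K c) + y / (θ * Real.log X) := by
      have h4 : (y : ℝ) / Real.log y ≤ y / (θ * Real.log X) :=
        div_le_div_of_nonneg_left (by positivity) (by positivity) hlogy
      linarith [h2.2]
    have h4 : (18 / 5 + δ / 8) * (1 + 1 / J) ≤ 18 / 5 + δ / 4 := by
      have h5 : 1 / (J : ℝ) ≤ δ / 41 := by
        rw [div_le_div_iff₀ hJ0 (by norm_num)]
        rw [div_le_iff₀ hδ] at hJ40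
        linarith
      have h6 : 0 ≤ 1 / (J : ℝ) := by positivity
      nlinarith
    have h5 : (18 / 5 + δ / 8) * (Vz K)⁻¹ * (1 + 1 / J) / Real.log N ≤
        (18 / 5 + δ / 4) * (Vz K)⁻¹ / Real.log X := by
      calc (18 / 5 + δ / 8) * (Vz K)⁻¹ * (1 + 1 / J) / Real.log N =
          (18 / 5 + δ / 8) * (1 + 1 / J) * (Vz K)⁻¹ / Real.log N := by ring
        _ ≤ (18 / 5 + δ / 4) * (Vz K)⁻¹ / Real.log X := by
            have := inv_pos.2 hV
            gcongr
    have h6 : (ncop a b K c y : ℝ) * ((18 / 5 + δ / 8) * (Vz K)⁻¹ * (1 + 1 / J) / Real.log N) ≤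
        (y * (Vz K * SK a b K c) + y / (θ * Real.log X)) *
          ((18 / 5 + δ / 4) * (Vz K)⁻¹ / Real.log X) := by
      have := inv_pos.2 hV
      apply mul_le_mul h3 h5 (by positivity)
      positivity
    have h7 : (y * (Vz K * SK a b K c) + y / (θ * Real.log X)) *
          ((18 / 5 + δ / 4) * (Vz K)⁻¹ / Real.log X) =
        (18 / 5 + δ / 4) * SK a b K c * (y / Real.log X) +
        (18 / 5 + δ / 4) * (Vz K)⁻¹ / (θ * Real.log X) * (y / Real.log X) := by
      field_simp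
    have h8 : (18 / 5 + δ / 4) * (Vz K)⁻¹ / (θ * Real.log X) ≤ δ := by
      have hVi := inv_pos.2 hV
      rw [div_le_iff₀ (by positivity)]
      rw [div_le_iff₀ (by positivity)] at hXV
      have h9 : (18 / 5 + δ / 4) * (Vz K)⁻¹ ≤ 5 * (Vz K)⁻¹ := by
        apply mul_le_mul_of_nonneg_right _ hVi.le
        linarith
      linarith
    have hyL : 0 ≤ (y : ℝ) / Real.log X := by positivity
    have h9 : (18 / 5 + δ / 4) * SK a b K c * (y / Real.log X) ≤
        (18 / 5 + δ) * SK a b K c * (y / Real.log X) := by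
      gcongr
      linarith
    have h10 := mul_le_mul_of_nonneg_right h8 hyL
    linarith

end Pool.Agent.V8H34.TR
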