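import Mathlib
import Pool.Agent.V8H34.TR.Up2
import Pool.Agent.H373R2.T7.LamMaj

/-!
# Short segments of quadratic polynomials: the first moment
-/

set_option autoImplicit false

namespace Pool.Agent.V8H34.TR

open Finset Filter Topology
open Pool.Agent.H373R2.T7 (Vz pz Vz_pos nuB mem_pz sys_count PerB lam_ap)
open Pool.Agent.R460.SB (Sz QS QS_perB)

open scoped ArithmeticFunction.vonMangoldt

/-- the product is periodic -/
theorem SK_per (a : ℕ) (b : ℤ) (K : ℕ) {c c' : ℤ} (h : (K.factorial : ℤ) ∣ c - c') :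
    SK a b K c = SK a b K c' := by
  unfold SK Sz
  congr 1
  apply prod_congr rfl
  intro p hp
  rw [mem_pz] at hp
  have h1 : (p : ℤ) ∣ c - c' :=
    (Int.natCast_dvd_natCast.2 ((hp.2.dvd_factorial).2 hp.1)).trans h
  have h2 : nuB (QS (-(a : ℤ)) (-b) c) p = nuB (QS (-(a : ℤ)) (-b) c') p := by
    unfold nuB
    congr 1
    ext r
    simp only [mem_filter]
    have h3 : QS (-(a : ℤ)) (-b) c p r ↔ QS (-(a : ℤ)) (-b) c' p r := by
      unfold QS
      have h4 : c - (-(a : ℤ) * (r : ℤ) ^ 2 + -b * (r : ℤ)) =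
          (c - c') + (c' - (-(a : ℤ) * (r : ℤ) ^ 2 + -b * (r : ℤ))) := by ring
      rw [h4, dvd_add_right h1]
    rw [h3]
  rw [h2]

/-- the weights -/
noncomputable def wt (a : ℕ) (b : ℤ) (K : ℕ) (τ : ℝ) (c : ℤ) : ℝ :=
  if τ ≤ SK a b K c then 1 / SK a b K c else 0

theorem wt_nonneg (a : ℕ) (b : ℤ) (K : ℕ) (τ : ℝ) (c : ℤ) : 0 ≤ wt a b K τ c := by
  unfold wt
  have := SK_nonneg a b K c
  split_ifs <;> positivity

theorem wt_le (a : ℕ) (b : ℤ) (K : ℕ) {τ : ℝ} (hτ : 0 < τ) (c : ℤ) : wt a b K τ c ≤ 1 / τ := by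
  unfold wt
  split_ifs with h
  · exact one_div_le_one_div_of_le hτ h
  · positivity

theorem wt_per (a : ℕ) (b : ℤ) (K : ℕ) (τ : ℝ) {c c' : ℤ} (h : (K.factorial : ℤ) ∣ c - c') :
    wt a b K τ c = wt a b K τ c' := by
  unfold wt
  rw [SK_per a b K h]

/-- sums over all classes -/
theorem class_sum {W : ℕ} (hW : 1 ≤ W) (X : ℕ) (w F : ℕ → ℝ) (hw : ∀ c, w c = w (c % W)) :
    ∑ c ∈ Icc 1 X, w c * F c = ∑ r ∈ range W, w r * ∑ c ∈ (Icc 1 X).filter (fun c => c % W = r), F c := by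
  rw [← sum_fiberwise_of_maps_to (s := Icc 1 X) (t := range W) (g := fun c => c % W)
    (fun c _ => mem_range.2 (Nat.mod_lt _ hW))]
  apply sum_congr rfl
  intro r _
  rw [mul_sum]
  apply sum_congr rfl
  intro c hc
  rw [mem_filter] at hc
  rw [hw c, hc.2]

/-- `Λ` in a class on a shifted interval -/
theorem lam_shift {W N X g : ℕ} {E : ℝ} (hN : g + X ≤ N)
    (hE : ∀ c y : ℕ, y ≤ N → |∑ n ∈ (Icc 1 y).filter (fun n => n ≡ c [MOD W]), Λ n -
      (if c.Coprime W then (y : ℝ) / (Nat.totient W : ℝ) else 0)| ≤ E) (r : ℕ) (hr : r < W) :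
    (if (r + g).Coprime W then (X : ℝ) / (Nat.totient W : ℝ) else 0) - 2 * E ≤
      ∑ c ∈ (Icc 1 X).filter (fun c => c % W = r), Λ (c + g) := by
  have h1 := hE (r + g) (g + X) hN
  have h2 := hE (r + g) g (by omega)
  rw [abs_le] at h1 h2
  have h3 : ∑ c ∈ (Icc 1 X).filter (fun c => c % W = r), Λ (c + g) =
      ∑ n ∈ (Icc 1 (g + X)).filter (fun n => n ≡ r + g [MOD W]), Λ n -
      ∑ n ∈ (Icc 1 g).filter (fun n => n ≡ r + g [MOD W]), Λ n := by
    rw [eq_sub_iff_add_eq]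
    have e1 : (Icc 1 (g + X)).filter (fun n => n ≡ r + g [MOD W]) =
        ((Icc 1 X).filter (fun c => c % W = r)).image (fun c => c + g) ∪
        (Icc 1 g).filter (fun n => n ≡ r + g [MOD W]) := by
      ext n
      simp only [mem_union, mem_filter, mem_image, mem_Icc]
      constructor
      · rintro ⟨⟨h4, h5⟩, h6⟩
        rcases Nat.lt_or_ge g n with h7 | h7
        · left
          refine ⟨n - g, ⟨⟨by omega, by omega⟩, ?_⟩, by omega⟩
          have h8 : n - g + g ≡ r + g [MOD W] := by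
            have h9 : n - g + g = n := by omega
            rw [h9]
            exact h6
          have h9 := Nat.ModEq.add_right_cancel' g h8
          unfold Nat.ModEq at h9
          rw [Nat.mod_eq_of_lt hr] at h9
          exact h9
        · right
          exact ⟨⟨h4, h7⟩, h6⟩
      · rintro (⟨c, ⟨⟨h4, h5⟩, h6⟩, h7⟩ | ⟨⟨h4, h5⟩, h6⟩)
        · refine ⟨⟨by omega, by omega⟩, ?_⟩
          rw [← h7]
          apply Nat.ModEq.add_right
          unfold Nat.ModEq
          rw [h6, Nat.mod_eq_of_lt hr]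
        · exact ⟨⟨h4, by omega⟩, h6⟩
    rw [e1, sum_union, sum_image]
    · intro c _ c' _ h
      simp only at h
      omega
    · rw [disjoint_left]
      intro n h4 h5
      simp only [mem_image, mem_filter, mem_Icc] at h4 h5
      obtain ⟨c, h6, h7⟩ := h4
      omega
  rw [h3]
  split_ifs at h1 h2 ⊢ with hc
  · have h4 : ((g + X : ℕ) : ℝ) / (Nat.totient W : ℝ) = g / (Nat.totient W : ℝ) + X / (Nat.totient W : ℝ) := by
      push_cast
      ring
    rw [h4] at h1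
    linarith [h1.1, h2.2]
  · linarith [h1.1, h2.2]

/-- the primes up to `N` as integers -/
def PrN (N : ℕ) : Finset ℤ := ((Icc 1 N).filter Nat.Prime).image (fun p : ℕ => (p : ℤ))

theorem ind_PrN {N n : ℕ} (hn : n ≤ N) : ind (PrN N) (n : ℤ) = if n.Prime then 1 else 0 := by
  unfold ind PrN
  by_cases hp : n.Prime
  · rw [if_pos hp, if_pos]
    rw [mem_image]
    exact ⟨n, by rw [mem_filter, mem_Icc]; exact ⟨⟨hp.one_le, hn⟩, hp⟩, rfl⟩
  · rw [if_neg hp, if_neg]
    intro h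
    rw [mem_image] at h
    obtain ⟨p, h1, h2⟩ := h
    rw [mem_filter] at h1
    have : p = n := by exact_mod_cast h2
    rw [this] at h1
    exact hp h1.2

/-- `Λ` at the integers which are not primes -/
noncomputable def Lnp (n : ℕ) : ℝ := if n.Prime then 0 else Λ n

theorem Lnp_nonneg (n : ℕ) : 0 ≤ Lnp n := by
  unfold Lnp
  split_ifs
  · exact le_rfl
  · exact ArithmeticFunction.vonMangoldt_nonneg

theorem Lnp_sum (N : ℕ) (hN : 1 ≤ N) : ∑ n ∈ Icc 1 N, Lnp n ≤ 2 * √(N : ℝ) * Real.log N := by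
  have h1 := Chebyshev.psi_sub_theta_le (x := (N : ℝ)) (by exact_mod_cast hN)
  rw [Chebyshev.psi_sub_theta_eq_sum_not_prime, Nat.floor_natCast] at h1
  refine le_trans (le_of_eq ?_) h1
  have h2 : Icc 1 N = Ioc 0 N := by
    ext n
    rw [mem_Icc, mem_Ioc]
    omega
  rw [h2, sum_filter]
  apply sum_congr rfl
  intro n _
  unfold Lnp
  by_cases hp : n.Prime
  · rw [if_pos hp, if_neg (not_not.2 hp)]
  · rw [if_neg hp, if_pos hp]

theorem Lnp_shift {N X g : ℕ} (hN : g + X ≤ N) : ∑ c ∈ Icc 1 X, Lnp (c + g) ≤ ∑ n ∈ Icc 1 N, Lnp n := by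
  have h1 : ∑ c ∈ Icc 1 X, Lnp (c + g) = ∑ n ∈ (Icc 1 X).image (fun c => c + g), Lnp n := by
    rw [sum_image]
    intro c _ c' _ h
    simp only at h
    omega
  rw [h1]
  apply sum_le_sum_of_subset_of_nonneg
  · intro n hn
    rw [mem_image] at hn
    obtain ⟨c, h2, h3⟩ := hn
    rw [mem_Icc] at h2 ⊢
    omega
  · intro n _ _
    exact Lnp_nonneg n

/-- one shift -/
theorem fm_one {W N X g : ℕ} {E B : ℝ} {w : ℕ → ℝ} (hW : 1 ≤ W) (hN : g + X ≤ N) (hN2 : 2 ≤ N)
    (hw0 : ∀ c, 0 ≤ w c) (hwB : ∀ c, w c ≤ B) (hw : ∀ c, w c = w (c % W)) (hE0 : 0 ≤ E)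
    (hE : ∀ c y : ℕ, y ≤ N → |∑ n ∈ (Icc 1 y).filter (fun n => n ≡ c [MOD W]), Λ n -
      (if c.Coprime W then (y : ℝ) / (Nat.totient W : ℝ) else 0)| ≤ E) :
    (∑ r ∈ range W, w r * (if (r + g).Coprime W then (X : ℝ) / (Nat.totient W : ℝ) else 0)) -
      (2 * E * W * B + 2 * B * √(N : ℝ) * Real.log N) ≤
      Real.log N * ∑ c ∈ Icc 1 X, w c * ind (PrN N) ((c + g : ℕ) : ℤ) := by
  have hlogN : 0 < Real.log N := Real.log_pos (by exact_mod_cast hN2)
  have hB0 : 0 ≤ B := (hw0 0).trans (hwB 0)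
  have h1 : ∀ c ∈ Icc 1 X, w c * Λ (c + g) - w c * Lnp (c + g) ≤
      Real.log N * (w c * ind (PrN N) ((c + g : ℕ) : ℤ)) := by
    intro c hc
    rw [mem_Icc] at hc
    rw [ind_PrN (by omega : c + g ≤ N)]
    unfold Lnp
    by_cases hp : (c + g).Prime
    · rw [if_pos hp, if_pos hp, mul_zero, sub_zero, mul_one, mul_comm]
      apply mul_le_mul_of_nonneg_right _ (hw0 c)
      refine ArithmeticFunction.vonMangoldt_le_log.trans ?_
      apply Real.log_le_log
      · have : 0 < c + g := by omega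
        exact_mod_cast this
      · exact_mod_cast (by omega : c + g ≤ N)
    · rw [if_neg hp, if_neg hp]
      simp
  have h2 := sum_le_sum h1
  rw [sum_sub_distrib, ← mul_sum] at h2
  refine le_trans ?_ h2
  have h3 : ∑ c ∈ Icc 1 X, w c * Lnp (c + g) ≤ 2 * B * √(N : ℝ) * Real.log N := by
    calc ∑ c ∈ Icc 1 X, w c * Lnp (c + g) ≤ ∑ c ∈ Icc 1 X, B * Lnp (c + g) :=
          sum_le_sum fun c _ => mul_le_mul_of_nonneg_right (hwB c) (Lnp_nonneg _)
      _ = B * ∑ c ∈ Icc 1 X, Lnp (c + g) := by rw [mul_sum]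
      _ ≤ B * (2 * √(N : ℝ) * Real.log N) :=
          mul_le_mul_of_nonneg_left ((Lnp_shift hN).trans (Lnp_sum N (by omega))) hB0
      _ = 2 * B * √(N : ℝ) * Real.log N := by ring
  rw [class_sum hW X w (fun c => Λ (c + g)) hw]
  have h4 : ∀ r ∈ range W, w r * (if (r + g).Coprime W then (X : ℝ) / (Nat.totient W : ℝ) else 0) -
      2 * E * B ≤ w r * ∑ c ∈ (Icc 1 X).filter (fun c => c % W = r), Λ (c + g) := by
    intro r hr
    have h5 := mul_le_mul_of_nonneg_left (lam_shift hN hE r (mem_range.1 hr)) (hw0 r)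
    have h6 : w r * (2 * E) ≤ B * (2 * E) := mul_le_mul_of_nonneg_right (hwB r) (by positivity)
    rw [mul_sub] at h5
    linarith
  have h5 := sum_le_sum h4
  rw [sum_sub_distrib, sum_const, card_range, nsmul_eq_mul] at h5
  linarith

end Pool.Agent.V8H34.TR
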