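import Mathlib
import Pool.Agent.V8H34.TR.FM

/-!
# Short segments of quadratic polynomials: the first moment, summed
-/

set_option autoImplicit false

namespace Pool.Agent.V8H34.TR

open Finset Filter Topology
open Pool.Agent.H373R2.T7 (Vz pz Vz_pos nuB mem_pz sys_count PerB lam_ap)

open scoped ArithmeticFunction.vonMangoldt

theorem Icc_cast (X : ℕ) : Icc 1 (X : ℤ) = (Icc 1 X).image (fun c : ℕ => (c : ℤ)) := by
  ext c
  rw [mem_Icc, mem_image]
  constructor
  · rintro ⟨h1, h2⟩
    obtain ⟨k, rfl⟩ := Int.eq_ofNat_of_zero_le (by omega : 0 ≤ c)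
    exact ⟨k, by rw [mem_Icc]; omega, rfl⟩
  · rintro ⟨k, h1, rfl⟩
    rw [mem_Icc] at h1
    omega

theorem sum_int_Icc (X : ℕ) (f : ℤ → ℝ) : ∑ c ∈ Icc 1 (X : ℤ), f c = ∑ c ∈ Icc 1 X, f (c : ℤ) := by
  rw [Icc_cast, sum_image]
  intro c _ c' _ h
  simp only at h
  omega

theorem cop_coprime (a : ℕ) (b : ℤ) (K r m g : ℕ) (hg : (g : ℤ) = gq a b m) :
    (r + g).Coprime K.factorial ↔ cop a b K (r : ℤ) m := by
  unfold cop
  rw [← hg]
  constructor
  · intro h p hp hd
    rw [mem_pz] at hp
    have h1 : p ∣ r + g := by exact_mod_cast hd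
    have h2 := Nat.dvd_gcd h1 ((hp.2.dvd_factorial).2 hp.1)
    rw [h] at h2
    exact hp.2.one_lt.ne' (Nat.dvd_one.1 h2)
  · intro h
    rw [Nat.coprime_iff_gcd_eq_one]
    by_contra h1
    obtain ⟨p, hp, hpd⟩ := Nat.exists_prime_and_dvd h1
    have h2 : p ∣ K.factorial := hpd.trans (Nat.gcd_dvd_right _ _)
    have h3 : p ∣ r + g := hpd.trans (Nat.gcd_dvd_left _ _)
    exact h p (by rw [mem_pz]; exact ⟨(hp.dvd_factorial).1 h2, hp⟩) (by exact_mod_cast h3)

open Classical in
/-- the number of the admissible residue classes -/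
theorem G_card (a : ℕ) (b : ℤ) (K X : ℕ) (τ : ℝ) :
    (((Icc 1 X).filter (fun c : ℕ => τ ≤ SK a b K (c : ℤ))).card : ℝ) ≤
      (X : ℝ) / K.factorial * (((range K.factorial).filter (fun r : ℕ => τ ≤ SK a b K (r : ℤ))).card : ℝ) +
        K.factorial := by
  have hW : 0 < K.factorial := Nat.factorial_pos K
  have hW0 : (0 : ℝ) < K.factorial := by exact_mod_cast hW
  set R := (range K.factorial).filter (fun r : ℕ => τ ≤ SK a b K (r : ℤ)) with hR
  have hmap : ∀ c ∈ (Icc 1 X).filter (fun c : ℕ => τ ≤ SK a b K (c : ℤ)), c % K.factorial ∈ R := by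
    intro c hc
    rw [mem_filter] at hc
    rw [hR, mem_filter, mem_range]
    refine ⟨Nat.mod_lt _ hW, ?_⟩
    have h1 : SK a b K ((c % K.factorial : ℕ) : ℤ) = SK a b K (c : ℤ) := by
      apply SK_per
      push_cast
      exact Int.modEq_iff_dvd.1 (Int.mod_modEq _ _).symm
    rw [h1]
    exact hc.2
  have h1 := card_eq_sum_card_fiberwise hmap
  have h2 : ∀ r ∈ R, ((((Icc 1 X).filter (fun c : ℕ => τ ≤ SK a b K (c : ℤ))).filter
      (fun c => c % K.factorial = r)).card : ℝ) ≤ (X : ℝ) / K.factorial + 1 := by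
    intro r hr
    have h3 : ((((Icc 1 X).filter (fun c : ℕ => τ ≤ SK a b K (c : ℤ))).filter
      (fun c => c % K.factorial = r)).card) ≤ X / K.factorial + 1 := by
      have h4 : ((((Icc 1 X).filter (fun c : ℕ => τ ≤ SK a b K (c : ℤ))).filter
        (fun c => c % K.factorial = r)).card) ≤ (range (X / K.factorial + 1)).card := by
        apply card_le_card_of_injOn (fun c => c / K.factorial)
        · intro c hc
          rw [mem_coe, mem_filter, mem_filter, mem_Icc] at hc
          simp only [mem_coe, mem_range]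
          have := Nat.div_le_div_right (c := K.factorial) hc.1.1.2
          omega
        · intro c hc c' hc' h
          rw [mem_coe, mem_filter] at hc hc'
          simp only at h
          rw [← Nat.div_add_mod c K.factorial, ← Nat.div_add_mod c' K.factorial, h, hc.2, hc'.2]
      rwa [card_range] at h4
    have h5 : ((X / K.factorial : ℕ) : ℝ) ≤ X / K.factorial := Nat.cast_div_le
    have h6 : ((((Icc 1 X).filter (fun c : ℕ => τ ≤ SK a b K (c : ℤ))).filter
      (fun c => c % K.factorial = r)).card : ℝ) ≤ ((X / K.factorial : ℕ) : ℝ) + 1 := by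
      exact_mod_cast h3
    linarith
  rw [h1]
  push_cast
  refine (sum_le_sum h2).trans ?_
  rw [sum_const, nsmul_eq_mul]
  have h3 : (R.card : ℝ) ≤ K.factorial := by
    have h4 : R.card ≤ (range K.factorial).card := card_filter_le _ _
    rw [card_range] at h4
    exact_mod_cast h4
  have h5 : (R.card : ℝ) * ((X : ℝ) / K.factorial + 1) = (X : ℝ) / K.factorial * R.card + R.card := by ring
  rw [h5]
  linarith

open Classical in
/-- **The first moment.** -/
theorem fm (a : ℕ) (ha : 1 ≤ a) (b : ℤ) (θ : ℝ) (hθ : 0 < θ) (δ : ℝ) (hδ : 0 < δ)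
    (K : ℕ) (hK : 1 ≤ K) (τ : ℝ) (hτ : 0 < τ) :
    ∀ᶠ X : ℕ in atTop, ∀ y : ℕ, (X : ℝ) ^ θ ≤ y → y ^ 2 ≤ X →
      (y / Real.log X) * ((((Icc 1 (X : ℤ)).filter (fun c : ℤ => τ ≤ SK a b K c)).card : ℝ) - δ * X) ≤
        ∑ c ∈ Icc 1 (X : ℤ), wt a b K τ c * cnt a b (PrN ((a + b.natAbs + 3) * X)) y c := by
  set C1 : ℕ := a + b.natAbs + 3 with hC1
  have hC1p : 1 ≤ C1 := by omega
  have hC1R : (1 : ℝ) ≤ C1 := by exact_mod_cast hC1p
  have hV := Vz_pos K
  set W := K.factorial with hW
  have hWp : 1 ≤ W := Nat.factorial_pos K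
  have hWR : (1 : ℝ) ≤ W := by exact_mod_cast hWp
  have hW0 : (0 : ℝ) < W := by linarith
  set m0 : ℕ := b.natAbs + 1 with hm0
  obtain ⟨Y0, hY0⟩ := eventually_atTop.1 (count_cop a ha b K hK)
  obtain ⟨N0, hAP⟩ := lam_ap 1 1
  have hlC1 : 0 ≤ Real.log C1 := Real.log_nonneg hC1R
  have hθV : 0 < Vz K * τ * θ := by positivity
  filter_upwards [eventually_ge_atTop N0, eventually_ge_atTop 2, ev_rpow_nat (Y0 : ℝ) hθ,
    ev_rpow_nat (10 * m0 / (Vz K * τ * δ)) hθ, ev_rpow_nat 1 hθ,
    ev_log_nat (10 / (Vz K * τ * θ * δ)), ev_log_nat (10 * C1 * W / (τ * δ)),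
    ev_log_nat (5 * Real.log C1 / δ), ev_log_nat W,
    (tendsto_natCast_atTop_atTop (R := ℝ)).eventually (eventually_ge_atTop (5 * W / δ)),
    (tendsto_id.const_mul_atTop' (by omega : 0 < C1)).eventually
      (ev_log_rpow 1 (by norm_num : (0 : ℝ) < 1 / 2) (by positivity : 0 < δ * τ / (10 * C1)))]
    with X hXN0 hX2 hXY hXm hX1θ hXV hXE hXC hXW hXW2 hXL y hy1 hy2
  have hX0 : (0 : ℝ) < X := by
    have : 0 < X := by omega
    exact_mod_cast this
  have hX1R : (1 : ℝ) ≤ X := by exact_mod_cast (by omega : 1 ≤ X)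
  have hy1' : (1 : ℝ) ≤ y := hX1θ.trans hy1
  have hy0 : (0 : ℝ) < y := by linarith
  have hlogX : 0 < Real.log X := Real.log_pos (by exact_mod_cast (by omega : 1 < X))
  set N := C1 * X with hN
  have hNX : X ≤ N := Nat.le_mul_of_pos_left _ (by omega)
  have hNR : (N : ℝ) = C1 * X := by rw [hN]; push_cast; rfl
  have hNXR : (X : ℝ) ≤ N := by exact_mod_cast hNX
  have hN0R : (0 : ℝ) < N := by linarith
  have hlogN : Real.log X ≤ Real.log N := Real.log_le_log hX0 hNXR
  have hlogN0 : 0 < Real.log N := by linarith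
  have hlogNe : Real.log N = Real.log C1 + Real.log X := by
    rw [hNR, Real.log_mul (by positivity) hX0.ne']
  set E : ℝ := N / Real.log N with hE
  have hE0 : 0 ≤ E := by positivity
  have hap := hAP N (by omega) W hWp (by rw [pow_one]; linarith)
  simp only [pow_one] at hap
  have hlogy : θ * Real.log X ≤ Real.log y := by
    have h3 := Real.log_le_log (by positivity) hy1
    rwa [Real.log_rpow hX0] at h3
  have hlogy0 : 0 < Real.log y := lt_of_lt_of_le (by positivity) hlogy
  -- the weights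
  set w : ℕ → ℝ := fun c => wt a b K τ (c : ℤ) with hw
  have hwper : ∀ c : ℕ, w c = w (c % W) := by
    intro c
    rw [hw]
    simp only
    symm
    apply wt_per
    push_cast
    exact Int.modEq_iff_dvd.1 (Int.mod_modEq _ _).symm
  -- the sum over all arguments
  set G : ℝ := (((Icc 1 (X : ℤ)).filter (fun c : ℤ => τ ≤ SK a b K c)).card : ℝ) with hG
  have hGe : G = (((Icc 1 X).filter (fun c : ℕ => τ ≤ SK a b K (c : ℤ))).card : ℝ) := by
    rw [hG, Icc_cast, filter_image, card_image_of_injective]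
    intro c c' h
    simp only at h
    omega
  set R : ℝ := (((range W).filter (fun r : ℕ => τ ≤ SK a b K (r : ℤ))).card : ℝ) with hRd
  have hGR : G ≤ (X : ℝ) / W * R + W := by
    rw [hGe]
    exact G_card a b K X τ
  have hR0 : 0 ≤ R := Nat.cast_nonneg _
  -- the lower bound for one `m`
  have hm : ∀ m ∈ Icc m0 y, (∑ r ∈ range W, w r * (if cop a b K (r : ℤ) m then (X : ℝ) / (Nat.totient W : ℝ) else 0)) -
      (2 * E * W * (1 / τ) + 2 * (1 / τ) * √(N : ℝ) * Real.log N) ≤
      Real.log N * ∑ c ∈ Icc 1 X, w c * ind (PrN N) ((c : ℤ) + gq a b m) := by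
    intro m hm
    rw [mem_Icc] at hm
    have hg0 : 0 ≤ gq a b m := by
      unfold gq
      have h1 : (b.natAbs : ℤ) + 1 ≤ m := by exact_mod_cast hm.1
      have h2 : (1 : ℤ) ≤ a := by exact_mod_cast ha
      have h3 : -(b.natAbs : ℤ) ≤ b := by omega
      have h4 : 0 ≤ (a : ℤ) * m + b := by nlinarith
      have h5 : (a : ℤ) * (m : ℤ) ^ 2 + b * m = m * (a * m + b) := by ring
      rw [h5]
      positivity
    obtain ⟨g, hg⟩ := Int.eq_ofNat_of_zero_le hg0
    have hgN : g + X ≤ N := by
      have h1 := gq_le a b hm.2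
      rw [hg] at h1
      have h2 : g ≤ (a + b.natAbs) * y ^ 2 := by exact_mod_cast h1
      have h3 : (a + b.natAbs) * y ^ 2 ≤ (a + b.natAbs) * X := Nat.mul_le_mul_left _ hy2
      have h4 : N = (a + b.natAbs) * X + 3 * X := by rw [hN, hC1]; ring
      omega
    have h1 := fm_one (W := W) (N := N) (X := X) (g := g) (E := E) (B := 1 / τ) (w := w) hWp hgN
      (by omega) (fun c => wt_nonneg a b K τ _) (fun c => wt_le a b K hτ _) hwper hE0 hap
    have h2 : ∀ r ∈ range W, w r * (if (r + g).Coprime W then (X : ℝ) / (Nat.totient W : ℝ) else 0) =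
        w r * (if cop a b K (r : ℤ) m then (X : ℝ) / (Nat.totient W : ℝ) else 0) := by
      intro r _
      have h3 := cop_coprime a b K r m g hg.symm
      by_cases h4 : cop a b K (r : ℤ) m
      · rw [if_pos h4, if_pos (h3.2 h4)]
      · rw [if_neg h4, if_neg (fun h => h4 (h3.1 h))]
    rw [sum_congr rfl h2] at h1
    refine h1.trans (le_of_eq ?_)
    congr 1
    apply sum_congr rfl
    intro c _
    rw [hg]
    push_cast
    rfl
  have hsum := sum_le_sum hm
  rw [sum_sub_distrib, sum_const, nsmul_eq_mul, Nat.card_Icc, ← mul_sum] at hsum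
  -- the left-hand side
  have hleft : (X : ℝ) / W * R * y - X / (Vz K * τ) * (y / (θ * Real.log X) + m0) ≤
      ∑ m ∈ Icc m0 y, ∑ r ∈ range W, w r * (if cop a b K (r : ℤ) m then (X : ℝ) / (Nat.totient W : ℝ) else 0) := by
    rw [sum_comm]
    have h1 : ∀ r ∈ range W, ((if τ ≤ SK a b K (r : ℤ) then (X : ℝ) / W * y else 0) -
        X / (W * Vz K * τ) * (y / (θ * Real.log X) + m0)) ≤
        ∑ m ∈ Icc m0 y, w r * (if cop a b K (r : ℤ) m then (X : ℝ) / (Nat.totient W : ℝ) else 0) := by
      intro r _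
      rw [← mul_sum, ← sum_filter, sum_const, nsmul_eq_mul]
      have h2 : (ncop a b K (r : ℤ) y : ℝ) - m0 ≤ (((Icc m0 y).filter (fun m => cop a b K (r : ℤ) m)).card : ℝ) := by
        have h3 : ncop a b K (r : ℤ) y ≤ ((Icc m0 y).filter (fun m => cop a b K (r : ℤ) m)).card + m0 := by
          unfold ncop
          have h4 : (Icc 1 y).filter (fun m => cop a b K (r : ℤ) m) ⊆
              (Icc m0 y).filter (fun m => cop a b K (r : ℤ) m) ∪ range m0 := by
            intro m hm
            rw [mem_filter, mem_Icc] at hm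
            rw [mem_union, mem_filter, mem_Icc, mem_range]
            by_cases h5 : m0 ≤ m
            · exact Or.inl ⟨⟨h5, hm.1.2⟩, hm.2⟩
            · exact Or.inr (by omega)
          refine (card_le_card h4).trans ((card_union_le _ _).trans ?_)
          rw [card_range]
        have h5 : (ncop a b K (r : ℤ) y : ℝ) ≤
            (((Icc m0 y).filter (fun m => cop a b K (r : ℤ) m)).card : ℝ) + m0 := by exact_mod_cast h3
        linarith
      have h3 := hY0 y (by
        have : (Y0 : ℝ) ≤ y := hXY.trans hy1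
        exact_mod_cast this) (r : ℤ)
      rw [abs_le] at h3
      have h4 : (y : ℝ) / Real.log y ≤ y / (θ * Real.log X) :=
        div_le_div_of_nonneg_left hy0.le (by positivity) hlogy
      have h5 : (y : ℝ) * (Vz K * SK a b K (r : ℤ)) - (y / (θ * Real.log X) + m0) ≤
          (((Icc m0 y).filter (fun m => cop a b K (r : ℤ) m)).card : ℝ) := by linarith [h3.1]
      rw [tot_fact]
      rw [← hW]
      have hw0 : 0 ≤ w r := wt_nonneg a b K τ _
      have hwτ : w r ≤ 1 / τ := wt_le a b K hτ _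
      have hq0 : 0 ≤ (y : ℝ) / (θ * Real.log X) + m0 := by positivity
      have hXWV : 0 ≤ (X : ℝ) / (W * Vz K) := by positivity
      have h6 : w r * (((y : ℝ) * (Vz K * SK a b K (r : ℤ)) - (y / (θ * Real.log X) + m0)) *
          (X / (W * Vz K))) ≤ w r * ((((Icc m0 y).filter (fun m => cop a b K (r : ℤ) m)).card : ℝ) *
          (X / (W * Vz K))) := by gcongr
      refine le_trans ?_ h6
      have h7 : w r * SK a b K (r : ℤ) = if τ ≤ SK a b K (r : ℤ) then 1 else 0 := by
        rw [hw]
        simp only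
        unfold wt
        split_ifs with h8
        · have : SK a b K (r : ℤ) ≠ 0 := by
            have := lt_of_lt_of_le hτ h8
            exact this.ne'
          field_simp
        · ring
      have h8 : w r * (((y : ℝ) * (Vz K * SK a b K (r : ℤ)) - (y / (θ * Real.log X) + m0)) *
          (X / (W * Vz K))) = (w r * SK a b K (r : ℤ)) * (X / W * y) -
          w r * ((y / (θ * Real.log X) + m0) * (X / (W * Vz K))) := by
        field_simp
      rw [h8, h7]
      have h9 : w r * ((y / (θ * Real.log X) + m0) * (X / (W * Vz K))) ≤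
          1 / τ * ((y / (θ * Real.log X) + m0) * (X / (W * Vz K))) := by gcongr
      have h10 : 1 / τ * (((y : ℝ) / (θ * Real.log X) + m0) * (X / (W * Vz K))) =
          X / (W * Vz K * τ) * (y / (θ * Real.log X) + m0) := by
        field_simp
      rw [h10] at h9
      split_ifs with h11
      · rw [one_mul]
        linarith
      · rw [zero_mul]
        linarith
    refine le_trans (le_of_eq ?_) (sum_le_sum h1)
    rw [sum_sub_distrib, ← sum_filter, sum_const, sum_const, card_range, nsmul_eq_mul, nsmul_eq_mul, ← hRd]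
    field_simp
  -- the right-hand side
  have hright : ∑ m ∈ Icc m0 y, ∑ c ∈ Icc 1 X, w c * ind (PrN N) ((c : ℤ) + gq a b m) ≤
      ∑ c ∈ Icc 1 (X : ℤ), wt a b K τ c * cnt a b (PrN N) y c := by
    rw [sum_int_Icc, sum_comm]
    apply sum_le_sum
    intro c _
    rw [← mul_sum]
    apply mul_le_mul_of_nonneg_left _ (wt_nonneg a b K τ _)
    unfold cnt
    apply sum_le_sum_of_subset_of_nonneg
    · intro m hm
      rw [mem_Icc] at hm ⊢
      omega
    · intro m _ _
      unfold ind
      split_ifs <;> norm_num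
  set S0 : ℝ := ∑ c ∈ Icc 1 (X : ℤ), wt a b K τ c * cnt a b (PrN N) y c with hSd
  have hS0 : 0 ≤ S0 := by
    apply sum_nonneg
    intro c _
    apply mul_nonneg (wt_nonneg a b K τ _)
    unfold cnt
    apply sum_nonneg
    intro m _
    unfold ind
    split_ifs <;> norm_num
  have hcard : ((y + 1 - m0 : ℕ) : ℝ) ≤ y := by
    have : y + 1 - m0 ≤ y := by omega
    exact_mod_cast this
  have hq : (0 : ℝ) ≤ 2 * E * W * (1 / τ) + 2 * (1 / τ) * √(N : ℝ) * Real.log N := by positivity
  have hmain : (X : ℝ) / W * R * y - X / (Vz K * τ) * (y / (θ * Real.log X) + m0) -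
      y * (2 * E * W * (1 / τ) + 2 * (1 / τ) * √(N : ℝ) * Real.log N) ≤ Real.log N * S0 := by
    have h1 := mul_le_mul_of_nonneg_right hcard hq
    have h2 := mul_le_mul_of_nonneg_left hright hlogN0.le
    linarith
  -- the error terms
  rcases le_or_gt G (δ * X) with hc | hc
  · have : (y / Real.log X) * (G - δ * X) ≤ 0 := by
      apply mul_nonpos_of_nonneg_of_nonpos (by positivity)
      linarith
    linarith
  have e1 : (W : ℝ) ≤ δ / 5 * X := by
    rw [div_le_iff₀ hδ] at hXW2
    linarith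
  have e2 : X / (Vz K * τ) * (y / (θ * Real.log X) + m0) ≤ δ / 5 * X * y := by
    have h1 : (m0 : ℝ) ≤ δ * (Vz K * τ) / 10 * y := by
      have h2 := hXm.trans hy1
      rw [div_le_iff₀ (by positivity)] at h2
      linarith
    have h3 : (y : ℝ) / (θ * Real.log X) ≤ δ * (Vz K * τ) / 10 * y := by
      rw [div_le_iff₀ (by positivity)]
      rw [div_le_iff₀ (by positivity)] at hXV
      have h4 : (1 : ℝ) ≤ δ * (Vz K * τ) / 10 * (θ * Real.log X) := by
        have : Real.log X * (Vz K * τ * θ * δ) = 10 * (δ * (Vz K * τ) / 10 * (θ * Real.log X)) := by ring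
        linarith
      calc (y : ℝ) = 1 * y := (one_mul _).symm
        _ ≤ (δ * (Vz K * τ) / 10 * (θ * Real.log X)) * y := mul_le_mul_of_nonneg_right h4 hy0.le
        _ = δ * (Vz K * τ) / 10 * y * (θ * Real.log X) := by ring
    calc (X : ℝ) / (Vz K * τ) * (y / (θ * Real.log X) + m0) ≤
        X / (Vz K * τ) * (δ * (Vz K * τ) / 10 * y + δ * (Vz K * τ) / 10 * y) := by gcongr
      _ = δ / 5 * X * y := by field_simp; ring
  have e3 : 2 * E * W * (1 / τ) ≤ δ / 5 * X := by
    have h1 : E ≤ C1 * X / Real.log X := by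
      rw [hE, hNR]
      rw [← hNR]
      exact div_le_div_of_nonneg_left (by positivity) hlogX hlogN
    calc 2 * E * W * (1 / τ) ≤ 2 * (C1 * X / Real.log X) * W * (1 / τ) := by gcongr
      _ = 2 * C1 * W / τ / Real.log X * X := by ring
      _ ≤ δ / 5 * X := by
        apply mul_le_mul_of_nonneg_right _ hX0.le
        rw [div_le_iff₀ hlogX, div_le_iff₀ hτ]
        rw [div_le_iff₀ (by positivity)] at hXE
        linarith
  have e4 : 2 * (1 / τ) * √(N : ℝ) * Real.log N ≤ δ / 5 * X := by
    have h1 : Real.log N ≤ δ * τ / (10 * C1) * √(N : ℝ) := by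
      have h2 := hXL
      simp only [id, pow_one] at h2
      rw [Real.sqrt_eq_rpow]
      exact h2
    calc 2 * (1 / τ) * √(N : ℝ) * Real.log N ≤ 2 * (1 / τ) * √(N : ℝ) * (δ * τ / (10 * C1) * √(N : ℝ)) := by
          gcongr
      _ = δ / (5 * C1) * (√(N : ℝ) * √(N : ℝ)) := by
          field_simp
          ring
      _ = δ / (5 * C1) * (C1 * X) := by rw [Real.mul_self_sqrt hN0R.le, hNR]
      _ = δ / 5 * X := by field_simp
  have e5 : (Real.log C1 / Real.log X) * G ≤ δ / 5 * X := by
    have h1 : G ≤ X := by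
      rw [hGe]
      have h2 := card_filter_le (Icc 1 X) (fun c : ℕ => τ ≤ SK a b K (c : ℤ))
      rw [Nat.card_Icc, Nat.add_sub_cancel] at h2
      exact_mod_cast h2
    have h2 : Real.log C1 / Real.log X ≤ δ / 5 := by
      rw [div_le_iff₀ hlogX]
      rw [div_le_iff₀ hδ] at hXC
      linarith
    have h3 : 0 ≤ G := Nat.cast_nonneg _
    exact mul_le_mul h2 h1 h3 (by positivity)
  -- conclusion
  rw [div_mul_eq_mul_div, div_le_iff₀ hlogX]
  have h1 : (X : ℝ) / W * R * y ≥ (G - W) * y := by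
    apply mul_le_mul_of_nonneg_right _ hy0.le
    linarith
  have h2 : y * (2 * E * W * (1 / τ) + 2 * (1 / τ) * √(N : ℝ) * Real.log N) ≤ y * (δ / 5 * X + δ / 5 * X) := by
    apply mul_le_mul_of_nonneg_left _ hy0.le
    linarith
  have h3 : y * (G - 4 * (δ / 5 * X)) ≤ Real.log N * S0 := by
    have h4 : (G - W) * y ≥ (G - δ / 5 * X) * y := by
      apply mul_le_mul_of_nonneg_right _ hy0.le
      linarith
    nlinarith
  -- `log N = log C1 + log X`
  have hGδ : 0 ≤ G - δ * X := by linarith
  have h4 : (1 + Real.log C1 / Real.log X) * (y * (G - δ * X)) ≤ y * (G - 4 * (δ / 5 * X)) := by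
    have h5 : (Real.log C1 / Real.log X) * (G - δ * X) ≤ δ / 5 * X := by
      have h6 : (Real.log C1 / Real.log X) * (G - δ * X) ≤ (Real.log C1 / Real.log X) * G := by
        apply mul_le_mul_of_nonneg_left _ (by positivity)
        have : 0 ≤ δ * X := by positivity
        linarith
      linarith
    have h6 : (1 + Real.log C1 / Real.log X) * (y * (G - δ * X)) =
        y * ((G - δ * X) + (Real.log C1 / Real.log X) * (G - δ * X)) := by ring
    rw [h6]
    apply mul_le_mul_of_nonneg_left _ hy0.le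
    linarith
  have h5 : (1 + Real.log C1 / Real.log X) * (y * (G - δ * X)) ≤
      (1 + Real.log C1 / Real.log X) * (S0 * Real.log X) := by
    refine (h4.trans h3).trans (le_of_eq ?_)
    rw [hlogNe]
    field_simp
    ring
  exact le_of_mul_le_mul_left h5 (by positivity)

end Pool.Agent.V8H34.TR
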