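import Mathlib
import Pool.Agent.V8H34.TR.FM2

/-!
# Short segments of quadratic polynomials: the transference theorem for sets of primes
-/

set_option autoImplicit false

namespace Pool.Agent.V8H34.TR

open Finset Filter Topology
open Pool.Agent.H373R2.T7 (Vz pz Vz_pos nuB mem_pz sys_count PerB lam_ap)

open Classical in
/-- the primes of `Q` in `(y, N]` -/
noncomputable def PrQ (Q : Set ℕ) (y N : ℕ) : Finset ℤ :=
  ((Icc 1 N).filter (fun p => p.Prime ∧ p ∈ Q ∧ y < p)).image (fun p : ℕ => (p : ℤ))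

open Classical in
theorem ind_PrQ {Q : Set ℕ} {y N n : ℕ} (hn : n ≤ N) (hy : y < n) :
    ind (PrQ Q y N) (n : ℤ) = if n.Prime ∧ n ∈ Q then 1 else 0 := by
  unfold ind PrQ
  by_cases hp : n.Prime ∧ n ∈ Q
  · rw [if_pos hp, if_pos]
    rw [mem_image]
    exact ⟨n, by rw [mem_filter, mem_Icc]; exact ⟨⟨hp.1.one_le, hn⟩, hp.1, hp.2, hy⟩, rfl⟩
  · rw [if_neg hp, if_neg]
    intro h
    rw [mem_image] at h
    obtain ⟨p, h1, h2⟩ := h
    rw [mem_filter] at h1
    have : p = n := by exact_mod_cast h2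
    rw [this] at h1
    exact hp ⟨h1.2.1, h1.2.2.1⟩

theorem PrQ_rough (Q : Set ℕ) {y N : ℕ} (hy : 1 ≤ y) {η : ℝ} (hη : η ≤ 1) :
    ∀ n ∈ PrQ Q y N, ∀ p : ℕ, p.Prime → (p : ℝ) ≤ (y : ℝ) ^ η → ¬ (p : ℤ) ∣ n := by
  classical
  intro n hn p hp hpy hd
  unfold PrQ at hn
  rw [mem_image] at hn
  obtain ⟨q, hq, rfl⟩ := hn
  rw [mem_filter] at hq
  have h1 : p ∣ q := by exact_mod_cast hd
  have h2 := (Nat.prime_dvd_prime_iff_eq hp hq.2.1).1 h1
  have h3 : (p : ℝ) ≤ y := by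
    refine hpy.trans ?_
    calc (y : ℝ) ^ η ≤ (y : ℝ) ^ (1 : ℝ) :=
          Real.rpow_le_rpow_of_exponent_le (by exact_mod_cast hy) hη
      _ = y := Real.rpow_one _
  have h4 : p ≤ y := by exact_mod_cast h3
  omega

theorem PrQ_card (Q : Set ℕ) (y N : ℕ) : (PrQ Q y N).card ≤ Nat.primeCounting N := by
  classical
  unfold PrQ
  refine card_image_le.trans ?_
  rw [Nat.primeCounting, Nat.primeCounting', Nat.count_eq_card_filter_range]
  apply card_le_card
  intro p hp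
  rw [mem_filter, mem_Icc] at hp
  rw [mem_filter, mem_range]
  exact ⟨by omega, hp.2.1⟩

theorem PrQ_prime (Q : Set ℕ) (y N : ℕ) : ∀ n ∈ PrQ Q y N, n.toNat.Prime := by
  classical
  intro n hn
  unfold PrQ at hn
  rw [mem_image] at hn
  obtain ⟨q, hq, rfl⟩ := hn
  rw [mem_filter] at hq
  rw [Int.toNat_natCast]
  exact hq.2.1

/-- Chebyshev -/
theorem ev_pi : ∀ᶠ N : ℕ in atTop, (Nat.primeCounting N : ℝ) ≤ 2 * N / Real.log N := by
  have h := Chebyshev.eventually_primeCounting_le (ε := 1 / 2) (by norm_num)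
  have h2 := tendsto_natCast_atTop_atTop.eventually h
  filter_upwards [h2, eventually_ge_atTop 2] with N hN hN2
  rw [Nat.floor_natCast] at hN
  refine hN.trans ?_
  have hlog : 0 < Real.log N := Real.log_pos (by exact_mod_cast hN2)
  apply div_le_div_of_nonneg_right _ hlog.le
  have h4 : Real.log 4 ≤ 3 / 2 := by
    have h5 : Real.log 4 = 2 * Real.log 2 := by
      rw [show (4 : ℝ) = 2 ^ 2 by norm_num, Real.log_pow]
      norm_num
    have := Real.log_two_lt_d9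
    linarith
  have hN0 : (0 : ℝ) ≤ N := by positivity
  nlinarith

/-- **The transference theorem for sets of primes, in mean square.** -/
theorem trans_sq (a : ℕ) (ha : 1 ≤ a) (b : ℤ) (θ : ℝ) (hθ : 0 < θ) (ε : ℝ) (hε : 0 < ε) :
    ∃ R1 : ℕ, ∀ W : ℕ, 1 ≤ W → (∀ r, 1 ≤ r → r ≤ R1 → r ∣ W) → ∃ κ0 : ℝ, 0 < κ0 ∧
      κ0 * W ≤ 1 ∧ ∀ κ : ℝ, 0 < κ → κ ≤ κ0 → ∀ᶠ X : ℕ in atTop, ∀ y : ℕ, (X : ℝ) ^ θ ≤ y → y ^ 2 ≤ X →
        1 ≤ ⌊κ * (y : ℝ) ^ 2⌋₊ ∧ ∀ Q : Set ℕ,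
        ∑ c ∈ Icc 1 (X : ℤ), (cnt a b (PrQ Q y ((a + b.natAbs + 3) * X)) y c -
          loc a b (PrQ Q y ((a + b.natAbs + 3) * X)) W ⌊κ * (y : ℝ) ^ 2⌋₊ y c) ^ 2 ≤
        ε * (X * (y / Real.log X) ^ 2) := by
  set C1 : ℕ := a + b.natAbs + 3 with hC1
  have hC1p : 1 ≤ C1 := by omega
  have hC1R : (1 : ℝ) ≤ C1 := by exact_mod_cast hC1p
  obtain ⟨R1, h0⟩ := transf a ha b (1 / 16) (by norm_num) le_rfl (ε * θ / (2 * C1)) (by positivity)
  refine ⟨R1, fun W hW hWd => ?_⟩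
  obtain ⟨κ0, hκ0, hκW, h0⟩ := h0 W hW hWd
  refine ⟨κ0, hκ0, hκW, fun κ hκ hκκ => ?_⟩
  obtain ⟨y0, h0⟩ := h0 κ hκ hκκ
  filter_upwards [ev_rpow_nat (y0 : ℝ) hθ, eventually_ge_atTop 2, ev_rpow_nat 1 hθ,
    (tendsto_id.const_mul_atTop' (by omega : 0 < C1)).eventually ev_pi] with X hXy hX2 hX1 hpi y hy1 hy2
  have hyy0 : y0 ≤ y := by exact_mod_cast hXy.trans hy1
  obtain ⟨hJ, h0⟩ := h0 y hyy0
  refine ⟨hJ, fun Q => ?_⟩
  simp only [id] at hpi
  have hX0 : (0 : ℝ) < X := by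
    have : 0 < X := by omega
    exact_mod_cast this
  have hy1R : (1 : ℝ) ≤ y := hX1.trans hy1
  have hy1n : 1 ≤ y := by exact_mod_cast hy1R
  have hlogX : 0 < Real.log X := Real.log_pos (by exact_mod_cast (by omega : 1 < X))
  have h1 := h0 (PrQ Q y (C1 * X)) (PrQ_rough Q hy1n (by norm_num)) (Icc 1 (X : ℤ))
  simp_rw [dif_sum] at h1
  refine h1.trans ?_
  have hlogy : θ * Real.log X ≤ Real.log y := by
    have h3 := Real.log_le_log (by positivity) hy1
    rwa [Real.log_rpow hX0] at h3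
  have hlogy0 : 0 < Real.log y := lt_of_lt_of_le (by positivity) hlogy
  have hlogN : Real.log X ≤ Real.log ((C1 * X : ℕ) : ℝ) := by
    apply Real.log_le_log hX0
    have : X ≤ C1 * X := Nat.le_mul_of_pos_left _ (by omega)
    exact_mod_cast this
  have h2 : ((PrQ Q y (C1 * X)).card : ℝ) ≤ 2 * (C1 * X) / Real.log X := by
    calc ((PrQ Q y (C1 * X)).card : ℝ) ≤ Nat.primeCounting (C1 * X) := by exact_mod_cast PrQ_card Q y _
      _ ≤ 2 * ((C1 * X : ℕ) : ℝ) / Real.log ((C1 * X : ℕ) : ℝ) := hpi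
      _ ≤ 2 * ((C1 * X : ℕ) : ℝ) / Real.log X := div_le_div_of_nonneg_left (by positivity) hlogX hlogN
      _ = 2 * (C1 * X) / Real.log X := by push_cast; rfl
  calc ε * θ / (2 * C1) * ((y : ℝ) ^ 2 * ((PrQ Q y (C1 * X)).card / Real.log y)) ≤
      ε * θ / (2 * C1) * ((y : ℝ) ^ 2 * ((2 * (C1 * X) / Real.log X) / (θ * Real.log X))) := by
        gcongr
    _ = ε * (X * (y / Real.log X) ^ 2) := by
        field_simp

/-- the upper bound for the number of prime values, with small mean error -/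
theorem core2 (a : ℕ) (ha : 1 ≤ a) (b : ℤ) (θ : ℝ) (hθ : 0 < θ) (δ : ℝ) (hδ : 0 < δ) (hδ1 : δ ≤ 1)
    (Kmin : ℕ) : ∃ K : ℕ, Kmin ≤ K ∧ 1 ≤ K ∧ ∀ᶠ X : ℕ in atTop, ∀ y : ℕ, (X : ℝ) ^ θ ≤ y → y ^ 2 ≤ X →
      ∃ D : ℤ → ℝ, (∀ c, 0 ≤ D c) ∧ (∑ c ∈ Icc 1 (X : ℤ), D c ≤ δ * (X * (y / Real.log X))) ∧
        ∀ c ∈ Icc 1 (X : ℤ), cnt a b (PrN ((a + b.natAbs + 3) * X)) y c ≤
          (18 / 5 + δ) * SK a b K c * (y / Real.log X) + D c := by
  classical
  set C1 : ℕ := a + b.natAbs + 3 with hC1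
  obtain ⟨R1, h0⟩ := trans_sq a ha b θ hθ ((δ / 5) ^ 2) (by positivity)
  set K := max Kmin (max R1 1) with hK
  have hK1 : 1 ≤ K := (le_max_right _ _).trans (le_max_right _ _)
  have hKR : R1 ≤ K := (le_max_left _ _).trans (le_max_right _ _)
  refine ⟨K, le_max_left _ _, hK1, ?_⟩
  obtain ⟨κ0, hκ0, hκW, h0⟩ := h0 K.factorial (Nat.factorial_pos K)
    (fun r hr1 hr2 => Nat.dvd_factorial hr1 (hr2.trans hKR))
  have h0 := h0 κ0 hκ0 le_rfl
  have hU := upper a ha b θ hθ (δ / 5) (by positivity) (by linarith) K hK1 κ0 hκ0 hκW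
  filter_upwards [h0, hU, eventually_ge_atTop 2, ev_rpow_nat 1 hθ,
    ev_log_rpow 1 (by norm_num : (0 : ℝ) < 1 / 2) (by positivity : 0 < δ / 10),
    ev_rpow_nat (10 * (b.natAbs ^ 2 : ℕ) / δ) (by norm_num : (0 : ℝ) < 1 / 2)]
    with X h0 hU hX2 hX1 hXl hXb y hy1 hy2
  obtain ⟨hJ, h0⟩ := h0 y hy1 hy2
  obtain ⟨ex, hex0, hex1, hU⟩ := hU y hy1 hy2
  have hX0 : (0 : ℝ) < X := by
    have : 0 < X := by omega
    exact_mod_cast this
  have hX1R : (1 : ℝ) ≤ X := by exact_mod_cast (by omega : 1 ≤ X)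
  have hlogX : 0 < Real.log X := Real.log_pos (by exact_mod_cast (by omega : 1 < X))
  set Y : ℝ := (y : ℝ) / Real.log X with hY
  have hy1R : (1 : ℝ) ≤ y := hX1.trans hy1
  have hY0 : 0 ≤ Y := by positivity
  set A := PrQ Set.univ y (C1 * X) with hA
  set J := ⌊κ0 * (y : ℝ) ^ 2⌋₊ with hJd
  have h0 := h0 Set.univ
  rw [← hA] at h0
  have hU := hU A (PrQ_prime _ _ _)
  refine ⟨fun c => |cnt a b A y c - loc a b A K.factorial J y c| + δ / 5 * Y + ex c +
    (if c ≤ (y : ℤ) + b ^ 2 then (y : ℝ) else 0), ?_, ?_, ?_⟩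
  · intro c
    have := hex0 c
    have h1 : (0 : ℝ) ≤ if c ≤ (y : ℤ) + b ^ 2 then (y : ℝ) else 0 := by split_ifs <;> positivity
    positivity
  · rw [sum_add_distrib, sum_add_distrib, sum_add_distrib]
    have e1 : ∑ c ∈ Icc 1 (X : ℤ), |cnt a b A y c - loc a b A K.factorial J y c| ≤ δ / 5 * (X * Y) := by
      have h1 : (∑ c ∈ Icc 1 (X : ℤ), |cnt a b A y c - loc a b A K.factorial J y c|) ^ 2 ≤
          (δ / 5 * (X * Y)) ^ 2 := by
        have h2 := sq_sum_le_card_mul_sum_sq (s := Icc 1 (X : ℤ))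
          (f := fun c => |cnt a b A y c - loc a b A K.factorial J y c|)
        simp only [sq_abs] at h2
        refine h2.trans ?_
        have h3 : ((Icc 1 (X : ℤ)).card : ℝ) = X := by
          rw [Int.card_Icc]
          have : ((X : ℤ) + 1 - 1).toNat = X := by omega
          rw [this]
        rw [h3]
        calc (X : ℝ) * ∑ c ∈ Icc 1 (X : ℤ), (cnt a b A y c - loc a b A K.factorial J y c) ^ 2 ≤
            X * ((δ / 5) ^ 2 * (X * Y ^ 2)) := mul_le_mul_of_nonneg_left h0 hX0.le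
          _ = (δ / 5 * (X * Y)) ^ 2 := by ring
      exact abs_le_of_sq_le_sq' h1 (by positivity) |>.2
    have e2 : ∑ c ∈ Icc 1 (X : ℤ), δ / 5 * Y = δ / 5 * (X * Y) := by
      rw [sum_const, Int.card_Icc, nsmul_eq_mul]
      have : ((X : ℤ) + 1 - 1).toNat = X := by omega
      rw [this]
      ring
    have e3 : ∑ c ∈ Icc 1 (X : ℤ), (if c ≤ (y : ℤ) + b ^ 2 then (y : ℝ) else 0) ≤ δ / 5 * (X * Y) := by
      rw [← sum_filter, sum_const, nsmul_eq_mul]
      have h1 : ((Icc 1 (X : ℤ)).filter (fun c => c ≤ (y : ℤ) + b ^ 2)).card ≤ y + b.natAbs ^ 2 := by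
        have h2 : (Icc 1 (X : ℤ)).filter (fun c => c ≤ (y : ℤ) + b ^ 2) ⊆ Icc 1 ((y : ℤ) + b ^ 2) := by
          intro c hc
          rw [mem_filter, mem_Icc] at hc
          rw [mem_Icc]
          exact ⟨hc.1.1, hc.2⟩
        refine (card_le_card h2).trans ?_
        rw [Int.card_Icc]
        have h3 : b ^ 2 = ((b.natAbs ^ 2 : ℕ) : ℤ) := by
          push_cast
          rw [sq_abs]
        rw [h3]
        omega
      have h2 : (((Icc 1 (X : ℤ)).filter (fun c => c ≤ (y : ℤ) + b ^ 2)).card : ℝ) ≤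
          y + ((b.natAbs ^ 2 : ℕ) : ℝ) := by exact_mod_cast h1
      have hsq : (X : ℝ) ^ (1 / 2 : ℝ) * (X : ℝ) ^ (1 / 2 : ℝ) = X := by
        rw [← Real.rpow_add hX0]
        norm_num
      have hs0 : 0 < (X : ℝ) ^ (1 / 2 : ℝ) := by positivity
      have h3 : (y : ℝ) ≤ (X : ℝ) ^ (1 / 2 : ℝ) := by
        have h4 : (y : ℝ) ^ 2 ≤ X := by exact_mod_cast hy2
        nlinarith
      rw [pow_one] at hXl
      have h4 : ((y : ℝ) + ((b.natAbs ^ 2 : ℕ) : ℝ)) * Real.log X ≤ δ / 5 * X := by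
        rcases le_or_gt ((b.natAbs ^ 2 : ℕ) : ℝ) ((X : ℝ) ^ (1 / 2 : ℝ)) with hb | hb
        · calc ((y : ℝ) + ((b.natAbs ^ 2 : ℕ) : ℝ)) * Real.log X ≤
              ((X : ℝ) ^ (1 / 2 : ℝ) + (X : ℝ) ^ (1 / 2 : ℝ)) * (δ / 10 * (X : ℝ) ^ (1 / 2 : ℝ)) := by
                gcongr
            _ = δ / 5 * ((X : ℝ) ^ (1 / 2 : ℝ) * (X : ℝ) ^ (1 / 2 : ℝ)) := by ring
            _ = δ / 5 * X := by rw [hsq]
        · exfalso
          rw [div_le_iff₀ hδ] at hXb
          have h5 : (X : ℝ) ^ (1 / 2 : ℝ) * δ ≤ (X : ℝ) ^ (1 / 2 : ℝ) * 1 :=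
            mul_le_mul_of_nonneg_left hδ1 hs0.le
          linarith
      calc (((Icc 1 (X : ℤ)).filter (fun c => c ≤ (y : ℤ) + b ^ 2)).card : ℝ) * y ≤
          (y + ((b.natAbs ^ 2 : ℕ) : ℝ)) * y := mul_le_mul_of_nonneg_right h2 (by positivity)
        _ = ((y + ((b.natAbs ^ 2 : ℕ) : ℝ)) * Real.log X) * Y := by
            rw [hY]
            field_simp
        _ ≤ (δ / 5 * X) * Y := mul_le_mul_of_nonneg_right h4 hY0
        _ = δ / 5 * (X * Y) := by ring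
    rw [e2]
    have e4 : (0 : ℝ) ≤ δ / 5 * (X * Y) := by positivity
    have e5 : δ * (X * Y) = 5 * (δ / 5 * (X * Y)) := by ring
    rw [e5]
    linarith
  · intro c hc
    rw [mem_Icc] at hc
    have hS := SK_nonneg a b K c
    have he := hex0 c
    have hcard : cnt a b (PrN (C1 * X)) y c ≤ y := by
      unfold cnt
      have h1 : ∀ m ∈ Icc 1 y, ind (PrN (C1 * X)) (c + gq a b m) ≤ 1 := by
        intro m _
        unfold ind
        split_ifs <;> norm_num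
      refine (sum_le_sum h1).trans ?_
      rw [sum_const, Nat.card_Icc, nsmul_eq_mul, mul_one, Nat.add_sub_cancel]
    by_cases hcy : c ≤ (y : ℤ) + b ^ 2
    · simp only [if_pos hcy]
      have h1 : 0 ≤ |cnt a b A y c - loc a b A K.factorial J y c| := abs_nonneg _
      have h2 : 0 ≤ (18 / 5 + δ) * SK a b K c * Y := by positivity
      have h3 : 0 ≤ δ / 5 * Y := by positivity
      linarith
    · simp only [if_neg hcy, add_zero]
      push Not at hcy
      have h1 := hU c hcy hc.2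
      have h2 : cnt a b (PrN (C1 * X)) y c = cnt a b A y c := by
        unfold cnt
        apply sum_congr rfl
        intro m hm
        rw [mem_Icc] at hm
        have h3 := gq_ge a ha b m
        have h4 := gq_le a b hm.2
        obtain ⟨n, hn⟩ := Int.eq_ofNat_of_zero_le (by omega : 0 ≤ c + gq a b m)
        have h5 : y < n := by omega
        have h6 : n ≤ C1 * X := by
          have h7 : ((a + b.natAbs : ℕ) : ℤ) * (y : ℤ) ^ 2 ≤ ((a + b.natAbs : ℕ) : ℤ) * X := by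
            apply mul_le_mul_of_nonneg_left _ (by positivity)
            exact_mod_cast hy2
          have h8 : ((C1 * X : ℕ) : ℤ) = ((a + b.natAbs : ℕ) : ℤ) * X + 3 * X := by
            rw [hC1]
            push_cast
            ring
          have h9 : (n : ℤ) ≤ ((C1 * X : ℕ) : ℤ) := by
            rw [h8]
            omega
          exact_mod_cast h9
        rw [hn, ind_PrN h6, hA, ind_PrQ h6 h5]
        simp
      rw [h2]
      have h3 : cnt a b A y c ≤ |cnt a b A y c - loc a b A K.factorial J y c| +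
          loc a b A K.factorial J y c := by
        have := le_abs_self (cnt a b A y c - loc a b A K.factorial J y c)
        linarith
      have h4 : (18 / 5 + δ / 5) * SK a b K c * Y ≤ (18 / 5 + δ) * SK a b K c * Y := by
        gcongr
        linarith
      linarith

end Pool.Agent.V8H34.TR
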