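import Mathlib
import Pool.Agent.V8H34.TR.Main1

/-!
# Short segments of quadratic polynomials: the constants
-/

set_option autoImplicit false

namespace Pool.Agent.V8H34.TR

open Finset Filter Topology
open Pool.Agent.W468.ConjF (SJ PJ PJ_le PJ_tendsto)
open Pool.Agent.H373R2.T7 (Vz pz Vz_pos nuB mem_pz sys_count PerB lam_ap)
open Pool.Agent.R460.SB (Sz Sz_prod QS QS_perB nu_leg)
open Pool.Agent.R460.SC (Sz_split PJ_lim om cf cf_eq)

def Adm (a b c : ℤ) : Prop :=
  0 < a ∧ (∀ d : ℤ, d ∣ a → d ∣ b → d ∣ c → IsUnit d) ∧ ¬ ((2 : ℤ) ∣ a + b ∧ (2 : ℤ) ∣ c) ∧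
    ¬ IsSquare (b ^ 2 - 4 * a * c)

noncomputable def epsi (a b : ℤ) : ℝ := if (2 : ℤ) ∣ a + b then 2 else 1

noncomputable def gP (a b : ℤ) : ℝ :=
  ∏ p ∈ (Int.gcd a b).primeFactors.filter (fun p => 2 < p), (p : ℝ) / (p - 1)

noncomputable def pC (a b c : ℤ) (z : ℕ) : ℝ :=
  ∏ p ∈ (Icc 3 z).filter (fun p : ℕ => p.Prime ∧ ¬ (p : ℤ) ∣ a),
    (1 - (jacobiSym (b ^ 2 - 4 * a * c) p : ℝ) / (p - 1))

theorem epsi_pos (a b : ℤ) : 0 < epsi a b := by
  unfold epsi
  split_ifs <;> norm_num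

theorem gP_pos (a b : ℤ) : 0 < gP a b := by
  unfold gP
  apply prod_pos
  intro p hp
  rw [mem_filter] at hp
  have h1 : (2 : ℝ) < p := by exact_mod_cast hp.2
  apply div_pos <;> linarith

theorem nu_om (a b c : ℤ) (p : ℕ) : nuB (QS (-a) (-b) c) p = om a b c p := by
  unfold om nuB QS
  congr 1
  ext m
  have e : c - (-a * (m : ℤ) ^ 2 + -b * (m : ℤ)) = a * (m : ℤ) ^ 2 + b * (m : ℤ) + c := by ring
  simp only [mem_filter, e]

theorem two_cf (a b c : ℤ) (ha : 0 < a) {z : ℕ} (hz : a.natAbs ≤ z) :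
    2 * cf a b c z = epsi a b * pC a b c z * gP a b := by
  unfold cf epsi pC gP
  have h1 : (Icc 3 z).filter (fun p : ℕ => p.Prime ∧ (p : ℤ) ∣ a ∧ (p : ℤ) ∣ b) =
      (Int.gcd a b).primeFactors.filter (fun p => 2 < p) := by
    ext p
    rw [mem_filter, mem_filter, mem_Icc, Nat.mem_primeFactors]
    constructor
    · rintro ⟨⟨h2, -⟩, h3, h4, h5⟩
      refine ⟨⟨h3, ?_, ?_⟩, by omega⟩
      · have := Int.dvd_coe_gcd h4 h5
        exact_mod_cast this
      · intro h6
        rw [Int.gcd_eq_zero_iff] at h6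
        omega
    · rintro ⟨⟨h3, h4, -⟩, h6⟩
      have h5 : (p : ℤ) ∣ (Int.gcd a b : ℤ) := by exact_mod_cast h4
      have h7 := h5.trans (Int.gcd_dvd_left ..)
      have h8 := h5.trans (Int.gcd_dvd_right ..)
      have h9 := Int.le_of_dvd ha h7
      exact ⟨⟨by omega, by omega⟩, h3, h7, h8⟩
  rw [h1]
  have h2 : (2 : ℝ) * (if Odd (a + b) then 1 / 2 else 1) = if (2 : ℤ) ∣ a + b then 2 else 1 := by
    by_cases h3 : Odd (a + b)
    · have h4 : ¬ (2 : ℤ) ∣ a + b := by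
        rw [← even_iff_two_dvd]
        exact Int.not_even_iff_odd.2 h3
      rw [if_pos h3, if_neg h4]
      norm_num
    · have h4 : (2 : ℤ) ∣ a + b := by
        rw [← even_iff_two_dvd]
        exact Int.not_odd_iff_even.1 h3
      rw [if_neg h3, if_pos h4]
      norm_num
  rw [← h2]
  ring

/-- the local conditions -/
def Lc (a b c : ℤ) : Prop :=
  (∀ d : ℤ, d ∣ a → d ∣ b → d ∣ c → IsUnit d) ∧ ¬ ((2 : ℤ) ∣ a + b ∧ (2 : ℤ) ∣ c)

theorem Sz_eq (a b c : ℤ) (ha : 0 < a) (h : Lc a b c) {z : ℕ} (hz : a.natAbs ≤ z) (hz2 : 2 ≤ z) :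
    Sz (-a) (-b) c z = epsi a b * pC a b c z * gP a b := by
  rw [← two_cf a b c ha hz, Sz_prod]
  simp_rw [nu_om]
  have hpz : pz z = (Icc 1 z).filter Nat.Prime := rfl
  rw [hpz]
  apply cf_eq
  · rintro ⟨h1, h2⟩
    exact h.2 ⟨even_iff_two_dvd.1 h1, even_iff_two_dvd.1 h2⟩
  · intro p hp h1 h2 h3
    have h4 := h.1 p h1 h2 h3
    rw [Int.isUnit_iff] at h4
    have := hp.two_le
    omega
  · intro p hp hp2 hpa
    have h1 := nu_leg (-a) (-b) c hp (by omega) (by rwa [dvd_neg])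
    rw [nu_om] at h1
    have h2 : 4 * (-a) * c + (-b) ^ 2 = b ^ 2 - 4 * a * c := by ring
    rw [h2] at h1
    exact_mod_cast h1
  · exact hz2

/-- no prime divides all the values -/
theorem om_lt {a b c : ℤ} (h : Lc a b c) {p : ℕ} (hp : p.Prime) : om a b c p < p := by
  by_contra h1
  push Not at h1
  have h2 : (range p).filter (fun m : ℕ => (p : ℤ) ∣ a * (m : ℤ) ^ 2 + b * (m : ℤ) + c) = range p := by
    apply eq_of_subset_of_card_le (filter_subset _ _)
    rw [card_range]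
    exact h1
  have h3 : ∀ m : ℕ, m < p → (p : ℤ) ∣ a * (m : ℤ) ^ 2 + b * (m : ℤ) + c := by
    intro m hm
    have h4 : m ∈ (range p).filter (fun m : ℕ => (p : ℤ) ∣ a * (m : ℤ) ^ 2 + b * (m : ℤ) + c) := by
      rw [h2, mem_range]
      exact hm
    rw [mem_filter] at h4
    exact h4.2
  have hp2 := hp.two_le
  have e0 := h3 0 (by omega)
  have e1 := h3 1 (by omega)
  have f0 : (p : ℤ) ∣ c := by simpa using e0
  have f1 : (p : ℤ) ∣ a + b := by
    have h4 := dvd_sub e1 f0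
    have h5 : a * ((1 : ℕ) : ℤ) ^ 2 + b * ((1 : ℕ) : ℤ) + c - c = a + b := by push_cast; ring
    rwa [h5] at h4
  rcases Nat.lt_or_ge 2 p with hp3 | hp3
  · have e2 := h3 2 hp3
    have f2 : (p : ℤ) ∣ 2 * a := by
      have h4 := dvd_sub (dvd_sub e2 f0) (f1.mul_left 2)
      have h5 : a * ((2 : ℕ) : ℤ) ^ 2 + b * ((2 : ℕ) : ℤ) + c - c - 2 * (a + b) = 2 * a := by
        push_cast; ring
      rwa [h5] at h4
    have f3 : (p : ℤ) ∣ a := by
      have h4 : IsCoprime (p : ℤ) 2 := by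
        have h5 : Nat.Coprime p 2 := by
          rw [Nat.Prime.coprime_iff_not_dvd hp]
          intro h6
          have := Nat.le_of_dvd (by norm_num) h6
          omega
        exact_mod_cast Nat.isCoprime_iff_coprime.2 h5
      exact h4.dvd_of_dvd_mul_left f2
    have f4 : (p : ℤ) ∣ b := (dvd_add_right f3).1 f1
    have h4 := h.1 p f3 f4 f0
    rw [Int.isUnit_iff] at h4
    omega
  · have hpe : p = 2 := by omega
    rw [hpe] at f0 f1
    exact h.2 ⟨by exact_mod_cast f1, by exact_mod_cast f0⟩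

theorem SK_eq_prod (a : ℕ) (b : ℤ) (K : ℕ) (c : ℤ) :
    SK a b K c = (Vz K)⁻¹ * ∏ p ∈ pz K, (1 - (om a b c p : ℝ) / p) := by
  unfold SK Sz
  simp_rw [nu_om]

theorem SK_pos {a : ℕ} {b c : ℤ} (h : Lc a b c) (K : ℕ) : 0 < SK a b K c := by
  rw [SK_eq_prod]
  apply mul_pos (inv_pos.2 (Vz_pos K))
  apply prod_pos
  intro p hp
  rw [mem_pz] at hp
  have h1 := om_lt h hp.2
  have h2 : (om a b c p : ℝ) < p := by exact_mod_cast h1
  have h3 : (0 : ℝ) < p := by
    have := hp.2.pos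
    exact_mod_cast this
  rw [sub_pos, div_lt_one h3]
  exact h2

theorem Lc_of_SK {a : ℕ} {b c : ℤ} (ha : 1 ≤ a) {K : ℕ} (hK : a ≤ K) (hK2 : 2 ≤ K)
    (h : 0 < SK a b K c) : Lc a b c := by
  rw [SK_eq_prod] at h
  have h1 : ∀ p ∈ pz K, om a b c p < p := by
    intro p hp
    by_contra h2
    push Not at h2
    have h3 : om a b c p ≤ p := by
      unfold om
      refine (card_filter_le _ _).trans ?_
      rw [card_range]
    have h4 : om a b c p = p := le_antisymm h3 h2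
    rw [mem_pz] at hp
    have hp0 : (p : ℝ) ≠ 0 := by
      have := hp.2.ne_zero
      exact_mod_cast this
    have h5 : ∏ p ∈ pz K, (1 - (om a b c p : ℝ) / p) = 0 := by
      apply prod_eq_zero (i := p) (by rw [mem_pz]; exact hp)
      rw [h4, div_self hp0, sub_self]
    rw [h5, mul_zero] at h
    exact lt_irrefl _ h
  constructor
  · intro d hda hdb hdc
    by_contra hd
    have hd0 : d ≠ 0 := by
      rintro rfl
      rw [zero_dvd_iff] at hda
      omega
    have hd1 : d.natAbs ≠ 1 := by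
      intro h2
      exact hd (Int.isUnit_iff_natAbs_eq.2 h2)
    obtain ⟨p, hp, hpd⟩ := Nat.exists_prime_and_dvd hd1
    have hpd' : (p : ℤ) ∣ d := Int.natCast_dvd.2 hpd
    have hpa : (p : ℤ) ∣ a := hpd'.trans hda
    have hpK : p ≤ K := by
      have h2 : p ∣ a := by exact_mod_cast hpa
      exact (Nat.le_of_dvd (by omega) h2).trans hK
    have h2 := h1 p (by rw [mem_pz]; exact ⟨hpK, hp⟩)
    have h3 : om a b c p = p := by
      unfold om
      have h4 : (range p).filter (fun m : ℕ => (p : ℤ) ∣ (a : ℤ) * (m : ℤ) ^ 2 + b * (m : ℤ) + c) = range p := by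
        rw [filter_eq_self]
        intro m _
        exact dvd_add (dvd_add (hpa.mul_right _) ((hpd'.trans hdb).mul_right _)) (hpd'.trans hdc)
      rw [h4, card_range]
    omega
  · rintro ⟨h2, h3⟩
    have h4 := h1 2 (by rw [mem_pz]; exact ⟨hK2, Nat.prime_two⟩)
    have h5 : om a b c 2 = 2 := by
      unfold om
      have h6 : (range 2).filter (fun m : ℕ => ((2 : ℕ) : ℤ) ∣ (a : ℤ) * (m : ℤ) ^ 2 + b * (m : ℤ) + c) = range 2 := by
        rw [filter_eq_self]
        intro m hm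
        rw [mem_range] at hm
        interval_cases m
        · simpa using h3
        · have := dvd_add h2 h3
          simpa using this
      rw [h6, card_range]
    omega

/-- a positive lower bound for the positive values -/
theorem exists_tau (s : Finset ℕ) (f : ℕ → ℝ) : ∃ τ : ℝ, 0 < τ ∧ ∀ r ∈ s, 0 < f r → τ ≤ f r := by
  classical
  induction s using Finset.induction_on with
  | empty => exact ⟨1, one_pos, by simp⟩
  | insert r s _ ih =>
    obtain ⟨τ, hτ, h⟩ := ih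
    by_cases h0 : 0 < f r
    · refine ⟨min τ (f r), lt_min hτ h0, fun r' hr' h1 => ?_⟩
      rw [mem_insert] at hr'
      rcases hr' with rfl | hr'
      · exact min_le_right _ _
      · exact (min_le_left _ _).trans (h r' hr' h1)
    · refine ⟨τ, hτ, fun r' hr' h1 => ?_⟩
      rw [mem_insert] at hr'
      rcases hr' with rfl | hr'
      · exact absurd h1 h0
      · exact h r' hr' h1

theorem SK_tau (a : ℕ) (b : ℤ) (K : ℕ) : ∃ τ : ℝ, 0 < τ ∧ ∀ c : ℤ, 0 < SK a b K c → τ ≤ SK a b K c := by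
  obtain ⟨τ, hτ, h⟩ := exists_tau (range K.factorial) (fun r => SK a b K (r : ℤ))
  refine ⟨τ, hτ, fun c hc => ?_⟩
  have hW : (0 : ℤ) < K.factorial := by exact_mod_cast Nat.factorial_pos K
  obtain ⟨r, hr⟩ := Int.eq_ofNat_of_zero_le (Int.emod_nonneg c hW.ne')
  have h1 : SK a b K c = SK a b K (r : ℤ) := by
    apply SK_per
    have h2 := Int.emod_add_mul_ediv c (K.factorial : ℤ)
    rw [hr] at h2
    exact ⟨c / (K.factorial : ℤ), by omega⟩
  rw [h1] at hc ⊢
  apply h r _ hc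
  rw [mem_range]
  have h3 := Int.emod_lt_of_pos c hW
  rw [hr] at h3
  exact_mod_cast h3

/-- **The constant.** -/
theorem const_lim {a : ℕ} {b c : ℤ} (ha : 1 ≤ a) (h : Lc a b c) {K : ℕ} (hK : a ≤ K) (hK2 : 2 ≤ K)
    {δs : ℝ} (hδ0 : 0 ≤ δs) (hδ : δs + 5 / K ≤ 1 / 2) (hsq : ¬ IsSquare (b ^ 2 - 4 * a * c))
    (hSJ : ∀ᶠ N in atTop, |SJ (b ^ 2 - 4 * a * c) K N| ≤ δs) :
    ∃ C : ℝ, 0 < C ∧ Tendsto (fun z => pC a b c z) atTop (𝓝 C) ∧
      |epsi a b * C * gP a b - SK a b K c| ≤ 2 * (δs + 5 / K) * SK a b K c := by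
  obtain ⟨L, hL0, hL, hL1⟩ := PJ_lim hsq hK2 hδ0 hδ hSJ
  have hS := SK_pos h K
  have he := epsi_pos a b
  have hg := gP_pos a b
  have haz : (0 : ℤ) < a := by exact_mod_cast ha
  refine ⟨SK a b K c * L / (epsi a b * gP a b), by positivity, ?_, ?_⟩
  · have h1 : Tendsto (fun N => SK a b K c * PJ (b ^ 2 - 4 * a * c) K N / (epsi a b * gP a b)) atTop
        (𝓝 (SK a b K c * L / (epsi a b * gP a b))) := (hL.const_mul _).div_const _
    refine h1.congr' ?_
    filter_upwards [eventually_ge_atTop K] with N hN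
    have h2 := Sz_split (a := (a : ℤ)) (b := b) (c := c) haz hK2 (by exact_mod_cast hK) hN
    have h3 := Sz_eq (a : ℤ) b c haz h (z := N) (by omega) (by omega)
    rw [h3] at h2
    have h4 : SK a b K c * PJ (b ^ 2 - 4 * a * c) K N = epsi a b * pC a b c N * gP a b := by
      unfold SK
      exact h2.symm
    rw [h4]
    field_simp
  · have h1 : epsi a b * (SK a b K c * L / (epsi a b * gP a b)) * gP a b - SK a b K c =
        SK a b K c * (L - 1) := by
      field_simp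
    rw [h1, abs_mul, abs_of_pos hS, mul_comm]
    exact mul_le_mul_of_nonneg_right hL1 hS.le

end Pool.Agent.V8H34.TR
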