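import Mathlib
import Pool.Agent.V8H34.TR.Ser

/-!
# Short segments of quadratic polynomials: prime values, upper bounds and positive proportions
-/

set_option autoImplicit false

namespace Pool.Agent.V8H34.TR

open Finset Filter Topology
open Pool.Agent.W468.ConjF (SJ PJ PJ_le PJ_tendsto)

open Classical in
/-- the conclusion for the constant terms -/
theorem final (a : ℕ) (ha : 1 ≤ a) (b : ℤ) (θ : ℝ) (hθ : 0 < θ) (δ : ℝ) (hδ : 0 < δ) (hδ1 : δ ≤ 1) :
    ∀ᶠ X : ℕ in atTop, ∀ y : ℕ, (X : ℝ) ^ θ ≤ y → y ^ 2 ≤ X →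
      (∃ Bad ⊆ Icc 1 (X : ℤ), (#Bad : ℝ) ≤ δ * X ∧ ∀ c ∈ Icc 1 (X : ℤ), c ∉ Bad → Adm a b c →
        ∃ C : ℝ, 0 < C ∧ Tendsto (fun z => pC a b c z) atTop (𝓝 C) ∧
          cnt a b (PrN ((a + b.natAbs + 3) * X)) y c ≤
            (18 / 5 + δ) * (epsi a b * C * gP a b) * (y / Real.log X)) ∧
      ∀ μ : ℝ, 0 ≤ μ → μ ≤ 1 →
        (1 - μ) / (18 / 5 - μ) * (#((Icc 1 (X : ℤ)).filter (fun c => Adm a b c)) : ℝ) - δ * X ≤
        (#((Icc 1 (X : ℤ)).filter (fun c => Adm a b c ∧ ∃ C : ℝ, 0 < C ∧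
          Tendsto (fun z => pC a b c z) atTop (𝓝 C) ∧
          μ * (epsi a b * C * gP a b) * (y / Real.log X) ≤
            cnt a b (PrN ((a + b.natAbs + 3) * X)) y c)) : ℝ) := by
  have haz : (0 : ℤ) < a := by exact_mod_cast ha
  set δs : ℝ := δ / 160 with hδs
  have hδs0 : 0 < δs := by positivity
  obtain ⟨Ks, hKs⟩ := sing_tail a haz b δs hδs0
  set K0 : ℕ := max (max Ks ⌈800 / δ⌉₊) (max a 2) with hK0
  have hK0s : Ks ≤ K0 := (le_max_left _ _).trans (le_max_left _ _)
  have hK0δ : ⌈800 / δ⌉₊ ≤ K0 := (le_max_right _ _).trans (le_max_left _ _)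
  have hK0a : a ≤ K0 := (le_max_left _ _).trans (le_max_right _ _)
  have hK02 : 2 ≤ K0 := (le_max_right _ _).trans (le_max_right _ _)
  have h5K : ∀ K : ℕ, K0 ≤ K → 5 / (K : ℝ) ≤ δ / 160 := by
    intro K hK
    have h1 : 800 / δ ≤ K := (Nat.le_ceil _).trans (by exact_mod_cast hK0δ.trans hK)
    have h2 : (0 : ℝ) < K := lt_of_lt_of_le (by positivity) h1
    rw [div_le_iff₀ h2]
    rw [div_le_iff₀ hδ] at h1
    linarith
  have hδsK : ∀ K : ℕ, K0 ≤ K → δs + 5 / K ≤ 1 / 2 := fun K hK => by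
    have := h5K K hK
    linarith
  have h2δ : ∀ K : ℕ, K0 ≤ K → 2 * (δs + 5 / (K : ℝ)) ≤ δ / 40 := fun K hK => by
    have := h5K K hK
    linarith
  obtain ⟨τ0, hτ0, hτ⟩ := SK_tau a b K0
  set τ : ℝ := τ0 / 3 with hτd
  have hτp : 0 < τ := by positivity
  set τ' : ℝ := min τ 1 with hτ'
  have hτ'0 : 0 < τ' := lt_min hτp one_pos
  have hτ'1 : τ' ≤ 1 := min_le_right _ _
  have hτ'τ : τ' ≤ τ := min_le_left _ _
  set ρ : ℝ := δ * τ' / 10 with hρ
  have hρ0 : 0 < ρ := by positivity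
  have hρδ : ρ ≤ δ / 10 := by
    rw [hρ]
    have : δ * τ' ≤ δ * 1 := mul_le_mul_of_nonneg_left hτ'1 hδ.le
    linarith
  have hρτ : ρ ≤ δ / 10 * τ := by
    rw [hρ]
    have : δ * τ' ≤ δ * τ := mul_le_mul_of_nonneg_left hτ'τ hδ.le
    linarith
  have hρ1 : ρ ≤ 1 / 10 := by linarith
  have hρ2 : ρ ^ 2 ≤ δ / 100 := by nlinarith
  have hρ3 : ρ ^ 2 / τ ≤ δ / 100 := by
    rw [div_le_iff₀ hτp]
    nlinarith
  obtain ⟨K, hKmin, hK1, hcore⟩ := core2 a ha b θ hθ (ρ ^ 2) (by positivity) (by nlinarith) K0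
  have hKa : a ≤ K := hK0a.trans hKmin
  have hK2 : 2 ≤ K := hK02.trans hKmin
  obtain ⟨X1, hX1⟩ := hKs K0 hK0s
  obtain ⟨X2, hX2⟩ := hKs K (hK0s.trans hKmin)
  have hfm := fm a ha b θ hθ (δ / 10) (by positivity) K hK1 τ hτp
  filter_upwards [hcore, hfm, eventually_ge_atTop X1, eventually_ge_atTop X2, eventually_ge_atTop 2,
    ev_rpow_nat 1 hθ] with X hcore hfm hXX1 hXX2 hX2' hX1θ y hy1 hy2
  obtain ⟨D, hD0, hD1, hD2⟩ := hcore y hy1 hy2
  have hfm := hfm y hy1 hy2
  obtain ⟨Ex0, hEx0, hE0⟩ := hX1 X hXX1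
  obtain ⟨Ex1, hEx1, hE1⟩ := hX2 X hXX2
  have hX0 : (0 : ℝ) < X := by
    have : 0 < X := by omega
    exact_mod_cast this
  have hlogX : 0 < Real.log X := Real.log_pos (by exact_mod_cast (by omega : 1 < X))
  have hy1R : (1 : ℝ) ≤ y := hX1θ.trans hy1
  set Y : ℝ := (y : ℝ) / Real.log X with hY
  have hY0 : 0 < Y := by positivity
  set N := (a + b.natAbs + 3) * X with hN
  -- the constants
  have hconst : ∀ c ∈ Icc 1 (X : ℤ), c ∉ Ex0 → c ∉ Ex1 → Adm a b c → τ ≤ SK a b K c ∧
      ∃ C : ℝ, 0 < C ∧ Tendsto (fun z => pC a b c z) atTop (𝓝 C) ∧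
        |epsi a b * C * gP a b - SK a b K c| ≤ δ / 40 * SK a b K c := by
    intro c hc h0 h1 hadm
    rw [mem_Icc] at hc
    obtain ⟨hs0, hJ0⟩ := hE0 c hc.1 hc.2 h0
    obtain ⟨hs1, hJ1⟩ := hE1 c hc.1 hc.2 h1
    have hLc : Lc a b c := ⟨hadm.2.1, hadm.2.2.1⟩
    obtain ⟨C0, hC0, hlim0, hab0⟩ := const_lim ha hLc hK0a hK02 hδs0.le (hδsK K0 le_rfl) hs0 hJ0
    obtain ⟨C1, hC1, hlim1, hab1⟩ := const_lim ha hLc hKa hK2 hδs0.le (hδsK K hKmin) hs1 hJ1
    have hCC := tendsto_nhds_unique hlim0 hlim1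
    have hS0 := SK_pos hLc K0
    have hS1 := SK_pos hLc K
    have hτc := hτ c hS0
    refine ⟨?_, C1, hC1, hlim1, ?_⟩
    · rw [hCC] at hab0
      rw [abs_le] at hab0 hab1
      have e0 := mul_le_mul_of_nonneg_right (h2δ K0 le_rfl) hS0.le
      have e1 := mul_le_mul_of_nonneg_right (h2δ K hKmin) hS1.le
      have e2 : δ / 40 * SK a b K0 c ≤ 1 / 40 * SK a b K0 c := by gcongr
      have e3 : δ / 40 * SK a b K c ≤ 1 / 40 * SK a b K c := by gcongr
      linarith [hab0.1, hab1.2]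
    · exact hab1.trans (mul_le_mul_of_nonneg_right (h2δ K hKmin) hS1.le)
  set BX : Finset ℤ := (Icc 1 (X : ℤ)).filter (fun c => c ∈ Ex0 ∨ c ∈ Ex1) with hBX
  have hBXc : (#BX : ℝ) ≤ δ / 80 * X := by
    have h1 : #BX ≤ #Ex0 + #Ex1 := by
      refine (card_le_card (t := Ex0 ∪ Ex1) ?_).trans (card_union_le _ _)
      intro c hc
      rw [hBX, mem_filter] at hc
      exact mem_union.2 hc.2
    have h2 : (#BX : ℝ) ≤ (#Ex0 : ℝ) + #Ex1 := by exact_mod_cast h1
    rw [hδs] at hEx0 hEx1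
    linarith
  constructor
  · -- the upper bound
    set B1 : Finset ℤ := (Icc 1 (X : ℤ)).filter (fun c => ρ * Y < D c) with hB1
    have hB1c : (#B1 : ℝ) ≤ ρ * X := by
      have h1 : (#B1 : ℝ) * (ρ * Y) ≤ ∑ c ∈ Icc 1 (X : ℤ), D c := by
        calc (#B1 : ℝ) * (ρ * Y) = ∑ c ∈ B1, ρ * Y := by rw [sum_const, nsmul_eq_mul]
          _ ≤ ∑ c ∈ B1, D c := by
            apply sum_le_sum
            intro c hc
            rw [hB1, mem_filter] at hc
            exact hc.2.le
          _ ≤ ∑ c ∈ Icc 1 (X : ℤ), D c :=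
            sum_le_sum_of_subset_of_nonneg (filter_subset _ _) fun c _ _ => hD0 c
      have h2 := h1.trans hD1
      have h3 : ρ ^ 2 * (X * Y) = (ρ * X) * (ρ * Y) := by ring
      rw [h3] at h2
      exact le_of_mul_le_mul_right h2 (by positivity)
    refine ⟨BX ∪ B1, ?_, ?_, ?_⟩
    · rw [union_subset_iff]
      exact ⟨filter_subset _ _, filter_subset _ _⟩
    · have h1 : (#(BX ∪ B1) : ℝ) ≤ (#BX : ℝ) + #B1 := by exact_mod_cast card_union_le _ _
      have h2 : ρ * X ≤ δ / 10 * X := mul_le_mul_of_nonneg_right hρδ hX0.le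
      have h3 : 0 ≤ δ * X := by positivity
      linarith
    · intro c hc hcB hadm
      rw [mem_union, not_or, hBX, hB1, mem_filter, mem_filter] at hcB
      obtain ⟨hcB1, hcB2⟩ := hcB
      have h0 : c ∉ Ex0 := fun h => hcB1 ⟨hc, Or.inl h⟩
      have h1 : c ∉ Ex1 := fun h => hcB1 ⟨hc, Or.inr h⟩
      have h2 : D c ≤ ρ * Y := by
        by_contra h3
        exact hcB2 ⟨hc, not_le.1 h3⟩
      obtain ⟨hτS, C, hC, hlim, hab⟩ := hconst c hc h0 h1 hadm
      refine ⟨C, hC, hlim, ?_⟩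
      have h3 := hD2 c hc
      have hS : 0 < SK a b K c := lt_of_lt_of_le hτp hτS
      rw [abs_le] at hab
      have h4 : ρ ≤ δ / 10 * SK a b K c := hρτ.trans (mul_le_mul_of_nonneg_left hτS (by positivity))
      have h5 : (18 / 5 + ρ ^ 2) * SK a b K c + ρ ≤ (18 / 5 + δ) * (epsi a b * C * gP a b) := by
        have h6 : (1 - δ / 40) * SK a b K c ≤ epsi a b * C * gP a b := by linarith [hab.1]
        have h7 : (18 / 5 + ρ ^ 2) * SK a b K c + ρ ≤ (18 / 5 + δ / 5) * SK a b K c := by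
          have : ρ ^ 2 * SK a b K c ≤ δ / 100 * SK a b K c := mul_le_mul_of_nonneg_right hρ2 hS.le
          nlinarith
        have h8 : (18 / 5 + δ / 5) * SK a b K c ≤ (18 / 5 + δ) * ((1 - δ / 40) * SK a b K c) := by
          have h9 : 18 / 5 + δ / 5 ≤ (18 / 5 + δ) * (1 - δ / 40) := by nlinarith
          calc (18 / 5 + δ / 5) * SK a b K c ≤ ((18 / 5 + δ) * (1 - δ / 40)) * SK a b K c :=
                mul_le_mul_of_nonneg_right h9 hS.le
            _ = (18 / 5 + δ) * ((1 - δ / 40) * SK a b K c) := by ring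
        have h9 : (18 / 5 + δ) * ((1 - δ / 40) * SK a b K c) ≤
            (18 / 5 + δ) * (epsi a b * C * gP a b) := mul_le_mul_of_nonneg_left h6 (by positivity)
        linarith
      calc cnt a b (PrN N) y c ≤ (18 / 5 + ρ ^ 2) * SK a b K c * Y + D c := h3
        _ ≤ (18 / 5 + ρ ^ 2) * SK a b K c * Y + ρ * Y := by linarith
        _ = ((18 / 5 + ρ ^ 2) * SK a b K c + ρ) * Y := by ring
        _ ≤ (18 / 5 + δ) * (epsi a b * C * gP a b) * Y := mul_le_mul_of_nonneg_right h5 hY0.le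
  · intro μ hμ0 hμ1
    set G : Finset ℤ := (Icc 1 (X : ℤ)).filter (fun c => τ ≤ SK a b K c) with hG
    set μ' : ℝ := μ * (1 + δ / 40) with hμ'
    have hμ'0 : 0 ≤ μ' := by positivity
    have hμ'1 : μ' ≤ μ + δ / 40 := by
      rw [hμ']
      nlinarith
    set B : Finset ℤ := G.filter (fun c => μ' * SK a b K c * Y ≤ cnt a b (PrN N) y c) with hB
    set T : Finset ℤ := (Icc 1 (X : ℤ)).filter (fun c => Adm a b c ∧ ∃ C : ℝ, 0 < C ∧
          Tendsto (fun z => pC a b c z) atTop (𝓝 C) ∧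
          μ * (epsi a b * C * gP a b) * Y ≤ cnt a b (PrN N) y c) with hT
    set Ad : Finset ℤ := (Icc 1 (X : ℤ)).filter (fun c => Adm a b c) with hAd
    -- relations of the sets
    have r1 : (#Ad : ℝ) ≤ #G + δ / 80 * X := by
      have h1 : Ad ⊆ G ∪ BX := by
        intro c hc
        rw [hAd, mem_filter] at hc
        rw [mem_union]
        by_cases h2 : c ∈ BX
        · exact Or.inr h2
        · left
          rw [hBX, mem_filter, not_and, not_or] at h2
          have h3 := h2 hc.1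
          rw [hG, mem_filter]
          exact ⟨hc.1, (hconst c hc.1 h3.1 h3.2 hc.2).1⟩
      have h2 : (#Ad : ℝ) ≤ (#G : ℝ) + #BX := by
        exact_mod_cast (card_le_card h1).trans (card_union_le _ _)
      linarith
    have r2 : (#B : ℝ) ≤ #T + δ / 80 * X := by
      have h1 : B ⊆ T ∪ BX := by
        intro c hc
        rw [hB, mem_filter, hG, mem_filter] at hc
        obtain ⟨⟨hcI, hcτ⟩, hcc⟩ := hc
        rw [mem_union]
        by_cases h2 : c ∈ BX
        · exact Or.inr h2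
        · left
          rw [hBX, mem_filter, not_and, not_or] at h2
          have h3 := h2 hcI
          have hS : 0 < SK a b K c := lt_of_lt_of_le hτp hcτ
          have hLc := Lc_of_SK ha hKa hK2 hS
          have hcI' := hcI
          rw [mem_Icc] at hcI'
          have hadm : Adm a b c := ⟨haz, hLc.1, hLc.2, (hE1 c hcI'.1 hcI'.2 h3.2).1⟩
          obtain ⟨-, C, hC, hlim, hab⟩ := hconst c hcI h3.1 h3.2 hadm
          rw [hT, mem_filter]
          refine ⟨hcI, hadm, C, hC, hlim, ?_⟩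
          rw [abs_le] at hab
          refine le_trans ?_ hcc
          apply mul_le_mul_of_nonneg_right _ hY0.le
          have h4 : epsi a b * C * gP a b ≤ (1 + δ / 40) * SK a b K c := by linarith [hab.2]
          calc μ * (epsi a b * C * gP a b) ≤ μ * ((1 + δ / 40) * SK a b K c) :=
                mul_le_mul_of_nonneg_left h4 hμ0
            _ = μ' * SK a b K c := by rw [hμ']; ring
      have h2 : (#B : ℝ) ≤ (#T : ℝ) + #BX := by
        exact_mod_cast (card_le_card h1).trans (card_union_le _ _)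
      linarith
    -- the first moment
    have hup : ∑ c ∈ Icc 1 (X : ℤ), wt a b K τ c * cnt a b (PrN N) y c ≤
        μ' * Y * ((#G : ℝ) - #B) + (18 / 5 + ρ ^ 2) * Y * #B + 1 / τ * (ρ ^ 2 * (X * Y)) := by
      have h1 : ∀ c ∈ Icc 1 (X : ℤ), wt a b K τ c * cnt a b (PrN N) y c ≤
          (if c ∈ G then μ' * Y else 0) + (if c ∈ B then (18 / 5 + ρ ^ 2) * Y - μ' * Y else 0) +
            1 / τ * D c := by
        intro c hc
        have hDc := hD0 c
        have hDτ : 0 ≤ 1 / τ * D c := by positivity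
        by_cases hcG : c ∈ G
        · have hcτ : τ ≤ SK a b K c := by
            rw [hG, mem_filter] at hcG
            exact hcG.2
          have hS : 0 < SK a b K c := lt_of_lt_of_le hτp hcτ
          rw [if_pos hcG]
          have hw : wt a b K τ c = 1 / SK a b K c := by
            unfold wt
            rw [if_pos hcτ]
          rw [hw]
          by_cases hcB : c ∈ B
          · rw [if_pos hcB]
            have h3 := hD2 c hc
            have h4 : 1 / SK a b K c * D c ≤ 1 / τ * D c :=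
              mul_le_mul_of_nonneg_right (one_div_le_one_div_of_le hτp hcτ) hDc
            calc 1 / SK a b K c * cnt a b (PrN N) y c ≤
                1 / SK a b K c * ((18 / 5 + ρ ^ 2) * SK a b K c * Y + D c) :=
                  mul_le_mul_of_nonneg_left h3 (by positivity)
              _ = (18 / 5 + ρ ^ 2) * Y + 1 / SK a b K c * D c := by field_simp
              _ ≤ _ := by linarith
          · rw [if_neg hcB, add_zero]
            have h3 : cnt a b (PrN N) y c < μ' * SK a b K c * Y := by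
              by_contra h4
              push Not at h4
              apply hcB
              rw [hB, mem_filter]
              exact ⟨hcG, h4⟩
            have h4 : 1 / SK a b K c * cnt a b (PrN N) y c ≤ μ' * Y := by
              calc 1 / SK a b K c * cnt a b (PrN N) y c ≤ 1 / SK a b K c * (μ' * SK a b K c * Y) :=
                    mul_le_mul_of_nonneg_left h3.le (by positivity)
                _ = μ' * Y := by field_simp
            linarith
        · have hcB : c ∉ B := fun h => hcG (by rw [hB, mem_filter] at h; exact h.1)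
          rw [if_neg hcG, if_neg hcB, zero_add, zero_add]
          have hw : wt a b K τ c = 0 := by
            unfold wt
            rw [if_neg]
            intro h
            apply hcG
            rw [hG, mem_filter]
            exact ⟨hc, h⟩
          rw [hw, zero_mul]
          exact hDτ
      refine (sum_le_sum h1).trans ?_
      rw [sum_add_distrib, sum_add_distrib, ← mul_sum, ← sum_filter, ← sum_filter, sum_const,
        sum_const, nsmul_eq_mul, nsmul_eq_mul]
      have h2 : (Icc 1 (X : ℤ)).filter (fun c => c ∈ G) = G := by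
        ext c
        rw [mem_filter]
        exact ⟨fun h => h.2, fun h => ⟨filter_subset _ _ h, h⟩⟩
      have h3 : (Icc 1 (X : ℤ)).filter (fun c => c ∈ B) = B := by
        ext c
        rw [mem_filter]
        exact ⟨fun h => h.2, fun h => ⟨filter_subset _ _ (filter_subset _ _ h), h⟩⟩
      rw [h2, h3]
      have h4 : 1 / τ * ∑ c ∈ Icc 1 (X : ℤ), D c ≤ 1 / τ * (ρ ^ 2 * (X * Y)) :=
        mul_le_mul_of_nonneg_left hD1 (by positivity)
      linarith
    have h1 := hfm.trans hup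
    have h2 : (#G : ℝ) - δ / 10 * X ≤ μ' * ((#G : ℝ) - #B) + (18 / 5 + ρ ^ 2) * #B + ρ ^ 2 / τ * X := by
      have h3 : Y * ((#G : ℝ) - δ / 10 * X) ≤
          Y * (μ' * ((#G : ℝ) - #B) + (18 / 5 + ρ ^ 2) * #B + ρ ^ 2 / τ * X) := by
        refine h1.trans (le_of_eq ?_)
        field_simp
      exact le_of_mul_le_mul_left h3 hY0
    have hBle : (#B : ℝ) ≤ #G := by exact_mod_cast card_filter_le _ _
    have hGle : (#G : ℝ) ≤ X := by
      have h3 : #G ≤ #(Icc 1 (X : ℤ)) := card_filter_le _ _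
      rw [Int.card_Icc] at h3
      have h4 : ((X : ℤ) + 1 - 1).toNat = X := by omega
      rw [h4] at h3
      exact_mod_cast h3
    have hB0 : (0 : ℝ) ≤ #B := Nat.cast_nonneg _
    have hG0 : (0 : ℝ) ≤ #G := Nat.cast_nonneg _
    -- (18/5 - μ) #B ≥ (1 - μ) #G - small
    have h3 : (1 - μ) * #G - (δ / 40 + δ / 10 + δ / 100 + δ / 100) * X ≤ (18 / 5 - μ) * #B := by
      have e1 : μ' * ((#G : ℝ) - #B) ≤ (μ + δ / 40) * (#G - #B) :=
        mul_le_mul_of_nonneg_right hμ'1 (by linarith)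
      have e2 : δ / 40 * ((#G : ℝ) - #B) ≤ δ / 40 * X := by
        apply mul_le_mul_of_nonneg_left _ (by positivity)
        linarith
      have e3 : ρ ^ 2 * (#B : ℝ) ≤ δ / 100 * X := by
        apply mul_le_mul hρ2 (hBle.trans hGle) hB0 (by positivity)
      have e4 : ρ ^ 2 / τ * (X : ℝ) ≤ δ / 100 * X := mul_le_mul_of_nonneg_right hρ3 hX0.le
      nlinarith
    set ν : ℝ := (1 - μ) / (18 / 5 - μ) with hν
    have hden : 1 ≤ 18 / 5 - μ := by linarith
    have hν0 : 0 ≤ ν := div_nonneg (by linarith) (by linarith)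
    have hν1 : ν ≤ 1 := by
      rw [hν, div_le_one (by linarith)]
      linarith
    have hνe : ν * (18 / 5 - μ) = 1 - μ := by
      rw [hν]
      have : (18 / 5 - μ) ≠ 0 := by linarith
      exact div_mul_cancel₀ _ this
    have h4 : ν * #G - (δ / 40 + δ / 10 + δ / 100 + δ / 100) * X ≤ #B := by
      rw [← hνe] at h3
      by_contra h5
      push Not at h5
      have h6 : 0 < ν * #G - (δ / 40 + δ / 10 + δ / 100 + δ / 100) * X - #B := by linarith
      have h7 : 0 ≤ (18 / 5 - μ - 1) * ((δ / 40 + δ / 10 + δ / 100 + δ / 100) * X) := by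
        apply mul_nonneg (by linarith) (by positivity)
      nlinarith
    have h5 : ν * (#Ad : ℝ) ≤ ν * #G + δ / 80 * X := by
      calc ν * (#Ad : ℝ) ≤ ν * (#G + δ / 80 * X) := mul_le_mul_of_nonneg_left r1 hν0
        _ = ν * #G + ν * (δ / 80 * X) := by ring
        _ ≤ ν * #G + 1 * (δ / 80 * X) := by
          have : ν * (δ / 80 * X) ≤ 1 * (δ / 80 * X) :=
            mul_le_mul_of_nonneg_right hν1 (by positivity)
          linarith
        _ = ν * #G + δ / 80 * X := by ring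
    have h6 : 0 ≤ δ * X := by positivity
    linarith

end Pool.Agent.V8H34.TR
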