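import Mathlib
import Pool.Agent.V8H34.TR.Main2

/-!
# Short segments of quadratic polynomials: final forms
-/

set_option autoImplicit false

namespace Pool.Agent.V8H34.TR

open Finset Filter Topology

open Classical in
noncomputable def countQ (Q : Set ℕ) (a b c : ℤ) (y : ℕ) : ℕ :=
  #((Icc 1 y).filter (fun m : ℕ => (a * (m : ℤ) ^ 2 + b * m + c).toNat.Prime ∧
    (a * (m : ℤ) ^ 2 + b * m + c).toNat ∈ Q))

open Classical in
noncomputable def inProg (Q : Set ℕ) (n : ℤ) (W J : ℕ) : ℕ :=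
  #((Icc 1 J).filter (fun j : ℕ => (n + W * j).toNat.Prime ∧ (n + W * j).toNat ∈ Q))

noncomputable def locQ (Q : Set ℕ) (a b c : ℤ) (W J y : ℕ) : ℝ :=
  ∑ m ∈ Icc 1 y, (inProg Q (a * (m : ℤ) ^ 2 + b * m + c) W J : ℝ) / J

theorem val_range {a X y m : ℕ} {b c : ℤ} (ha : 1 ≤ a) (hm : m ∈ Icc 1 y) (hy : y ^ 2 ≤ X)
    (hc1 : (y : ℤ) + b ^ 2 < c) (hc2 : c ≤ X) : ∃ n : ℕ, c + gq a b m = n ∧ y < n ∧
      n + 2 * X ≤ (a + b.natAbs + 3) * X := by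
  rw [mem_Icc] at hm
  have h3 := gq_ge a ha b m
  have h4 := gq_le a b hm.2
  obtain ⟨n, hn⟩ := Int.eq_ofNat_of_zero_le (by omega : 0 ≤ c + gq a b m)
  refine ⟨n, hn, by omega, ?_⟩
  have h7 : ((a + b.natAbs : ℕ) : ℤ) * (y : ℤ) ^ 2 ≤ ((a + b.natAbs : ℕ) : ℤ) * X := by
    apply mul_le_mul_of_nonneg_left _ (by positivity)
    exact_mod_cast hy
  have h8 : (((a + b.natAbs + 3) * X : ℕ) : ℤ) = ((a + b.natAbs : ℕ) : ℤ) * X + 3 * X := by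
    push_cast
    ring
  have h9 : ((n + 2 * X : ℕ) : ℤ) ≤ (((a + b.natAbs + 3) * X : ℕ) : ℤ) := by
    rw [h8]
    push_cast
    push_cast at h7 h4
    omega
  exact_mod_cast h9

theorem cnt_countQ {a X y : ℕ} {b c : ℤ} (Q : Set ℕ) (ha : 1 ≤ a) (hy : y ^ 2 ≤ X)
    (hc1 : (y : ℤ) + b ^ 2 < c) (hc2 : c ≤ X) :
    cnt a b (PrQ Q y ((a + b.natAbs + 3) * X)) y c = countQ Q a b c y := by
  classical
  unfold cnt countQ
  rw [card_filter]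
  push_cast
  apply sum_congr rfl
  intro m hm
  obtain ⟨n, hn, hyn, hnN⟩ := val_range ha hm hy hc1 hc2
  rw [hn, ind_PrQ (by omega) hyn]
  have h1 : (a : ℤ) * (m : ℤ) ^ 2 + b * m + c = n := by
    rw [← hn]
    unfold gq
    ring
  rw [h1, Int.toNat_natCast]

theorem loc_locQ {a X y W J : ℕ} {b c : ℤ} (Q : Set ℕ) (ha : 1 ≤ a) (hy : y ^ 2 ≤ X)
    (hc1 : (y : ℤ) + b ^ 2 < c) (hc2 : c ≤ X) (hWJ : W * J ≤ X) :
    loc a b (PrQ Q y ((a + b.natAbs + 3) * X)) W J y c = locQ Q a b c W J y := by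
  classical
  unfold loc locQ
  apply sum_congr rfl
  intro m hm
  obtain ⟨n, hn, hyn, hnN⟩ := val_range ha hm hy hc1 hc2
  have h1 : (a : ℤ) * (m : ℤ) ^ 2 + b * m + c = n := by
    rw [← hn]
    unfold gq
    ring
  rw [h1, hn, one_div, inv_mul_eq_div]
  congr 1
  unfold inProg
  rw [card_filter]
  push_cast
  apply sum_congr rfl
  intro j hj
  rw [mem_Icc] at hj
  have h2 : W * j ≤ W * J := Nat.mul_le_mul_left _ hj.2
  have h3 : (n : ℤ) + (W : ℤ) * (j : ℤ) = ((n + W * j : ℕ) : ℤ) := by push_cast; ring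
  rw [h3, ind_PrQ (by omega) (by omega), Int.toNat_natCast]

open Classical in
/-- **The transference theorem.** -/
theorem trans_final (a : ℕ) (ha : 1 ≤ a) (b : ℤ) (θ : ℝ) (hθ : 0 < θ) (δ : ℝ) (hδ : 0 < δ) :
    ∃ R : ℕ, ∀ W : ℕ, 1 ≤ W → (∀ r, 1 ≤ r → r ≤ R → r ∣ W) → ∃ κ0 : ℝ, 0 < κ0 ∧
      ∀ κ : ℝ, 0 < κ → κ ≤ κ0 → ∀ᶠ X : ℕ in atTop, ∀ y : ℕ, (X : ℝ) ^ θ ≤ y → y ^ 2 ≤ X →
        ∀ Q : Set ℕ, ∃ Bad ⊆ Icc 1 (X : ℤ), (#Bad : ℝ) ≤ δ * X ∧ ∀ c ∈ Icc 1 (X : ℤ), c ∉ Bad →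
          |(countQ Q a b c y : ℝ) - locQ Q a b c W ⌊κ * (y : ℝ) ^ 2⌋₊ y| ≤ δ * (y / Real.log X) := by
  obtain ⟨R, h0⟩ := trans_sq a ha b θ hθ (δ ^ 3 / 2) (by positivity)
  refine ⟨R, fun W hW hWd => ?_⟩
  obtain ⟨κ0, hκ0, hκW, h0⟩ := h0 W hW hWd
  refine ⟨κ0, hκ0, fun κ hκ hκκ => ?_⟩
  have h0 := h0 κ hκ hκκ
  filter_upwards [h0, eventually_ge_atTop 2, ev_rpow_nat 1 hθ,
    ev_rpow_nat (2 * (1 + (b.natAbs ^ 2 : ℕ)) / δ) (by norm_num : (0 : ℝ) < 1 / 2)]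
    with X h0 hX2 hX1 hXb y hy1 hy2 Q
  obtain ⟨hJ, h0⟩ := h0 y hy1 hy2
  have h0 := h0 Q
  have hX0 : (0 : ℝ) < X := by
    have : 0 < X := by omega
    exact_mod_cast this
  have hlogX : 0 < Real.log X := Real.log_pos (by exact_mod_cast (by omega : 1 < X))
  have hy1R : (1 : ℝ) ≤ y := hX1.trans hy1
  set Y : ℝ := (y : ℝ) / Real.log X with hY
  have hY0 : 0 < Y := by positivity
  set J := ⌊κ * (y : ℝ) ^ 2⌋₊ with hJd
  set N := (a + b.natAbs + 3) * X with hN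
  have hWJ : W * J ≤ X := by
    have h1 : ((W * J : ℕ) : ℝ) ≤ X := by
      push_cast
      have hy2R : (y : ℝ) ^ 2 ≤ X := by exact_mod_cast hy2
      have hW0 : (0 : ℝ) ≤ W := by positivity
      calc (W : ℝ) * J ≤ W * (κ * (y : ℝ) ^ 2) :=
            mul_le_mul_of_nonneg_left (Nat.floor_le (by positivity)) hW0
        _ = (κ * W) * (y : ℝ) ^ 2 := by ring
        _ ≤ (κ0 * W) * (y : ℝ) ^ 2 := by gcongr
        _ ≤ 1 * (y : ℝ) ^ 2 := by gcongr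
        _ ≤ X := by linarith
    exact_mod_cast h1
  set B1 : Finset ℤ := (Icc 1 (X : ℤ)).filter (fun c =>
    δ * Y < |cnt a b (PrQ Q y N) y c - loc a b (PrQ Q y N) W J y c|) with hB1
  set B2 : Finset ℤ := (Icc 1 (X : ℤ)).filter (fun c => c ≤ (y : ℤ) + b ^ 2) with hB2
  refine ⟨B1 ∪ B2, ?_, ?_, ?_⟩
  · rw [union_subset_iff]
    exact ⟨filter_subset _ _, filter_subset _ _⟩
  · have h1 : (#B1 : ℝ) * (δ * Y) ^ 2 ≤ δ ^ 3 / 2 * (X * Y ^ 2) := by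
      refine le_trans ?_ h0
      calc (#B1 : ℝ) * (δ * Y) ^ 2 = ∑ c ∈ B1, (δ * Y) ^ 2 := by rw [sum_const, nsmul_eq_mul]
        _ ≤ ∑ c ∈ B1, (cnt a b (PrQ Q y N) y c - loc a b (PrQ Q y N) W J y c) ^ 2 := by
          apply sum_le_sum
          intro c hc
          rw [hB1, mem_filter] at hc
          rw [← sq_abs (cnt a b (PrQ Q y N) y c - loc a b (PrQ Q y N) W J y c)]
          exact pow_le_pow_left₀ (by positivity) hc.2.le 2
        _ ≤ _ := sum_le_sum_of_subset_of_nonneg (filter_subset _ _) fun c _ _ => sq_nonneg _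
    have h2 : (#B1 : ℝ) ≤ δ / 2 * X := by
      have h3 : δ ^ 3 / 2 * (X * Y ^ 2) = (δ / 2 * X) * (δ * Y) ^ 2 := by ring
      rw [h3] at h1
      exact le_of_mul_le_mul_right h1 (by positivity)
    have h3 : (#B2 : ℝ) ≤ δ / 2 * X := by
      have h4 : #B2 ≤ y + b.natAbs ^ 2 := by
        have h5 : B2 ⊆ Icc 1 ((y : ℤ) + b ^ 2) := by
          intro c hc
          rw [hB2, mem_filter, mem_Icc] at hc
          rw [mem_Icc]
          exact ⟨hc.1.1, hc.2⟩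
        refine (card_le_card h5).trans ?_
        rw [Int.card_Icc]
        have h6 : b ^ 2 = ((b.natAbs ^ 2 : ℕ) : ℤ) := by
          push_cast
          rw [sq_abs]
        rw [h6]
        omega
      have h5 : (#B2 : ℝ) ≤ y + ((b.natAbs ^ 2 : ℕ) : ℝ) := by exact_mod_cast h4
      have hsq : (X : ℝ) ^ (1 / 2 : ℝ) * (X : ℝ) ^ (1 / 2 : ℝ) = X := by
        rw [← Real.rpow_add hX0]
        norm_num
      have hs0 : 0 < (X : ℝ) ^ (1 / 2 : ℝ) := by positivity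
      have hs1 : 1 ≤ (X : ℝ) ^ (1 / 2 : ℝ) :=
        Real.one_le_rpow (by exact_mod_cast (by omega : 1 ≤ X)) (by norm_num)
      have h6 : (y : ℝ) ≤ (X : ℝ) ^ (1 / 2 : ℝ) := by
        have h7 : (y : ℝ) ^ 2 ≤ X := by exact_mod_cast hy2
        nlinarith
      rw [div_le_iff₀ hδ] at hXb
      have hb0 : (0 : ℝ) ≤ ((b.natAbs ^ 2 : ℕ) : ℝ) := Nat.cast_nonneg _
      calc (#B2 : ℝ) ≤ y + ((b.natAbs ^ 2 : ℕ) : ℝ) := h5
        _ ≤ (X : ℝ) ^ (1 / 2 : ℝ) * (1 + ((b.natAbs ^ 2 : ℕ) : ℝ)) := by nlinarith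
        _ ≤ (X : ℝ) ^ (1 / 2 : ℝ) * ((X : ℝ) ^ (1 / 2 : ℝ) * δ / 2) := by
          apply mul_le_mul_of_nonneg_left _ hs0.le
          linarith
        _ = δ / 2 * ((X : ℝ) ^ (1 / 2 : ℝ) * (X : ℝ) ^ (1 / 2 : ℝ)) := by ring
        _ = δ / 2 * X := by rw [hsq]
    have h4 : (#(B1 ∪ B2) : ℝ) ≤ (#B1 : ℝ) + #B2 := by exact_mod_cast card_union_le _ _
    linarith
  · intro c hc hcB
    rw [mem_union, not_or, hB1, hB2, mem_filter, mem_filter] at hcB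
    have h1 : |cnt a b (PrQ Q y N) y c - loc a b (PrQ Q y N) W J y c| ≤ δ * Y := by
      by_contra h
      exact hcB.1 ⟨hc, not_le.1 h⟩
    have h2 : (y : ℤ) + b ^ 2 < c := by
      by_contra h
      exact hcB.2 ⟨hc, not_lt.1 h⟩
    rw [mem_Icc] at hc
    rwa [cnt_countQ Q ha hy2 h2 hc.2, loc_locQ Q ha hy2 h2 hc.2 hWJ] at h1

/-- the number of prime values -/
def cntP (a b c : ℤ) (y : ℕ) : ℕ :=
  #((Icc 1 y).filter (fun m : ℕ => (a * (m : ℤ) ^ 2 + b * m + c).toNat.Prime))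

theorem cnt_cntP {a X y : ℕ} {b c : ℤ} (hy : y ^ 2 ≤ X) (hc2 : c ≤ X) :
    cnt a b (PrN ((a + b.natAbs + 3) * X)) y c = cntP a b c y := by
  unfold cnt cntP
  rw [card_filter]
  push_cast
  apply sum_congr rfl
  intro m hm
  rw [mem_Icc] at hm
  have h1 : (a : ℤ) * (m : ℤ) ^ 2 + b * m + c = c + gq a b m := by
    unfold gq
    ring
  rw [h1]
  have h4 := gq_le a b hm.2
  rcases le_or_gt 0 (c + gq a b m) with h0 | h0
  · obtain ⟨n, hn⟩ := Int.eq_ofNat_of_zero_le h0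
    have h7 : ((a + b.natAbs : ℕ) : ℤ) * (y : ℤ) ^ 2 ≤ ((a + b.natAbs : ℕ) : ℤ) * X := by
      apply mul_le_mul_of_nonneg_left _ (by positivity)
      exact_mod_cast hy
    have h8 : (((a + b.natAbs + 3) * X : ℕ) : ℤ) = ((a + b.natAbs : ℕ) : ℤ) * X + 3 * X := by
      push_cast
      ring
    have h9 : (n : ℤ) ≤ (((a + b.natAbs + 3) * X : ℕ) : ℤ) := by
      rw [h8]
      push_cast
      push_cast at h7 h4
      omega
    rw [hn, ind_PrN (by exact_mod_cast h9), Int.toNat_natCast]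
  · have h5 : (c + gq a b m).toNat = 0 := Int.toNat_of_nonpos h0.le
    rw [h5, if_neg Nat.not_prime_zero]
    unfold ind PrN
    rw [if_neg]
    intro h
    rw [mem_image] at h
    obtain ⟨p, -, h2⟩ := h
    omega

open Classical in
/-- **The upper bound and the proportion.** -/
theorem final' (a : ℕ) (ha : 1 ≤ a) (b : ℤ) (θ : ℝ) (hθ : 0 < θ) (δ : ℝ) (hδ : 0 < δ) :
    ∀ᶠ X : ℕ in atTop, ∀ y : ℕ, (X : ℝ) ^ θ ≤ y → y ^ 2 ≤ X →
      (∃ Bad ⊆ Icc 1 (X : ℤ), (#Bad : ℝ) ≤ δ * X ∧ ∀ c ∈ Icc 1 (X : ℤ), c ∉ Bad → Adm a b c →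
        ∃ C : ℝ, (0 < C ∧ Tendsto (fun z => pC a b c z) atTop (𝓝 C)) ∧
          (cntP a b c y : ℝ) ≤ (18 / 5 + δ) * (epsi a b * C * gP a b) * (y / Real.log X)) ∧
      ∀ μ : ℝ, 0 ≤ μ → μ ≤ 1 →
        (1 - μ) / (18 / 5 - μ) * (#((Icc 1 (X : ℤ)).filter (fun c => Adm a b c)) : ℝ) - δ * X ≤
        (#((Icc 1 (X : ℤ)).filter (fun c => Adm a b c ∧ ∃ C : ℝ,
          (0 < C ∧ Tendsto (fun z => pC a b c z) atTop (𝓝 C)) ∧
          μ * (epsi a b * C * gP a b) * (y / Real.log X) ≤ cntP a b c y)) : ℝ) := by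
  have h1 := final a ha b θ hθ (min δ 1) (lt_min hδ one_pos) (min_le_right _ _)
  have hm : min δ 1 ≤ δ := min_le_left _ _
  filter_upwards [h1, eventually_ge_atTop 2] with X h1 hX2 y hy1 hy2
  obtain ⟨⟨Bad, hBad, hBc, hB⟩, h2⟩ := h1 y hy1 hy2
  have hX0 : (0 : ℝ) ≤ X := Nat.cast_nonneg _
  have hlogX : 0 < Real.log X := Real.log_pos (by exact_mod_cast (by omega : 1 < X))
  refine ⟨⟨Bad, hBad, hBc.trans (mul_le_mul_of_nonneg_right hm hX0), fun c hc hcB hadm => ?_⟩,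
    fun μ hμ0 hμ1 => ?_⟩
  · obtain ⟨C, hC, hlim, hle⟩ := hB c hc hcB hadm
    rw [cnt_cntP hy2 (mem_Icc.1 hc).2] at hle
    refine ⟨C, ⟨hC, hlim⟩, hle.trans ?_⟩
    have he := epsi_pos a b
    have hg := gP_pos a b
    have hY : 0 ≤ (y : ℝ) / Real.log X := by positivity
    gcongr
  · have h3 := h2 μ hμ0 hμ1
    have h4 : min δ 1 * (X : ℝ) ≤ δ * X := mul_le_mul_of_nonneg_right hm hX0
    have h5 : (Icc 1 (X : ℤ)).filter (fun c => Adm a b c ∧ ∃ C : ℝ, 0 < C ∧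
          Tendsto (fun z => pC a b c z) atTop (𝓝 C) ∧
          μ * (epsi a b * C * gP a b) * (y / Real.log X) ≤
            cnt a b (PrN ((a + b.natAbs + 3) * X)) y c) =
        (Icc 1 (X : ℤ)).filter (fun c => Adm a b c ∧ ∃ C : ℝ,
          (0 < C ∧ Tendsto (fun z => pC a b c z) atTop (𝓝 C)) ∧
          μ * (epsi a b * C * gP a b) * (y / Real.log X) ≤ cntP a b c y) := by
      apply filter_congr
      intro c hc
      rw [cnt_cntP hy2 (mem_Icc.1 hc).2]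
      constructor
      · rintro ⟨g1, C, g2, g3, g4⟩
        exact ⟨g1, C, ⟨g2, g3⟩, g4⟩
      · rintro ⟨g1, C, ⟨g2, g3⟩, g4⟩
        exact ⟨g1, C, g2, g3, g4⟩
    rw [h5] at h3
    linarith

end Pool.Agent.V8H34.TR
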